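import Mathlib

set_option autoImplicit false

/-! Algebraic dependence of two elements of a domain. -/

namespace Pool.Agent.Flat3

open Polynomial

section

variable {O : Type} [CommRing O] [IsDomain O] [Algebra ℂ O]

/-- `y` is algebraic over `ℂ(x)`. -/
def AlgOver (x y : O) : Prop := IsAlgebraic (Algebra.adjoin ℂ {x}) y

theorem ap_faithful : FaithfulSMul ℂ O :=
  (faithfulSMul_iff_algebraMap_injective ℂ O).mpr (algebraMap ℂ O).injective

theorem AlgOver.self (x : O) : AlgOver x x :=
  isAlgebraic_algebraMap (⟨x, Algebra.self_mem_adjoin_singleton ℂ x⟩ : Algebra.adjoin ℂ {x})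

theorem AlgOver.of_aeval (x : O) (p : ℂ[X]) : AlgOver x (Polynomial.aeval x p) :=
  isAlgebraic_algebraMap (⟨Polynomial.aeval x p, by
    rw [Algebra.adjoin_singleton_eq_range_aeval]
    exact ⟨p, rfl⟩⟩ : Algebra.adjoin ℂ {x})

theorem AlgOver.const (x : O) (c : ℂ) : AlgOver x (algebraMap ℂ O c) := by
  have := AlgOver.of_aeval x (C c)
  rwa [Polynomial.aeval_C] at this

theorem AlgOver.mul {x y z : O} (hy : AlgOver x y) (hz : AlgOver x z) : AlgOver x (y * z) :=
  IsAlgebraic.mul hy hz

theorem AlgOver.add {x y z : O} (hy : AlgOver x y) (hz : AlgOver x z) : AlgOver x (y + z) :=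
  IsAlgebraic.add hy hz

omit [IsDomain O] in
theorem AlgOver.neg {x y : O} (hy : AlgOver x y) : AlgOver x (-y) :=
  IsAlgebraic.neg hy

theorem AlgOver.pow {x y : O} (hy : AlgOver x y) (n : ℕ) : AlgOver x (y ^ n) :=
  IsAlgebraic.pow hy n

theorem AlgOver.sum {x : O} {ι : Type} (s : Finset ι) (f : ι → O) (h : ∀ i ∈ s, AlgOver x (f i)) :
    AlgOver x (∑ i ∈ s, f i) := by
  classical
  induction s using Finset.induction_on with
  | empty =>
    rw [Finset.sum_empty]
    have := AlgOver.const x 0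
    rwa [map_zero] at this
  | insert a s ha ih =>
    rw [Finset.sum_insert ha]
    exact (h a (Finset.mem_insert_self a s)).add
      (ih fun i hi => h i (Finset.mem_insert_of_mem hi))

theorem AlgOver.of_mul {x y z : O} (hy0 : y ≠ 0) (hy : AlgOver x y) (hyz : AlgOver x (y * z)) :
    AlgOver x z :=
  IsAlgebraic.of_mul (mem_nonZeroDivisors_of_ne_zero hy0) hy hyz

omit [IsDomain O] in
/-- the value of a bivariate polynomial as a sum. -/
theorem ap_aeval (x y : O) (P : ℂ[X][X]) :
    aevalAeval x y P = ∑ j ∈ Finset.range (P.natDegree + 1), aeval x (P.coeff j) * y ^ j := by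
  conv_lhs => rw [P.as_sum_range_C_mul_X_pow]
  rw [map_sum]
  refine Finset.sum_congr rfl fun j _ => ?_
  rw [map_mul, map_pow, aevalAeval_C, aevalAeval_Y]

omit [IsDomain O] in
theorem ap_aeval_derivative (x y : O) (P : ℂ[X][X]) :
    aevalAeval x y (derivative P) =
      ∑ j ∈ Finset.range (P.natDegree + 1), aeval x (P.coeff j) * ((j : ℕ) * y ^ (j - 1)) := by
  conv_lhs => rw [P.as_sum_range_C_mul_X_pow]
  rw [map_sum, map_sum]
  refine Finset.sum_congr rfl fun j _ => ?_
  rw [derivative_C_mul_X_pow, map_mul, map_pow, aevalAeval_Y, aevalAeval_C, map_mul, map_natCast]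
  ring

theorem AlgOver.of_rel {x y : O} (hx : ∀ p : ℂ[X], p ≠ 0 → aeval x p ≠ 0) (P : ℂ[X][X])
    (hP : P ≠ 0) (h : aevalAeval x y P = 0) : AlgOver x y := by
  set f : ℂ[X] →+* Algebra.adjoin ℂ {x} :=
    ((aeval x : ℂ[X] →ₐ[ℂ] O).codRestrict (Algebra.adjoin ℂ {x}) (fun p => by
      rw [Algebra.adjoin_singleton_eq_range_aeval]
      exact ⟨p, rfl⟩)).toRingHom with hf
  have hfv : ∀ p, ((f p : Algebra.adjoin ℂ {x}) : O) = aeval x p := fun p => rfl
  have hfinj : Function.Injective f := by
    rw [injective_iff_map_eq_zero]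
    intro p hp
    by_contra hne
    apply hx p hne
    rw [← hfv, hp]
    rfl
  refine ⟨P.map f, (Polynomial.map_ne_zero_iff hfinj).2 hP, ?_⟩
  rw [aeval_def, eval₂_map, ← h, ap_aeval, eval₂_eq_sum_range]
  refine Finset.sum_congr rfl fun j _ => ?_
  rfl

theorem AlgOver.to_rel {x y : O} (h : AlgOver x y) :
    ∃ P : ℂ[X][X], P ≠ 0 ∧ aevalAeval x y P = 0 := by
  obtain ⟨q, hq, hqy⟩ := h
  have hex : ∀ a : Algebra.adjoin ℂ {x}, ∃ p : ℂ[X], aeval x p = (a : O) := by
    intro a
    have h1 : (a : O) ∈ (aeval x : ℂ[X] →ₐ[ℂ] O).range := by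
      rw [← Algebra.adjoin_singleton_eq_range_aeval]
      exact a.2
    exact h1
  choose g hg using hex
  set P : ℂ[X][X] := ∑ j ∈ Finset.range (q.natDegree + 1), C (g (q.coeff j)) * X ^ j with hP
  refine ⟨P, ?_, ?_⟩
  · intro h0
    have h1 := congrArg (fun r => r.coeff q.natDegree) h0
    simp only [hP, finsetSum_coeff, coeff_C_mul, coeff_X_pow, coeff_zero] at h1
    rw [Finset.sum_eq_single q.natDegree] at h1
    · rw [if_pos rfl, mul_one] at h1
      have h2 := hg (q.coeff q.natDegree)
      rw [h1, map_zero] at h2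
      apply hq
      rw [← leadingCoeff_eq_zero]
      exact Subtype.ext h2.symm
    · intro j _ hj
      rw [if_neg (fun h => hj h.symm), mul_zero]
    · intro hn
      exact absurd (Finset.mem_range.2 (by omega)) hn
  · rw [hP, map_sum, ← hqy, aeval_def, eval₂_eq_sum_range]
    refine Finset.sum_congr rfl fun j _ => ?_
    rw [map_mul, map_pow, aevalAeval_C, aevalAeval_Y, hg]
    rfl

/-- Exchange: if `h` is algebraic over `ℂ(u)` and over `ℂ(x)`, and `x` is not algebraic over `ℂ(u)`,
then `h` is algebraic over `ℂ`. -/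
theorem AlgOver.const_of_two {u x h : O} (h1 : AlgOver u h) (h2 : AlgOver x h)
    (h3 : ¬ AlgOver u x) : IsAlgebraic ℂ h := by
  haveI := ap_faithful (O := O)
  by_contra hcon
  have hcl : ∀ s : Set O, (AlgebraicIndependent.matroid ℂ O).closure s =
      Subalgebra.algebraicClosure (Algebra.adjoin ℂ s) O := fun s =>
    AlgebraicIndependent.matroid_closure_eq
  have m1 : h ∈ (AlgebraicIndependent.matroid ℂ O).closure {u} := by
    rw [hcl]
    exact h1
  have m2 : h ∈ (AlgebraicIndependent.matroid ℂ O).closure (insert x ∅) := by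
    rw [hcl, insert_empty_eq]
    exact h2
  have m0 : h ∉ (AlgebraicIndependent.matroid ℂ O).closure ∅ := by
    rw [hcl]
    intro hh
    apply hcon
    have hh' : IsAlgebraic (Algebra.adjoin ℂ (∅ : Set O)) h := hh
    rw [Algebra.adjoin_empty] at hh'
    haveI : Algebra.IsAlgebraic ℂ (⊥ : Subalgebra ℂ O) := by
      constructor
      intro a
      obtain ⟨c, hc⟩ := Algebra.mem_bot.1 a.2
      have : a = algebraMap ℂ (⊥ : Subalgebra ℂ O) c := Subtype.ext hc.symm
      rw [this]
      exact isAlgebraic_algebraMap c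
    exact hh'.restrictScalars ℂ
  have m3 := Matroid.mem_closure_insert m0 m2
  rw [insert_empty_eq] at m3
  apply h3
  have m4 : x ∈ (AlgebraicIndependent.matroid ℂ O).closure {u} := by
    have : (AlgebraicIndependent.matroid ℂ O).closure {h} ⊆
        (AlgebraicIndependent.matroid ℂ O).closure {u} :=
      Matroid.closure_subset_closure_of_subset_closure (by
        rw [Set.singleton_subset_iff]
        exact m1)
    exact this m3
  rw [hcl] at m4
  exact m4

/-- An element of a domain which is algebraic over `ℂ` is in `ℂ`. -/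
theorem eq_const_of_isAlgebraic {h : O} (hh : IsAlgebraic ℂ h) : ∃ c : ℂ, h = algebraMap ℂ O c := by
  obtain ⟨p, hp, hp0⟩ := hh
  have hs := IsAlgClosed.splits p
  have h1 := hs.eq_prod_roots
  rw [h1, map_mul, aeval_C, map_multiset_prod, Multiset.map_map] at hp0
  rcases mul_eq_zero.1 hp0 with h2 | h2
  · exfalso
    rw [map_eq_zero] at h2
    exact hp (leadingCoeff_eq_zero.1 h2)
  · rw [Multiset.prod_eq_zero_iff, Multiset.mem_map] at h2
    obtain ⟨c, _, hc⟩ := h2
    refine ⟨c, ?_⟩
    simp only [Function.comp_apply, map_sub, aeval_X, aeval_C] at hc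
    exact sub_eq_zero.1 hc

end

end Pool.Agent.Flat3
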