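import Pool.Agent.Flat3.ArcLoc

set_option autoImplicit false

/-! Torsion points near an arc: the local count. -/

namespace Pool.Agent.Flat3

open Metric
open scoped ContDiff

/-- The property of a point that near it there are few torsion points near the arc. -/
def Few (a b c : ℤ) (ε : ℝ) (p : ℂ × ℂ) : Prop :=
  ∃ (r C : ℝ) (E : ℕ), 0 < r ∧ 0 < C ∧ ∀ N : ℕ, 1 ≤ N → ∀ S : Finset (ℕ × ℕ),
    (∀ q ∈ S, ‖((q.1 : ℂ) / N) - p.1‖ < r ∧ ‖((q.2 : ℂ) / N) - p.2‖ < r ∧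
      C * (N : ℝ) ^ E * ‖Gf a b c ((q.1 : ℂ) / N, (q.2 : ℂ) / N)‖ ≤ 1) →
    (S.card : ℝ) ≤ C * (N : ℝ) ^ ε

theorem Few.swap {a b c : ℤ} {ε : ℝ} {u w : ℂ} (h : Few b a c ε (w, u)) : Few a b c ε (u, w) := by
  obtain ⟨r, C, E, hr, hC, h⟩ := h
  refine ⟨r, C, E, hr, hC, fun N hN S hS => ?_⟩
  have h1 := h N hN (S.map (Equiv.prodComm ℕ ℕ).toEmbedding) (by
    intro q hq
    obtain ⟨q', hq', rfl⟩ := Finset.mem_map.1 hq
    obtain ⟨g1, g2, g3⟩ := hS q' hq'
    refine ⟨g2, g1, ?_⟩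
    have e : Gf b a c ((q'.2 : ℂ) / N, (q'.1 : ℂ) / N) = Gf a b c ((q'.1 : ℂ) / N, (q'.2 : ℂ) / N) :=
      Gf_swap a b c _ _
    show C * (N : ℝ) ^ E * ‖Gf b a c ((q'.2 : ℂ) / N, (q'.1 : ℂ) / N)‖ ≤ 1
    rw [e]
    exact g3)
  rwa [Finset.card_map] at h1

private theorem inv_of_ne (f : ℂ →L[ℂ] ℂ) (h : f 1 ≠ 0) : f.IsInvertible := by
  refine ⟨ContinuousLinearEquiv.unitsEquivAut ℂ (Units.mk0 (f 1) h), ?_⟩
  ext
  simp

private theorem nat_eq_of_close (N : ℕ) (hN : 1 ≤ N) (k l : ℕ) (h : ‖(k : ℂ) / N - (l : ℂ) / N‖ < 1 / N) :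
    k = l := by
  have hN0 : (0 : ℝ) < N := by exact_mod_cast hN
  have e : (k : ℂ) / N - (l : ℂ) / N = (((k : ℤ) - (l : ℤ) : ℤ) : ℂ) / N := by
    push_cast
    ring
  rw [e, norm_div, Complex.norm_natCast, div_lt_div_iff_of_pos_right hN0, Complex.norm_intCast] at h
  have h1 : |(k : ℤ) - (l : ℤ)| < 1 := by exact_mod_cast h
  have h2 := Int.abs_lt_one_iff.1 h1
  omega

/-- **Local count**, second partial derivative not zero. -/
theorem few_of_ne (a b c : ℤ) (h : ArcType a b c) (u0 w0 : ℂ) (hG : Gf a b c (u0, w0) = 0)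
    (hD : (b : ℂ) * Tf w0 + c * Tf (u0 + w0) ≠ 0) (ε : ℝ) (hε : 0 < ε) :
    Few a b c ε (u0, w0) := by
  classical
  have ha : a ≠ 0 := by rcases h with h | h; exacts [h.2.1, h.2.1]
  have hb : b ≠ 0 := by rcases h with h | h; exacts [h.2.2.1, h.2.2.1]
  set D : ℂ := (b : ℂ) * Tf w0 + c * Tf (u0 + w0) with hDdef
  have hDpos : 0 < ‖D‖ := norm_pos_iff.2 hD
  have hA : AnalyticAt ℂ (Gf a b c) (u0, w0) := Gf_analytic a b c ha hb _ hG
  have cdf : ContDiffAt ℂ ω (Gf a b c) (u0, w0) := hA.contDiffAt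
  have pn : (ω : ℕ∞ω) ≠ 0 := by simp
  have hstrict : HasStrictFDerivAt (Gf a b c) (fderiv ℂ (Gf a b c) (u0, w0)) (u0, w0) :=
    cdf.hasStrictFDerivAt pn
  set L : ℂ × ℂ →L[ℂ] ℂ := fderiv ℂ (Gf a b c) (u0, w0) with hL
  have hL1 : L (0, 1) = D := by
    have h1 := Gf_deriv a b c ha hb u0 w0 hG
    have h2 : HasDerivAt (fun z : ℂ => ((u0, z) : ℂ × ℂ)) (0, 1) w0 :=
      (hasDerivAt_const w0 u0).prodMk (hasDerivAt_id w0)
    have h3 : HasDerivAt (fun z => Gf a b c (u0, z)) (L (0, 1)) w0 :=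
      hstrict.hasFDerivAt.comp_hasDerivAt w0 h2
    exact h3.unique h1
  have if₂ : (L ∘L .inr ℂ ℂ ℂ).IsInvertible := by
    apply inv_of_ne
    rw [ContinuousLinearMap.comp_apply, ContinuousLinearMap.inr_apply, hL1]
    exact hD
  set ψ : ℂ → ℂ := cdf.implicitFunction pn if₂ with hψ
  have hψ0 : ψ u0 = w0 := cdf.implicitFunction_apply_self pn if₂
  have hψA : AnalyticAt ℂ ψ u0 := (cdf.contDiffAt_implicitFunction pn if₂).analyticAt
  have hψG : ∀ᶠ x in nhds u0, Gf a b c (x, ψ x) = 0 := by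
    have h1 := cdf.eventually_apply_implicitFunction pn if₂
    filter_upwards [h1] with x hx
    rw [hx, hG]
  obtain ⟨R1, hR1, hball⟩ := hψA.exists_ball_analyticOnNhd
  obtain ⟨R2, hR2, hball2⟩ := Metric.eventually_nhds_iff_ball.1 hψG
  set R : ℝ := min R1 R2 with hR
  have hRpos : 0 < R := lt_min hR1 hR2
  have hψd : DifferentiableOn ℂ ψ (ball u0 R) := fun z hz =>
    ((hball z (ball_subset_ball (min_le_left _ _) hz)).differentiableAt).differentiableWithinAt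
  -- Bombieri-Pila
  obtain ⟨ρ, C1, k, E1, hρ, hC1, hbp⟩ := bp_local u0 R hRpos (fun z => z) ψ
    differentiableOn_id hψd (fun d cc hcc =>
      trans_arc a b c h u0 R hRpos ψ hψd (fun t ht => by
        have h1 := hball2 t (ball_subset_ball (min_le_right _ _) ht)
        unfold Gf at h1
        exact sub_eq_zero.1 h1) d cc hcc) ε hε
  -- the strict derivative
  have hstr : ∀ᶠ p : (ℂ × ℂ) × (ℂ × ℂ) in nhds ((u0, w0), (u0, w0)),
      ‖Gf a b c p.1 - Gf a b c p.2 - L (p.1 - p.2)‖ ≤ ‖D‖ / 2 * ‖p.1 - p.2‖ :=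
    hstrict.isLittleO.def (by positivity)
  obtain ⟨r1, hr1, hstr1⟩ := Metric.eventually_nhds_iff_ball.1 hstr
  have hcont : ∀ᶠ x in nhds u0, ψ x ∈ ball w0 r1 := by
    have h1 := hψA.continuousAt.tendsto
    rw [hψ0] at h1
    exact h1.eventually (ball_mem_nhds w0 hr1)
  obtain ⟨r2, hr2, hcont2⟩ := Metric.eventually_nhds_iff_ball.1 hcont
  set r : ℝ := min (min ρ r1) (min r2 R) with hr
  have hrpos : 0 < r := by positivity
  set C1' : ℝ := max C1 1 with hC1'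
  have hC1'1 : 1 ≤ C1' := le_max_right _ _
  set K : ℝ := 2 / ‖D‖ with hK
  have hKpos : 0 < K := by positivity
  set C : ℝ := max (max C1 (4 * K)) (C1 * K * (4 * C1') ^ (k + 1)) with hC
  have hCpos : 0 < C := lt_of_lt_of_le hC1 ((le_max_left _ _).trans (le_max_left _ _))
  refine ⟨r, C, E1 + k + 1, hrpos, hCpos, fun N hN S hS => ?_⟩
  have rN : (1 : ℝ) ≤ N := by exact_mod_cast hN
  have hN0 : (0 : ℝ) < N := by linarith
  set δ : ℝ := K / (C * (N : ℝ) ^ (E1 + k + 1)) with hδ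
  have hδ0 : 0 ≤ δ := by positivity
  set θ : ℝ := 1 / (4 * C1' * N) with hθ
  have hθ0 : 0 < θ := by positivity
  have hθ1 : θ ≤ 1 := by
    rw [hθ, div_le_one (by positivity)]
    calc (1 : ℝ) ≤ 4 * C1' := by linarith
      _ = 4 * C1' * 1 := by ring
      _ ≤ 4 * C1' * N := by gcongr
  have hcond : C1 * (N : ℝ) ^ E1 * δ ≤ θ ^ (k + 1) := by
    rw [hδ, hθ, one_div, inv_pow, ← one_div, ← mul_div_assoc, div_le_div_iff₀ (by positivity)
      (by positivity)]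
    have h1 : C1 * K * (4 * C1') ^ (k + 1) ≤ C := le_max_right _ _
    calc C1 * (N : ℝ) ^ E1 * K * (4 * C1' * N) ^ (k + 1) =
        (C1 * K * (4 * C1') ^ (k + 1)) * (N : ℝ) ^ (E1 + k + 1) := by
          rw [mul_pow (4 * C1') (N : ℝ) (k + 1), show E1 + k + 1 = E1 + (k + 1) by ring, pow_add]
          ring
      _ ≤ C * (N : ℝ) ^ (E1 + k + 1) := by gcongr
      _ = 1 * (C * (N : ℝ) ^ (E1 + k + 1)) := by ring
  obtain ⟨S', hS', hcov⟩ := hbp N δ θ hN hδ0 hθ0 hθ1 hcond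
  -- the points of S are close to the graph
  have hclose : ∀ q ∈ S, ‖ψ ((q.1 : ℂ) / N) - (q.2 : ℂ) / N‖ ≤ δ := by
    intro q hq
    obtain ⟨g1, g2, g3⟩ := hS q hq
    set u : ℂ := (q.1 : ℂ) / N with hu
    set w : ℂ := (q.2 : ℂ) / N with hw
    have hur2 : u ∈ ball u0 r2 := by
      rw [mem_ball, dist_eq_norm]
      exact lt_of_lt_of_le g1 ((min_le_right _ _).trans (min_le_left _ _))
    have hψr1 : ψ u ∈ ball w0 r1 := hcont2 u hur2
    have hur1 : ‖u - u0‖ < r1 := lt_of_lt_of_le g1 ((min_le_left _ _).trans (min_le_right _ _))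
    have hwr1 : ‖w - w0‖ < r1 := lt_of_lt_of_le g2 ((min_le_left _ _).trans (min_le_right _ _))
    have hG0 : Gf a b c (u, ψ u) = 0 := by
      apply hball2
      rw [mem_ball, dist_eq_norm]
      exact lt_of_lt_of_le g1 ((min_le_right _ _).trans ((min_le_right _ _).trans (min_le_right _ _)))
    have h1 := hstr1 ((u, w), (u, ψ u)) (by
      rw [mem_ball, Prod.dist_eq, Prod.dist_eq, Prod.dist_eq]
      simp only [dist_eq_norm]
      refine max_lt (max_lt hur1 hwr1) (max_lt hur1 ?_)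
      rw [← dist_eq_norm]
      exact hψr1)
    simp only [hG0, sub_zero, Prod.mk_sub_mk, sub_self] at h1
    have e1 : L ((0 : ℂ), w - ψ u) = (w - ψ u) * D := by
      have e2 : ((0 : ℂ), w - ψ u) = (w - ψ u) • ((0 : ℂ), (1 : ℂ)) := by
        rw [Prod.smul_mk, smul_zero, smul_eq_mul, mul_one]
      rw [e2, map_smul, hL1, smul_eq_mul]
    have e3 : ‖((0 : ℂ), w - ψ u)‖ = ‖w - ψ u‖ := by
      rw [Prod.norm_def, norm_zero]
      exact max_eq_right (norm_nonneg _)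
    rw [e1, e3] at h1
    have h2 : ‖w - ψ u‖ * ‖D‖ ≤ ‖Gf a b c (u, w)‖ + ‖D‖ / 2 * ‖w - ψ u‖ := by
      rw [← norm_mul]
      have e4 : (w - ψ u) * D = Gf a b c (u, w) - (Gf a b c (u, w) - (w - ψ u) * D) := by ring
      rw [e4]
      exact (norm_sub_le _ _).trans (by linarith)
    have h3 : ‖w - ψ u‖ ≤ K * ‖Gf a b c (u, w)‖ := by
      rw [hK, div_mul_eq_mul_div, le_div_iff₀ hDpos]
      linarith
    have h4 : ‖Gf a b c (u, w)‖ ≤ 1 / (C * (N : ℝ) ^ (E1 + k + 1)) := by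
      rw [le_div_iff₀ (by positivity)]
      linarith
    rw [norm_sub_rev]
    calc ‖w - ψ u‖ ≤ K * ‖Gf a b c (u, w)‖ := h3
      _ ≤ K * (1 / (C * (N : ℝ) ^ (E1 + k + 1))) := by gcongr
      _ = δ := by rw [hδ]; ring
  have hδN : δ ≤ 1 / (4 * N) := by
    rw [hδ, div_le_div_iff₀ (by positivity) (by positivity), one_mul]
    have h1 : 4 * K ≤ C := (le_max_right _ _).trans (le_max_left _ _)
    calc K * (4 * N) = (4 * K) * (N : ℝ) ^ 1 := by ring
      _ ≤ C * (N : ℝ) ^ (E1 + k + 1) := by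
        have h2 : (N : ℝ) ^ 1 ≤ (N : ℝ) ^ (E1 + k + 1) := pow_le_pow_right₀ rN (by omega)
        gcongr
  -- the map to the clusters
  have hex : ∀ q : ℕ × ℕ, ∃ s : ℂ, q ∈ S → s ∈ S' ∧ ‖(q.1 : ℂ) / N - s‖ ≤ C1 * θ := by
    intro q
    by_cases hq : q ∈ S
    · obtain ⟨g1, _, _⟩ := hS q hq
      obtain ⟨s, hs, hds⟩ := hcov ((q.1 : ℂ) / N)
        (g1.le.trans ((min_le_left _ _).trans (min_le_left _ _)))
        ⟨q.1, q.2, by simpa using hδ0, by
          have := hclose q hq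
          simpa using this⟩
      exact ⟨s, fun _ => ⟨hs, hds⟩⟩
    · exact ⟨0, fun h => absurd h hq⟩
  choose f hf using hex
  have hC1θ : C1 * θ ≤ 1 / (4 * N) := by
    have h1 : C1 ≤ C1' := le_max_left _ _
    calc C1 * θ ≤ C1' * θ := by gcongr
      _ = 1 / (4 * N) := by
        rw [hθ]
        field_simp
  have hlt : 1 / (4 * (N : ℝ)) + 1 / (4 * N) < 1 / N := by
    have h1 : 1 / (4 * (N : ℝ)) + 1 / (4 * N) = (1 / 2) * (1 / N) := by
      field_simp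
      norm_num
    rw [h1]
    have : 0 < 1 / (N : ℝ) := by positivity
    linarith
  have hcard : S.card ≤ S'.card := by
    refine Finset.card_le_card_of_injOn f (fun q hq => (hf q hq).1) ?_
    intro q hq q' hq' he
    have g1 := (hf q hq).2
    have g2 := (hf q' hq').2
    rw [← he] at g2
    have h1 : q.1 = q'.1 := by
      apply nat_eq_of_close N hN
      have e1 : (q.1 : ℂ) / N - (q'.1 : ℂ) / N = ((q.1 : ℂ) / N - f q) - ((q'.1 : ℂ) / N - f q) := by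
        ring
      rw [e1]
      refine lt_of_le_of_lt (norm_sub_le _ _) ?_
      linarith
    have h2 : q.2 = q'.2 := by
      apply nat_eq_of_close N hN
      have g3 := hclose q hq
      have g4 := hclose q' hq'
      rw [← h1] at g4
      have e1 : (q.2 : ℂ) / N - (q'.2 : ℂ) / N = (ψ ((q.1 : ℂ) / N) - (q'.2 : ℂ) / N) -
          (ψ ((q.1 : ℂ) / N) - (q.2 : ℂ) / N) := by
        ring
      rw [e1]
      refine lt_of_le_of_lt (norm_sub_le _ _) ?_
      linarith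
    exact Prod.ext h1 h2
  calc (S.card : ℝ) ≤ S'.card := by exact_mod_cast hcard
    _ ≤ C1 * (N : ℝ) ^ ε := hS'
    _ ≤ C * (N : ℝ) ^ ε := by
      have h1 : C1 ≤ C := (le_max_left _ _).trans (le_max_left _ _)
      gcongr

/-- **Local count.** -/
theorem few_of_zero (a b c : ℤ) (h : ArcType a b c) (p : ℂ × ℂ) (hG : Gf a b c p = 0) (ε : ℝ)
    (hε : 0 < ε) : Few a b c ε p := by
  obtain ⟨u0, w0⟩ := p
  rcases arc_smooth a b c h u0 w0 hG with hD | hD
  · exact few_of_ne a b c h u0 w0 hG hD ε hε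
  · apply Few.swap
    refine few_of_ne b a c ?_ w0 u0 ?_ ?_ ε hε
    · rcases h with ⟨h1, h2, h3, h4⟩ | ⟨h1, h2, h3, h4⟩
      · exact Or.inl ⟨h1, h3, h2, by omega⟩
      · exact Or.inr ⟨by omega, h3, h2, h4⟩
    · rw [Gf_swap]
      exact hG
    · rw [add_comm w0 u0]
      exact hD

end Pool.Agent.Flat3
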