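import Mathlib

set_option autoImplicit false

/-! Sublevel sets of power series with bounded coefficients. -/

namespace Pool.Agent.Flat3

open Filter Topology

/-- The power series with coefficients `a`. -/
noncomputable def ev (a : ℕ → ℂ) (z : ℂ) : ℂ := ∑' n, a n * z ^ n

theorem ev_bound {a : ℕ → ℂ} {A : ℝ} (ha : ∀ n, ‖a n‖ ≤ A) {z : ℂ} (hz : ‖z‖ ≤ 1 / 2) (n : ℕ) :
    ‖a n * z ^ n‖ ≤ A * (1 / 2) ^ n := by
  rw [norm_mul, norm_pow]
  exact mul_le_mul (ha n) (pow_le_pow_left₀ (norm_nonneg _) hz n) (by positivity)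
    ((norm_nonneg _).trans (ha n))

theorem ev_hasSum {a : ℕ → ℂ} {A : ℝ} (ha : ∀ n, ‖a n‖ ≤ A) {z : ℂ} (hz : ‖z‖ ≤ 1 / 2) :
    HasSum (fun n => a n * z ^ n) (ev a z) := by
  refine Summable.hasSum ?_
  refine Summable.of_norm_bounded (g := fun n => A * (1 / 2) ^ n) ?_ (ev_bound ha hz)
  exact (summable_geometric_of_lt_one (by norm_num) (by norm_num)).mul_left _

theorem ev_norm_le {a : ℕ → ℂ} {A : ℝ} (ha : ∀ n, ‖a n‖ ≤ A) {z : ℂ} (hz : ‖z‖ ≤ 1 / 2) :
    ‖ev a z‖ ≤ 2 * A := by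
  have h1 : HasSum (fun n : ℕ => A * (1 / 2 : ℝ) ^ n) (A * 2) := by
    have := hasSum_geometric_of_lt_one (r := (1 / 2 : ℝ)) (by norm_num) (by norm_num)
    have h2 : (1 - 1 / 2 : ℝ)⁻¹ = 2 := by norm_num
    rw [h2] at this
    exact this.mul_left A
  have := (ev_hasSum ha hz).norm_le_of_bounded h1 (ev_bound ha hz)
  linarith

theorem ev_succ {a : ℕ → ℂ} {A : ℝ} (ha : ∀ n, ‖a n‖ ≤ A) {z : ℂ} (hz : ‖z‖ ≤ 1 / 2) :
    ev a z = a 0 + z * ev (fun n => a (n + 1)) z := by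
  have h1 := ev_hasSum ha hz
  have h2 := (hasSum_nat_add_iff' (f := fun n => a n * z ^ n) 1).2 h1
  have h3 := (ev_hasSum (a := fun n => a (n + 1)) (fun n => ha (n + 1)) hz).mul_left z
  have h4 : (fun n => a (n + 1) * z ^ (n + 1)) = fun n => z * (a (n + 1) * z ^ n) := by
    funext n
    ring
  rw [h4] at h2
  have h5 := h2.unique h3
  rw [Finset.sum_range_one, pow_zero, mul_one] at h5
  rw [← h5]
  ring

/-- The quotient `(F z - F t) / (z - t)`. -/
noncomputable def quo (a : ℕ → ℂ) (t : ℂ) (i : ℕ) : ℂ := ev (fun j => a (i + 1 + j)) t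

theorem quo_bound {a : ℕ → ℂ} {A : ℝ} (ha : ∀ n, ‖a n‖ ≤ A) {t : ℂ} (ht : ‖t‖ ≤ 1 / 2) (i : ℕ) :
    ‖quo a t i‖ ≤ 2 * A := ev_norm_le (fun _ => ha _) ht

theorem quo_succ {a : ℕ → ℂ} {A : ℝ} (ha : ∀ n, ‖a n‖ ≤ A) {t : ℂ} (ht : ‖t‖ ≤ 1 / 2) (i : ℕ) :
    quo a t i = a (i + 1) + t * quo a t (i + 1) := by
  unfold quo
  rw [ev_succ (a := fun j => a (i + 1 + j)) (fun _ => ha _) ht]
  have : (fun n => a (i + 1 + (n + 1))) = fun n => a (i + 1 + 1 + n) := by
    funext n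
    congr 1
    ring
  rw [this, add_zero]

theorem ev_sub {a : ℕ → ℂ} {A : ℝ} (ha : ∀ n, ‖a n‖ ≤ A) {t z : ℂ} (ht : ‖t‖ ≤ 1 / 2)
    (hz : ‖z‖ ≤ 1 / 2) : ev a z - ev a t = (z - t) * ev (quo a t) z := by
  have hq := quo_bound ha ht
  have h1 := ev_succ ha ht
  have h2 : ev (fun n => a (n + 1)) t = quo a t 0 := by
    unfold quo
    congr 1
    funext n
    congr 1
    ring
  have h3 := ev_succ ha hz
  have h4 := ev_succ hq hz
  -- the shifted series
  have h5 := ev_hasSum (a := fun n => a (n + 1)) (fun n => ha (n + 1)) hz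
  have h6 := ev_hasSum hq hz
  have h7 := (ev_hasSum (a := fun n => quo a t (n + 1)) (fun n => hq (n + 1)) hz).mul_left t
  have h8 : (fun n => quo a t n * z ^ n) = fun n => a (n + 1) * z ^ n +
      t * (quo a t (n + 1) * z ^ n) := by
    funext n
    rw [quo_succ ha ht n]
    ring
  rw [h8] at h6
  have h9 := h6.unique (h5.add h7)
  rw [h1, h2, h3, h9]
  have h10 : ev (quo a t) z = quo a t 0 + z * ev (fun n => quo a t (n + 1)) z := h4
  rw [h9] at h10
  linear_combination t * h10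

/-- **Sublevel sets of one power series.** -/
theorem sublevel_one (k : ℕ) : ∀ A α : ℝ, 0 < A → 0 < α → ∃ ρ C : ℝ, 0 < ρ ∧ ρ ≤ 1 / 2 ∧ 0 < C ∧
    ∀ a : ℕ → ℂ, (∀ n, ‖a n‖ ≤ A) → α ≤ ‖a k‖ → ∀ θ : ℝ, 0 < θ → θ ≤ 1 →
      ∃ S : Finset ℂ, S.card ≤ k + 1 ∧ ∀ z : ℂ, ‖z‖ ≤ ρ → ‖ev a z‖ ≤ θ ^ (k + 1) →
        ∃ s ∈ S, ‖z - s‖ ≤ C * θ := by
  induction k with
  | zero =>
    intro A α hA hα
    refine ⟨min (1 / 2) (α / (4 * A)), 2 / α, by positivity, min_le_left _ _, by positivity, ?_⟩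
    intro a ha hk θ hθ hθ1
    refine ⟨{0}, by simp, fun z hz hF => ⟨0, Finset.mem_singleton_self 0, ?_⟩⟩
    have hz1 : ‖z‖ ≤ 1 / 2 := hz.trans (min_le_left _ _)
    have hz2 : ‖z‖ ≤ α / (4 * A) := hz.trans (min_le_right _ _)
    have h1 := ev_succ ha hz1
    have h2 := ev_norm_le (a := fun n => a (n + 1)) (fun n => ha (n + 1)) hz1
    have h3 : ‖z * ev (fun n => a (n + 1)) z‖ ≤ α / 2 := by
      rw [norm_mul]
      calc ‖z‖ * ‖ev (fun n => a (n + 1)) z‖ ≤ α / (4 * A) * (2 * A) :=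
            mul_le_mul hz2 h2 (norm_nonneg _) (by positivity)
        _ = α / 2 := by
            field_simp
            ring
    have h4 : α / 2 ≤ ‖ev a z‖ := by
      have h5 : ‖a 0‖ ≤ ‖ev a z‖ + ‖z * ev (fun n => a (n + 1)) z‖ := by
        have h6 : a 0 = ev a z - z * ev (fun n => a (n + 1)) z := by
          rw [h1]
          ring
        calc ‖a 0‖ = ‖ev a z - z * ev (fun n => a (n + 1)) z‖ := by rw [← h6]
          _ ≤ _ := norm_sub_le _ _
      linarith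
    rw [zero_add, pow_one] at hF
    rw [sub_zero]
    calc ‖z‖ ≤ 1 := by linarith
      _ = 2 / α * (α / 2) := by field_simp
      _ ≤ 2 / α * θ := by
          apply mul_le_mul_of_nonneg_left _ (by positivity)
          linarith
  | succ k ih =>
    intro A α hA hα
    obtain ⟨ρ, C, hρ, hρ2, hC, h⟩ := ih (2 * A) (α / 2) (by positivity) (by positivity)
    refine ⟨min ρ (α / (4 * A)), max C 2, by positivity, (min_le_left _ _).trans hρ2,
      by positivity, ?_⟩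
    intro a ha hk θ hθ hθ1
    by_cases hex : ∃ t : ℂ, ‖t‖ ≤ min ρ (α / (4 * A)) ∧ ‖ev a t‖ ≤ θ ^ (k + 1 + 1)
    · obtain ⟨t, ht, hFt⟩ := hex
      have ht1 : ‖t‖ ≤ 1 / 2 := (ht.trans (min_le_left _ _)).trans hρ2
      have ht2 : ‖t‖ ≤ α / (4 * A) := ht.trans (min_le_right _ _)
      have hqk : α / 2 ≤ ‖quo a t k‖ := by
        have h1 := quo_succ ha ht1 k
        have h2 : ‖t * quo a t (k + 1)‖ ≤ α / 2 := by
          rw [norm_mul]
          calc ‖t‖ * ‖quo a t (k + 1)‖ ≤ α / (4 * A) * (2 * A) :=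
                mul_le_mul ht2 (quo_bound ha ht1 _) (norm_nonneg _) (by positivity)
            _ = α / 2 := by
                field_simp
                ring
        have h3 : a (k + 1) = quo a t k - t * quo a t (k + 1) := by
          rw [h1]
          ring
        have h4 := norm_sub_le (quo a t k) (t * quo a t (k + 1))
        rw [← h3] at h4
        linarith
      obtain ⟨S, hS, hcov⟩ := h (quo a t) (quo_bound ha ht1) hqk θ hθ hθ1
      refine ⟨insert t S, (Finset.card_insert_le _ _).trans (by omega), fun z hz hF => ?_⟩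
      by_cases hzt : ‖z - t‖ ≤ 2 * θ
      · refine ⟨t, Finset.mem_insert_self _ _, hzt.trans ?_⟩
        exact mul_le_mul_of_nonneg_right (le_max_right _ _) hθ.le
      · push Not at hzt
        have hz1 : ‖z‖ ≤ 1 / 2 := (hz.trans (min_le_left _ _)).trans hρ2
        have h1 : ‖z - t‖ * ‖ev (quo a t) z‖ ≤ 2 * θ ^ (k + 1 + 1) := by
          rw [← norm_mul, ← ev_sub ha ht1 hz1]
          refine (norm_sub_le _ _).trans ?_
          linarith
        have h2 : ‖ev (quo a t) z‖ ≤ θ ^ (k + 1) := by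
          by_contra hcon
          push Not at hcon
          have h3 : 2 * θ * θ ^ (k + 1) < ‖z - t‖ * ‖ev (quo a t) z‖ :=
            mul_lt_mul'' hzt hcon (by positivity) (by positivity)
          have h4 : 2 * θ * θ ^ (k + 1) = 2 * θ ^ (k + 1 + 1) := by ring
          linarith
        obtain ⟨s, hs, hzs⟩ := hcov z (hz.trans (min_le_left _ _)) h2
        refine ⟨s, Finset.mem_insert_of_mem hs, hzs.trans ?_⟩
        exact mul_le_mul_of_nonneg_right (le_max_left _ _) hθ.le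
    · push Not at hex
      refine ⟨∅, by simp, fun z hz hF => ?_⟩
      exact absurd hF (not_le.2 (hex z hz))

/-- Independent sequences: uniformly in the coefficients, one of the first entries is not small. -/
theorem exists_entry {ι : Type} [Fintype ι] (a : ι → ℕ → ℂ)
    (hind : ∀ c : ι → ℂ, c ≠ 0 → ∃ n, ∑ i, c i * a i n ≠ 0) :
    ∃ (k : ℕ) (α : ℝ), 0 < α ∧ ∀ c : ι → ℂ, 1 ≤ ‖c‖ → ∃ n ≤ k, α ≤ ‖∑ i, c i * a i n‖ := by
  classical
  -- the case of norm one
  have key : ∃ (k : ℕ) (α : ℝ), 0 < α ∧ ∀ c : ι → ℂ, ‖c‖ = 1 →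
      ∃ n ≤ k, α ≤ ‖∑ i, c i * a i n‖ := by
    have hcomp : IsCompact (Metric.sphere (0 : ι → ℂ) 1) := isCompact_sphere _ _
    have hcont : ∀ n : ℕ, Continuous fun c : ι → ℂ => ‖∑ i, c i * a i n‖ := fun n => by fun_prop
    obtain ⟨T, hT⟩ := hcomp.elim_finite_subcover
      (fun n : ℕ => {c : ι → ℂ | 0 < ‖∑ i, c i * a i n‖})
      (fun n => isOpen_lt continuous_const (hcont n)) (by
        intro c hc
        have hc0 : c ≠ 0 := by
          intro h
          rw [h, mem_sphere_zero_iff_norm, norm_zero] at hc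
          exact zero_ne_one hc
        obtain ⟨n, hn⟩ := hind c hc0
        exact Set.mem_iUnion.2 ⟨n, norm_pos_iff.2 hn⟩)
    set k : ℕ := T.sup id with hk
    have hcont2 : Continuous fun c : ι → ℂ => ∑ n ∈ Finset.range (k + 1), ‖∑ i, c i * a i n‖ :=
      continuous_finsetSum _ fun n _ => hcont n
    have hpos : ∀ c ∈ Metric.sphere (0 : ι → ℂ) 1,
        0 < ∑ n ∈ Finset.range (k + 1), ‖∑ i, c i * a i n‖ := by
      intro c hc
      obtain ⟨n, hn⟩ := Set.mem_iUnion.1 (hT hc)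
      obtain ⟨hn1, hn2⟩ := Set.mem_iUnion.1 hn
      have hnk : n ≤ k := Finset.le_sup (f := id) hn1
      refine lt_of_lt_of_le hn2 ?_
      exact Finset.single_le_sum (f := fun n => ‖∑ i, c i * a i n‖) (fun _ _ => norm_nonneg _)
        (Finset.mem_range.2 (by omega))
    by_cases hne : (Metric.sphere (0 : ι → ℂ) 1).Nonempty
    · obtain ⟨c0, hc0, hmin⟩ := hcomp.exists_isMinOn hne hcont2.continuousOn
      set m : ℝ := ∑ n ∈ Finset.range (k + 1), ‖∑ i, c0 i * a i n‖ with hm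
      have hmpos : 0 < m := hpos c0 hc0
      refine ⟨k, m / (k + 1), by positivity, fun c hc => ?_⟩
      by_contra hcon
      push Not at hcon
      have h1 : m ≤ ∑ n ∈ Finset.range (k + 1), ‖∑ i, c i * a i n‖ :=
        hmin (mem_sphere_zero_iff_norm.2 hc)
      have h2 : ∑ n ∈ Finset.range (k + 1), ‖∑ i, c i * a i n‖ <
          ∑ _n ∈ Finset.range (k + 1), m / (k + 1) := by
        refine Finset.sum_lt_sum_of_nonempty ⟨0, Finset.mem_range.2 (by omega)⟩ fun n hn => ?_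
        exact hcon n (by have := Finset.mem_range.1 hn; omega)
      rw [Finset.sum_const, Finset.card_range, nsmul_eq_mul] at h2
      have h3 : ((k + 1 : ℕ) : ℝ) * (m / (k + 1)) = m := by
        push_cast
        field_simp
      linarith
    · refine ⟨0, 1, one_pos, fun c hc => ?_⟩
      exact absurd ⟨c, mem_sphere_zero_iff_norm.2 hc⟩ hne
  obtain ⟨k, α, hα, h⟩ := key
  refine ⟨k, α, hα, fun c hc => ?_⟩
  have hcpos : 0 < ‖c‖ := by linarith
  obtain ⟨n, hn, h1⟩ := h (((‖c‖⁻¹ : ℝ) : ℂ) • c) (by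
    rw [norm_smul, Complex.norm_real, norm_inv, norm_norm]
    exact inv_mul_cancel₀ hcpos.ne')
  refine ⟨n, hn, ?_⟩
  have h2 : ∑ i, (((‖c‖⁻¹ : ℝ) : ℂ) • c) i * a i n = ((‖c‖⁻¹ : ℝ) : ℂ) * ∑ i, c i * a i n := by
    rw [Finset.mul_sum]
    exact Finset.sum_congr rfl fun i _ => by rw [Pi.smul_apply, smul_eq_mul, mul_assoc]
  rw [h2, norm_mul, Complex.norm_real, norm_inv, norm_norm] at h1
  refine h1.trans ?_
  exact mul_le_of_le_one_left (norm_nonneg _) (inv_le_one_of_one_le₀ hc)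

/-- **Sublevel sets of a family.** For finitely many independent power series with bounded
coefficients the set where a combination with a coefficient of absolute value at least `1` is at most
`θ ^ (k + 1)` is covered by `k + 1` discs of radius `C θ`. -/
theorem sublevel_family {ι : Type} [Fintype ι] (a : ι → ℕ → ℂ) (A : ℝ) (hA : 0 < A)
    (ha : ∀ i n, ‖a i n‖ ≤ A) (hind : ∀ c : ι → ℂ, c ≠ 0 → ∃ n, ∑ i, c i * a i n ≠ 0) :
    ∃ (k : ℕ) (ρ C : ℝ), 0 < ρ ∧ ρ ≤ 1 / 2 ∧ 0 < C ∧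
      ∀ c : ι → ℂ, 1 ≤ ‖c‖ → ∀ θ : ℝ, 0 < θ → θ ≤ 1 →
        ∃ S : Finset ℂ, S.card ≤ k + 1 ∧ ∀ z : ℂ, ‖z‖ ≤ ρ →
          ‖∑ i, c i * ev (a i) z‖ ≤ θ ^ (k + 1) → ∃ s ∈ S, ‖z - s‖ ≤ C * θ := by
  classical
  obtain ⟨k, α, hα, hk⟩ := exists_entry a hind
  set B : ℝ := Fintype.card ι * A + 1 with hB
  have hBpos : 0 < B := by positivity
  choose ρ C h1 h2 h3 h4 using fun n : ℕ => sublevel_one n B α hBpos hα
  have hrne : (Finset.range (k + 1)).Nonempty := ⟨0, Finset.mem_range.2 (by omega)⟩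
  set ρ0 : ℝ := (Finset.range (k + 1)).inf' hrne ρ with hρ0
  set C0 : ℝ := (Finset.range (k + 1)).sup' hrne C with hC0
  have hρle : ∀ n ≤ k, ρ0 ≤ ρ n := fun n hn =>
    Finset.inf'_le _ (Finset.mem_range.2 (by omega))
  have hCle : ∀ n ≤ k, C n ≤ C0 := fun n hn =>
    Finset.le_sup' C (Finset.mem_range.2 (by omega))
  refine ⟨k, ρ0, C0, ?_, (hρle 0 (Nat.zero_le _)).trans (h2 0), (h3 0).trans_le
    (hCle 0 (Nat.zero_le _)), ?_⟩
  · exact (Finset.lt_inf'_iff hrne).2 fun n _ => h1 n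
  intro c hc θ hθ hθ1
  have hcpos : 0 < ‖c‖ := by linarith
  -- normalise
  set c' : ι → ℂ := ((‖c‖⁻¹ : ℝ) : ℂ) • c with hc'
  have hc'1 : ‖c'‖ = 1 := by
    rw [hc', norm_smul, Complex.norm_real, norm_inv, norm_norm]
    exact inv_mul_cancel₀ hcpos.ne'
  obtain ⟨n, hn, hna⟩ := hk c' hc'1.ge
  set b : ℕ → ℂ := fun m => ∑ i, c' i * a i m with hb
  have hbB : ∀ m, ‖b m‖ ≤ B := by
    intro m
    calc ‖b m‖ ≤ ∑ i, ‖c' i * a i m‖ := norm_sum_le _ _
      _ ≤ ∑ _i : ι, 1 * A := by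
          refine Finset.sum_le_sum fun i _ => ?_
          rw [norm_mul]
          exact mul_le_mul ((norm_le_pi_norm c' i).trans hc'1.le) (ha i m) (norm_nonneg _)
            (by norm_num)
      _ = Fintype.card ι * A := by
          rw [Finset.sum_const, Finset.card_univ, nsmul_eq_mul, one_mul]
      _ ≤ B := by
          rw [hB]
          linarith
  obtain ⟨S, hS, hcov⟩ := h4 n b hbB hna θ hθ hθ1
  refine ⟨S, hS.trans (by omega), fun z hz hF => ?_⟩
  have hz1 : ‖z‖ ≤ 1 / 2 := (hz.trans (hρle n hn)).trans (h2 n)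
  have hev : ev b z = ((‖c‖⁻¹ : ℝ) : ℂ) * ∑ i, c i * ev (a i) z := by
    have h5 : HasSum (fun m => b m * z ^ m) (∑ i, c' i * ev (a i) z) := by
      have h6 := hasSum_sum (f := fun i m => c' i * (a i m * z ^ m)) (s := Finset.univ)
        fun i _ => (ev_hasSum (ha i) hz1).mul_left (c' i)
      have h7 : (fun m => b m * z ^ m) = fun m => ∑ i, c' i * (a i m * z ^ m) := by
        funext m
        rw [hb, Finset.sum_mul]
        exact Finset.sum_congr rfl fun i _ => by ring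
      rw [h7]
      exact h6
    rw [(ev_hasSum hbB hz1).unique h5, Finset.mul_sum]
    refine Finset.sum_congr rfl fun i _ => ?_
    rw [hc', Pi.smul_apply, smul_eq_mul, mul_assoc]
  have hFb : ‖ev b z‖ ≤ θ ^ (n + 1) := by
    rw [hev, norm_mul, Complex.norm_real, norm_inv, norm_norm]
    calc ‖c‖⁻¹ * ‖∑ i, c i * ev (a i) z‖ ≤ 1 * θ ^ (k + 1) :=
          mul_le_mul (inv_le_one_of_one_le₀ hc) hF (norm_nonneg _) (by norm_num)
      _ ≤ θ ^ (n + 1) := by
          rw [one_mul]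
          exact pow_le_pow_of_le_one hθ.le hθ1 (by omega)
  obtain ⟨s, hs, h5⟩ := hcov z (hz.trans (hρle n hn)) hFb
  exact ⟨s, hs, h5.trans (mul_le_mul_of_nonneg_right (hCle n hn) hθ.le)⟩

end Pool.Agent.Flat3
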