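import Pool.Agent.Flat3.BPa
import Pool.Agent.Flat3.Sublevel

set_option autoImplicit false

/-! Bombieri-Pila for two holomorphic functions of one variable, near-rational values, clusters. -/

namespace Pool.Agent.Flat3

open Real Metric

private theorem bp_indep (t0 : ℂ) (R R' r0 : ℝ) (hr0 : 0 < r0) (hrR : r0 < R') (hR' : R' ≤ R)
    (f1 f2 : ℂ → ℂ) (h1 : DifferentiableOn ℂ f1 (ball t0 R)) (h2 : DifferentiableOn ℂ f2 (ball t0 R))
    (d : ℕ) (c : Fin d × Fin d → ℂ)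
    (hex : ∃ t ∈ ball t0 R, ∑ i, c i * (f1 t ^ (i.1 : ℕ) * f2 t ^ (i.2 : ℕ)) ≠ 0) :
    ∃ n, ∑ i, c i * (tco (fun t => f1 t ^ (i.1 : ℕ) * f2 t ^ (i.2 : ℕ)) t0 n * (r0 : ℂ) ^ n) ≠ 0 := by
  by_contra hcon
  push Not at hcon
  obtain ⟨t, ht, hne⟩ := hex
  apply hne
  set F : ℂ → ℂ := fun t => ∑ i, c i * (f1 t ^ (i.1 : ℕ) * f2 t ^ (i.2 : ℕ)) with hF
  have hFd : DifferentiableOn ℂ F (ball t0 R) := by
    rw [hF]
    exact DifferentiableOn.fun_sum fun i _ => ((h1.pow _).mul (h2.pow _)).const_mul _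
  have hFa : AnalyticOnNhd ℂ F (ball t0 R) := hFd.analyticOnNhd isOpen_ball
  have hzero : ∀ w : ℂ, ‖w‖ < r0 → F (t0 + w) = 0 := by
    intro w hw
    have hs : HasSum (fun n => (∑ i, c i *
        (tco (fun t => f1 t ^ (i.1 : ℕ) * f2 t ^ (i.2 : ℕ)) t0 n * (r0 : ℂ) ^ n)) *
        (w / r0) ^ n) (F (t0 + w)) := by
      have h3 : HasSum (fun n => ∑ i, c i *
          (tco (fun t => f1 t ^ (i.1 : ℕ) * f2 t ^ (i.2 : ℕ)) t0 n * w ^ n)) (F (t0 + w)) := by
        refine hasSum_sum fun i _ => HasSum.mul_left _ ?_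
        exact tco_hasSum (R := R) (f := fun t => f1 t ^ (i.1 : ℕ) * f2 t ^ (i.2 : ℕ))
            ((h1.pow _).mul (h2.pow _)) (by linarith)
      have e : (fun n => (∑ i, c i *
          (tco (fun t => f1 t ^ (i.1 : ℕ) * f2 t ^ (i.2 : ℕ)) t0 n * (r0 : ℂ) ^ n)) *
          (w / r0) ^ n) = fun n => ∑ i, c i *
          (tco (fun t => f1 t ^ (i.1 : ℕ) * f2 t ^ (i.2 : ℕ)) t0 n * w ^ n) := by
        funext n
        rw [Finset.sum_mul]
        refine Finset.sum_congr rfl fun i _ => ?_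
        have hr : (r0 : ℂ) ≠ 0 := by exact_mod_cast hr0.ne'
        rw [div_pow]
        field_simp
      rw [e]
      exact h3
    simp_rw [hcon, zero_mul] at hs
    exact hs.unique hasSum_zero
  have hev : F =ᶠ[nhds t0] 0 := by
    filter_upwards [ball_mem_nhds t0 hr0] with z hz
    have := hzero (z - t0) (by rw [← dist_eq_norm]; exact hz)
    rw [add_sub_cancel] at this
    exact this
  exact hFa.eqOn_zero_of_preconnected_of_eventuallyEq_zero (convex_ball t0 R).isPreconnected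
    (mem_ball_self (by linarith)) hev ht

/-- **Bombieri-Pila, cluster form.** Let `f1`, `f2` be holomorphic near `t0` and algebraically
independent. The points near `t0` at which both functions are `δ`-close to rational numbers of
denominator `N` lie in at most `C N ^ ε` discs of radius `C θ` as soon as
`C N ^ E δ ≤ θ ^ (k + 1)`. -/
theorem bp_local (t0 : ℂ) (R : ℝ) (hR : 0 < R) (f1 f2 : ℂ → ℂ)
    (h1 : DifferentiableOn ℂ f1 (ball t0 R)) (h2 : DifferentiableOn ℂ f2 (ball t0 R))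
    (hind : ∀ (d : ℕ) (c : Fin d × Fin d → ℂ), c ≠ 0 →
      ∃ t ∈ ball t0 R, ∑ i, c i * (f1 t ^ (i.1 : ℕ) * f2 t ^ (i.2 : ℕ)) ≠ 0)
    (ε : ℝ) (hε : 0 < ε) :
    ∃ (ρ C : ℝ) (k E : ℕ), 0 < ρ ∧ 0 < C ∧ ∀ (N : ℕ) (δ θ : ℝ), 1 ≤ N → 0 ≤ δ → 0 < θ → θ ≤ 1 →
      C * (N : ℝ) ^ E * δ ≤ θ ^ (k + 1) → ∃ S : Finset ℂ, (S.card : ℝ) ≤ C * (N : ℝ) ^ ε ∧
        ∀ t : ℂ, ‖t - t0‖ ≤ ρ → (∃ a b : ℤ, ‖f1 t - a / N‖ ≤ δ ∧ ‖f2 t - b / N‖ ≤ δ) →
          ∃ s ∈ S, ‖t - s‖ ≤ C * θ := by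
  classical
  set R' : ℝ := R / 2 with hR'
  have hR'0 : 0 < R' := by positivity
  have hR'R : R' < R := by rw [hR']; linarith
  -- a common bound
  have hcl : closedBall t0 R' ⊆ ball t0 R := closedBall_subset_ball hR'R
  obtain ⟨B1, hB1⟩ := (isCompact_closedBall t0 R').exists_bound_of_continuousOn
    (h1.continuousOn.mono hcl)
  obtain ⟨B2, hB2⟩ := (isCompact_closedBall t0 R').exists_bound_of_continuousOn
    (h2.continuousOn.mono hcl)
  set B : ℝ := max 1 (max B1 B2) with hB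
  have hBone : 1 ≤ B := le_max_left _ _
  have hb1 : ∀ t ∈ ball t0 R', ‖f1 t‖ ≤ B := fun t ht =>
    (hB1 t (ball_subset_closedBall ht)).trans ((le_max_left _ _).trans (le_max_right _ _))
  have hb2 : ∀ t ∈ ball t0 R', ‖f2 t‖ ≤ B := fun t ht =>
    (hB2 t (ball_subset_closedBall ht)).trans ((le_max_right _ _).trans (le_max_right _ _))
  have g1 : DifferentiableOn ℂ f1 (ball t0 R') := h1.mono (ball_subset_ball hR'R.le)
  have g2 : DifferentiableOn ℂ f2 (ball t0 R') := h2.mono (ball_subset_ball hR'R.le)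
  -- the degree
  set m : ℕ := ⌈16 / ε⌉₊ with hm
  have hm1 : 1 ≤ m := Nat.one_le_iff_ne_zero.2 (by
    rw [hm]
    exact (Nat.ceil_pos.2 (by positivity)).ne')
  have rm : (1 : ℝ) ≤ m := by exact_mod_cast hm1
  have hmε : 16 / (m : ℝ) ≤ ε := by
    have h3 : 16 / ε ≤ m := Nat.le_ceil _
    rw [div_le_iff₀ (by linarith)]
    rw [div_le_iff₀ hε] at h3
    linarith
  -- the power series at t0
  set r0 : ℝ := R' / 2 with hr0
  have hr00 : 0 < r0 := by positivity
  set φ : Fin (2 * m) × Fin (2 * m) → ℂ → ℂ :=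
    fun i t => f1 t ^ (i.1 : ℕ) * f2 t ^ (i.2 : ℕ) with hφ
  have hφd : ∀ i, DifferentiableOn ℂ (φ i) (ball t0 R') := fun i => (g1.pow _).mul (g2.pow _)
  set a : Fin (2 * m) × Fin (2 * m) → ℕ → ℂ := fun i n => tco (φ i) t0 n * (r0 : ℂ) ^ n with ha
  set A : ℝ := B ^ (4 * m) with hA
  have hA1 : 1 ≤ A := one_le_pow₀ hBone
  have haA : ∀ i n, ‖a i n‖ ≤ A := by
    intro i n
    rw [ha]
    dsimp only
    rw [norm_mul, norm_pow, Complex.norm_real, Real.norm_eq_abs, abs_of_pos hr00]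
    refine tco_bound (hφd i) hr00 (by rw [hr0]; linarith) ?_ n
    intro t ht
    rw [hφ]
    dsimp only
    rw [norm_mul, norm_pow, norm_pow]
    calc ‖f1 t‖ ^ (i.1 : ℕ) * ‖f2 t‖ ^ (i.2 : ℕ) ≤ B ^ (i.1 : ℕ) * B ^ (i.2 : ℕ) := by
          have := hb1 t ht
          have := hb2 t ht
          gcongr
      _ = B ^ ((i.1 : ℕ) + i.2) := by rw [pow_add]
      _ ≤ A := pow_le_pow_right₀ hBone (by
          have := i.1.2
          have := i.2.2
          omega)
  obtain ⟨k, ρ1, C1, hρ1, hρ12, hC1, hsub⟩ := sublevel_family a A (by linarith) haA (fun c hc =>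
    bp_indep t0 R R' r0 hr00 (by rw [hr0]; linarith) hR'R.le f1 f2 h1 h2 (2 * m) c
      (hind (2 * m) c hc))
  obtain ⟨C2, hC2, hdisc⟩ := bp_disc m hm1 B hBone
  set r : ℝ := R' / 4 with hr
  have hrpos : 0 < r := by positivity
  set ρ : ℝ := min (r0 * ρ1) (r / 2) with hρ
  have hρpos : 0 < ρ := by positivity
  have hρr : ρ ≤ r / 2 := min_le_right _ _
  set C : ℝ := max (49 * C2 ^ 2 * (k + 1)) (max C2 (r0 * C1)) with hC
  have hCC2 : C2 ≤ C := (le_max_left _ _).trans (le_max_right _ _)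
  have hCC1 : r0 * C1 ≤ C := (le_max_right _ _).trans (le_max_right _ _)
  have hCpos : 0 < C := by linarith
  refine ⟨ρ, C, k, 8 * m, hρpos, hCpos, ?_⟩
  intro N δ θ hN hδ hθ hθ1 hsmall
  have rN : (1 : ℝ) ≤ N := by exact_mod_cast hN
  have hN8 : (1 : ℝ) ≤ (N : ℝ) ^ ((8 : ℝ) / m) := Real.one_le_rpow rN (by positivity)
  set l : ℝ := r / (2 * C2 * (N : ℝ) ^ ((8 : ℝ) / m)) with hl
  have hlpos : 0 < l := by positivity
  have hlr : C2 * (N : ℝ) ^ ((8 : ℝ) / m) * l ≤ r := by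
    have : C2 * (N : ℝ) ^ ((8 : ℝ) / m) * l = r / 2 := by
      rw [hl]
      field_simp
    rw [this]
    linarith
  have hlr2 : l ≤ r / 2 := by
    have h3 : 1 ≤ C2 * (N : ℝ) ^ ((8 : ℝ) / m) := one_le_mul_of_one_le_of_one_le hC2 hN8
    rw [hl]
    apply div_le_div_of_nonneg_left hrpos.le (by norm_num)
    linarith
  have hs1 : C2 * (N : ℝ) ^ (8 * m) * δ ≤ θ ^ (k + 1) := by
    refine le_trans ?_ hsmall
    gcongr
  have hθk : θ ^ (k + 1) ≤ 1 := pow_le_one₀ hθ.le hθ1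
  -- the grid
  have hgrid : ∀ q : ℤ × ℤ, ∃ S' : Finset ℂ, S'.card ≤ k + 1 ∧ ∀ t : ℂ,
      ‖t - (t0 + l * (q.1 + q.2 * Complex.I))‖ ≤ l → ‖t - t0‖ ≤ ρ →
      (∃ a b : ℤ, ‖f1 t - a / N‖ ≤ δ ∧ ‖f2 t - b / N‖ ≤ δ) → ∃ s ∈ S', ‖t - s‖ ≤ C * θ := by
    intro q
    set t1 : ℂ := t0 + l * (q.1 + q.2 * Complex.I) with ht1
    by_cases hfar : ‖t1 - t0‖ ≤ ρ + l
    · have hsubset : ball t1 (2 * r) ⊆ ball t0 R' := by
        intro z hz
        rw [mem_ball, dist_eq_norm] at hz ⊢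
        have h3 : z - t0 = (z - t1) + (t1 - t0) := by ring
        rw [h3]
        refine lt_of_le_of_lt (norm_add_le _ _) ?_
        have : R' = 4 * r := by rw [hr]; ring
        linarith
      obtain ⟨p, hp0, hp⟩ := hdisc f1 f2 t1 r hrpos (g1.mono hsubset) (g2.mono hsubset)
        (fun t ht => hb1 t (hsubset ht)) (fun t ht => hb2 t (hsubset ht)) N δ l hN hδ
        (hs1.trans hθk) hlr
      have hpn : 1 ≤ ‖(fun i => (p i : ℂ) : Fin (2 * m) × Fin (2 * m) → ℂ)‖ := by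
        obtain ⟨i, hi⟩ := Function.ne_iff.1 hp0
        refine le_trans ?_ (norm_le_pi_norm _ i)
        rw [Complex.norm_intCast]
        have h3 : (1 : ℤ) ≤ |p i| := Int.one_le_abs hi
        exact_mod_cast h3
      obtain ⟨S, hS, hcov⟩ := hsub _ hpn θ hθ hθ1
      refine ⟨S.image (fun s => t0 + r0 * s), (Finset.card_image_le).trans hS, ?_⟩
      intro t htl htρ hab
      have hz : ‖(t - t0) / r0‖ ≤ ρ1 := by
        rw [norm_div, Complex.norm_real, Real.norm_eq_abs, abs_of_pos hr00, div_le_iff₀ hr00,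
          mul_comm]
        exact htρ.trans (min_le_left _ _)
      have hz2 : ‖(t - t0) / r0‖ ≤ 1 / 2 := hz.trans hρ12
      have hr0C : (r0 : ℂ) ≠ 0 := by exact_mod_cast hr00.ne'
      have hev : ∀ i, ev (a i) ((t - t0) / r0) = φ i t := by
        intro i
        have h3 := ev_hasSum (haA i) hz2
        have h4 := tco_hasSum (hφd i) (w := t - t0) (by
          have : ρ < R' := by
            have : R' = 4 * r := by rw [hr]; ring
            linarith
          linarith)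
        rw [add_sub_cancel] at h4
        have h5 : (fun n => a i n * ((t - t0) / r0) ^ n) = fun n => tco (φ i) t0 n * (t - t0) ^ n := by
          funext n
          rw [ha]
          dsimp only
          rw [div_pow]
          field_simp
        rw [h5] at h3
        exact h3.unique h4
      have hle := hp t htl hab
      have hle2 : ‖∑ i, (p i : ℂ) * ev (a i) ((t - t0) / r0)‖ ≤ θ ^ (k + 1) := by
        have h3 : ∑ i, (p i : ℂ) * ev (a i) ((t - t0) / r0) =
            ∑ i, (p i : ℂ) * (f1 t ^ (i.1 : ℕ) * f2 t ^ (i.2 : ℕ)) :=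
          Finset.sum_congr rfl fun i _ => by rw [hev]
        rw [h3]
        refine hle.trans (le_trans ?_ hs1)
        have h4 : (N : ℝ) ^ (4 * m) ≤ (N : ℝ) ^ (8 * m) := pow_le_pow_right₀ rN (by omega)
        gcongr
      obtain ⟨s, hs, hds⟩ := hcov _ hz hle2
      refine ⟨t0 + r0 * s, Finset.mem_image_of_mem _ hs, ?_⟩
      have h3 : t - (t0 + r0 * s) = r0 * ((t - t0) / r0 - s) := by
        field_simp
        ring
      rw [h3, norm_mul, Complex.norm_real, Real.norm_eq_abs, abs_of_pos hr00]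
      calc r0 * ‖(t - t0) / r0 - s‖ ≤ r0 * (C1 * θ) := mul_le_mul_of_nonneg_left hds hr00.le
        _ = r0 * C1 * θ := by ring
        _ ≤ C * θ := mul_le_mul_of_nonneg_right hCC1 hθ.le
    · refine ⟨∅, by simp, fun t htl htρ _ => absurd ?_ hfar⟩
      have h3 : t1 - t0 = (t - t0) - (t - t1) := by ring
      rw [h3]
      exact (norm_sub_le _ _).trans (by linarith)
  choose S' hS'card hS' using hgrid
  set K : ℕ := ⌈ρ / l⌉₊ + 1 with hK
  set Q : Finset (ℤ × ℤ) := Finset.Icc (-(K : ℤ)) K ×ˢ Finset.Icc (-(K : ℤ)) K with hQ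
  refine ⟨Q.biUnion S', ?_, ?_⟩
  · -- the number
    have h3 : (Q.biUnion S').card ≤ Q.card * (k + 1) :=
      Finset.card_biUnion_le_card_mul _ _ _ fun q _ => hS'card q
    have h4 : Q.card = (2 * K + 1) ^ 2 := by
      rw [hQ, Finset.card_product, Int.card_Icc]
      have : ((K : ℤ) + 1 - -(K : ℤ)).toNat = 2 * K + 1 := by omega
      rw [this]
      ring
    have h5 : ((2 * K + 1 : ℕ) : ℝ) ≤ 7 * (C2 * (N : ℝ) ^ ((8 : ℝ) / m)) := by
      have h6 : (K : ℝ) ≤ ρ / l + 2 := by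
        rw [hK]
        push_cast
        have := Nat.ceil_lt_add_one (show 0 ≤ ρ / l by positivity)
        linarith
      have h7 : ρ / l ≤ C2 * (N : ℝ) ^ ((8 : ℝ) / m) := by
        rw [div_le_iff₀ hlpos, hl]
        refine hρr.trans (le_of_eq ?_)
        field_simp
      have h8 : 1 ≤ C2 * (N : ℝ) ^ ((8 : ℝ) / m) := one_le_mul_of_one_le_of_one_le hC2 hN8
      push_cast
      linarith
    have h6 : ((N : ℝ) ^ ((8 : ℝ) / m)) ^ 2 ≤ (N : ℝ) ^ ε := by
      rw [← Real.rpow_natCast, ← Real.rpow_mul (by linarith)]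
      apply Real.rpow_le_rpow_of_exponent_le rN
      refine le_trans (le_of_eq ?_) hmε
      push_cast
      ring
    calc ((Q.biUnion S').card : ℝ) ≤ ((Q.card * (k + 1) : ℕ) : ℝ) := by exact_mod_cast h3
      _ = ((2 * K + 1 : ℕ) : ℝ) ^ 2 * (k + 1) := by
          rw [h4]
          push_cast
          ring
      _ ≤ (7 * (C2 * (N : ℝ) ^ ((8 : ℝ) / m))) ^ 2 * (k + 1) := by gcongr
      _ = 49 * C2 ^ 2 * (k + 1) * ((N : ℝ) ^ ((8 : ℝ) / m)) ^ 2 := by ring
      _ ≤ 49 * C2 ^ 2 * (k + 1) * (N : ℝ) ^ ε := by gcongr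
      _ ≤ C * (N : ℝ) ^ ε := by
          have : 49 * C2 ^ 2 * (k + 1) ≤ C := le_max_left _ _
          gcongr
  · intro t htρ hab
    set w : ℂ := (t - t0) / l with hw
    have hlC : (l : ℂ) ≠ 0 := by exact_mod_cast hlpos.ne'
    have hwn : ‖w‖ ≤ ρ / l := by
      rw [hw, norm_div, Complex.norm_real, Real.norm_eq_abs, abs_of_pos hlpos]
      gcongr
    have hKle : ρ / l + 1 ≤ K := by
      rw [hK]
      push_cast
      have := Nat.le_ceil (ρ / l)
      linarith
    have hround : ∀ x : ℝ, |x| ≤ ρ / l → round x ∈ Finset.Icc (-(K : ℤ)) K := by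
      intro x hx
      have h3 := abs_le.1 (abs_sub_round x)
      have h4 := abs_le.1 hx
      rw [Finset.mem_Icc]
      constructor
      · have h5 : (-(K : ℤ) : ℝ) ≤ (round x : ℝ) := by
          push_cast
          linarith
        exact_mod_cast h5
      · have h5 : (round x : ℝ) ≤ ((K : ℤ) : ℝ) := by
          push_cast
          linarith
        exact_mod_cast h5
    have hre : |w.re| ≤ ρ / l := (Complex.abs_re_le_norm w).trans hwn
    have him : |w.im| ≤ ρ / l := (Complex.abs_im_le_norm w).trans hwn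
    obtain ⟨s, hs, hds⟩ := hS' (round w.re, round w.im) t (by
      have h3 : t - (t0 + l * (((round w.re : ℤ) : ℂ) + ((round w.im : ℤ) : ℂ) * Complex.I)) =
          l * (w - (((round w.re : ℤ) : ℂ) + ((round w.im : ℤ) : ℂ) * Complex.I)) := by
        rw [hw]
        field_simp
        ring
      rw [h3, norm_mul, Complex.norm_real, Real.norm_eq_abs, abs_of_pos hlpos]
      have h4 : ‖w - (((round w.re : ℤ) : ℂ) + ((round w.im : ℤ) : ℂ) * Complex.I)‖ ≤ 1 := by
        refine (Complex.norm_le_abs_re_add_abs_im _).trans ?_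
        have h5 := abs_sub_round w.re
        have h6 := abs_sub_round w.im
        simp only [Complex.sub_re, Complex.add_re, Complex.intCast_re, Complex.mul_re,
          Complex.I_re, mul_zero, Complex.intCast_im, Complex.I_im, mul_one, sub_self, add_zero,
          Complex.sub_im, Complex.add_im, Complex.mul_im, zero_add]
        linarith
      calc l * ‖w - (((round w.re : ℤ) : ℂ) + ((round w.im : ℤ) : ℂ) * Complex.I)‖ ≤ l * 1 :=
            mul_le_mul_of_nonneg_left h4 hlpos.le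
        _ = l := mul_one l) htρ hab
    exact ⟨s, Finset.mem_biUnion.2 ⟨_, Finset.mem_product.2 ⟨hround _ hre, hround _ him⟩, hs⟩, hds⟩

end Pool.Agent.Flat3
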