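import Pool.Agent.Flat3.TransExp
import Pool.Agent.Flat3.BP

set_option autoImplicit false

/-! Torsion points near an arc: the local count. -/

namespace Pool.Agent.Flat3

open Metric
open scoped ContDiff

/-- The equation of the arc. -/
noncomputable def Gf (a b c : ℤ) (p : ℂ × ℂ) : ℂ :=
  Sf p.1 ^ a * Sf p.2 ^ b * Sf (p.1 + p.2) ^ c - 1

/-- The logarithmic derivative of `Sf`. -/
noncomputable def Tf (u : ℂ) : ℂ := deriv Sf u / Sf u

theorem Gf_swap (a b c : ℤ) (u w : ℂ) : Gf b a c (w, u) = Gf a b c (u, w) := by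
  unfold Gf
  rw [add_comm w u]
  ring

theorem Gf_ne (a b c : ℤ) (ha : a ≠ 0) (hb : b ≠ 0) (p : ℂ × ℂ) (h : Gf a b c p = 0) :
    Sf p.1 ≠ 0 ∧ Sf p.2 ≠ 0 ∧ (c = 0 ∨ Sf (p.1 + p.2) ≠ 0) := by
  unfold Gf at h
  rw [sub_eq_zero] at h
  refine ⟨?_, ?_, ?_⟩
  · intro h0
    rw [h0, zero_zpow a ha, zero_mul, zero_mul] at h
    exact zero_ne_one h
  · intro h0
    rw [h0, zero_zpow b hb, mul_zero, zero_mul] at h
    exact zero_ne_one h
  · by_cases hc : c = 0
    · exact Or.inl hc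
    · right
      intro h0
      rw [h0, zero_zpow c hc, mul_zero] at h
      exact zero_ne_one h

theorem Sf_differentiable : Differentiable ℂ Sf := by
  unfold Sf
  fun_prop

theorem Gf_analytic (a b c : ℤ) (ha : a ≠ 0) (hb : b ≠ 0) (p : ℂ × ℂ) (h : Gf a b c p = 0) :
    AnalyticAt ℂ (Gf a b c) p := by
  obtain ⟨h1, h2, h3⟩ := Gf_ne a b c ha hb p h
  have hS : ∀ z : ℂ, AnalyticAt ℂ Sf z := fun z => Sf_analytic z (Set.mem_univ z)
  have e1 : AnalyticAt ℂ (fun q : ℂ × ℂ => Sf q.1) p := (hS p.1).comp analyticAt_fst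
  have e2 : AnalyticAt ℂ (fun q : ℂ × ℂ => Sf q.2) p := (hS p.2).comp analyticAt_snd
  have e3 : AnalyticAt ℂ (fun q : ℂ × ℂ => Sf (q.1 + q.2)) p :=
    AnalyticAt.comp (g := Sf) (f := fun q : ℂ × ℂ => q.1 + q.2) (hS (p.1 + p.2))
      (analyticAt_fst.add analyticAt_snd)
  have e4 : AnalyticAt ℂ (fun q : ℂ × ℂ => Sf (q.1 + q.2) ^ c) p := by
    rcases h3 with h3 | h3
    · subst h3
      simp only [zpow_zero]
      exact analyticAt_const
    · exact e3.zpow h3
  exact (((e1.zpow h1).mul (e2.zpow h2)).mul e4).sub analyticAt_const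

/-- The partial derivative in the second variable. -/
theorem Gf_deriv (a b c : ℤ) (ha : a ≠ 0) (hb : b ≠ 0) (u w : ℂ) (h : Gf a b c (u, w) = 0) :
    HasDerivAt (fun z => Gf a b c (u, z)) (b * Tf w + c * Tf (u + w)) w := by
  obtain ⟨h1, h2, h3⟩ := Gf_ne a b c ha hb (u, w) h
  simp only at h1 h2 h3
  have hS : ∀ z : ℂ, HasDerivAt Sf (deriv Sf z) z := fun z => (Sf_differentiable z).hasDerivAt
  have d2 : HasDerivAt (fun z => Sf z ^ b) (b * Sf w ^ (b - 1) * deriv Sf w) w :=
    HasDerivAt.comp w (hasDerivAt_zpow b (Sf w) (Or.inl h2)) (hS w)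
  have d3' : HasDerivAt (fun z => Sf (u + z)) (deriv Sf (u + w)) w := by
    exact (hS (u + w)).comp_const_add u w
  have d3 : HasDerivAt (fun z => Sf (u + z) ^ c) (c * Sf (u + w) ^ (c - 1) * deriv Sf (u + w)) w :=
    HasDerivAt.comp (h₂ := fun x : ℂ => x ^ c) (h := fun z => Sf (u + z)) w
      (hasDerivAt_zpow c (Sf (u + w)) (by
      rcases h3 with h3 | h3
      · exact Or.inr h3.ge
      · exact Or.inl h3)) d3'
  have d := ((d2.const_mul (Sf u ^ a)).mul d3).sub_const 1
  have hprod : Sf u ^ a * Sf w ^ b * Sf (u + w) ^ c = 1 := by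
    unfold Gf at h
    exact sub_eq_zero.1 h
  have e : Sf u ^ a * (b * Sf w ^ (b - 1) * deriv Sf w) * Sf (u + w) ^ c +
      Sf u ^ a * Sf w ^ b * (c * Sf (u + w) ^ (c - 1) * deriv Sf (u + w)) =
      b * Tf w + c * Tf (u + w) := by
    have g1 : Sf w ^ (b - 1) = Sf w ^ b / Sf w := by
      rw [zpow_sub_one₀ h2, div_eq_mul_inv]
    have g2 : (c : ℂ) * Sf (u + w) ^ (c - 1) = c * (Sf (u + w) ^ c / Sf (u + w)) := by
      rcases h3 with h3 | h3
      · rw [h3, Int.cast_zero, zero_mul, zero_mul]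
      · rw [zpow_sub_one₀ h3, div_eq_mul_inv]
    rw [g1, g2]
    unfold Tf
    have g3 : Sf u ^ a * ((b : ℂ) * (Sf w ^ b / Sf w) * deriv Sf w) * Sf (u + w) ^ c +
      Sf u ^ a * Sf w ^ b * ((c : ℂ) * (Sf (u + w) ^ c / Sf (u + w)) * deriv Sf (u + w)) =
        (Sf u ^ a * Sf w ^ b * Sf (u + w) ^ c) *
          ((b : ℂ) * (deriv Sf w / Sf w) + (c : ℂ) * (deriv Sf (u + w) / Sf (u + w))) := by ring
    rw [g3, hprod, one_mul]
  rw [← e]
  exact d

theorem Sf_deriv (u : ℂ) : deriv Sf u =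
    8 * Real.pi * (Complex.sin (Real.pi * u) * Complex.cos (Real.pi * u)) := by
  have h1 : HasDerivAt (fun z : ℂ => (Real.pi : ℂ) * z) (Real.pi : ℂ) u := by
    simpa using (hasDerivAt_id u).const_mul (Real.pi : ℂ)
  have h2 := (h1.csin.pow 2).const_mul (4 : ℂ)
  have h3 : HasDerivAt Sf (4 * ((2 : ℕ) * Complex.sin (Real.pi * u) ^ (2 - 1) *
      (Complex.cos (Real.pi * u) * Real.pi))) u := h2
  rw [h3.deriv]
  push_cast
  ring

/-- At a point of the arc one of the partial derivatives is not zero. -/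
theorem arc_smooth (a b c : ℤ) (h : ArcType a b c) (u w : ℂ) (hG : Gf a b c (u, w) = 0) :
    b * Tf w + c * Tf (u + w) ≠ 0 ∨ a * Tf u + c * Tf (u + w) ≠ 0 := by
  have ha : a ≠ 0 := by rcases h with h | h; exacts [h.2.1, h.2.1]
  have hb : b ≠ 0 := by rcases h with h | h; exacts [h.2.2.1, h.2.2.1]
  obtain ⟨h1, h2, h3⟩ := Gf_ne a b c ha hb (u, w) hG
  simp only at h1 h2 h3
  by_contra hcon
  push Not at hcon
  obtain ⟨E1, E2⟩ := hcon
  have hpi : (Real.pi : ℂ) ≠ 0 := by exact_mod_cast Real.pi_ne_zero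
  have hsin : ∀ z : ℂ, Sf z ≠ 0 → Complex.sin (Real.pi * z) ≠ 0 := by
    intro z hz h0
    apply hz
    rw [Sf, h0]
    ring
  have hT : ∀ z : ℂ, Sf z ≠ 0 →
      Tf z = 2 * Real.pi * (Complex.cos (Real.pi * z) / Complex.sin (Real.pi * z)) := by
    intro z hz
    have hs := hsin z hz
    rw [Tf, Sf_deriv, Sf]
    field_simp
    ring
  have haC : (a : ℂ) ≠ 0 := by exact_mod_cast ha
  have hbC : (b : ℂ) ≠ 0 := by exact_mod_cast hb
  rcases h with ⟨hc, _, _, hab⟩ | ⟨hc, _, _, hcne⟩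
  · rw [hc, Int.cast_zero, zero_mul, add_zero] at E1 E2
    have T1 : Tf w = 0 := (mul_eq_zero.1 E1).resolve_left hbC
    have T2 : Tf u = 0 := (mul_eq_zero.1 E2).resolve_left haC
    have key : ∀ z : ℂ, Sf z ≠ 0 → Tf z = 0 → Sf z = 4 := by
      intro z hz h0
      rw [hT z hz] at h0
      have hs := hsin z hz
      have hcos : Complex.cos (Real.pi * z) = 0 := by
        rcases mul_eq_zero.1 h0 with h4 | h4
        · exfalso
          exact (mul_ne_zero two_ne_zero hpi) h4
        · rcases div_eq_zero_iff.1 h4 with h5 | h5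
          · exact h5
          · exact absurd h5 hs
      have h5 := Complex.sin_sq_add_cos_sq (Real.pi * z)
      rw [hcos] at h5
      rw [Sf]
      have h6 : Complex.sin (Real.pi * z) ^ 2 = 1 := by
        rw [← h5]
        ring
      rw [h6, mul_one]
    have S1 := key w h2 T1
    have S2 := key u h1 T2
    unfold Gf at hG
    simp only [S1, S2, hc, zpow_zero, mul_one] at hG
    rw [← zpow_add₀ (by norm_num : (4 : ℂ) ≠ 0), sub_eq_zero] at hG
    have h5 : (4 : ℝ) ^ (a + b) = 1 := by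
      apply Complex.ofReal_injective
      push_cast
      exact hG
    rw [zpow_eq_one_iff_right₀ (by norm_num) (by norm_num)] at h5
    exact hab h5
  · have h3' : Sf (u + w) ≠ 0 := h3.resolve_left hcne
    have s1 := hsin u h1
    have s2 := hsin w h2
    have s3 := hsin (u + w) h3'
    rw [hT w h2, hT (u + w) h3'] at E1
    rw [hT u h1, hT (u + w) h3'] at E2
    have hcC : (c : ℂ) = -((a : ℂ) + b) := by
      rw [hc]
      push_cast
      ring
    set A : ℂ := Complex.cos (Real.pi * u) / Complex.sin (Real.pi * u) with hA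
    set B : ℂ := Complex.cos (Real.pi * w) / Complex.sin (Real.pi * w) with hB
    set Γ : ℂ := Complex.cos (Real.pi * (u + w)) / Complex.sin (Real.pi * (u + w)) with hΓ
    have F1 : b * B = (a + b) * Γ := by
      have h5 : (2 * Real.pi : ℂ) * (b * B - (a + b) * Γ) = 0 := by
        rw [← E1, hcC]
        ring
      have h6 := (mul_eq_zero.1 h5).resolve_left (mul_ne_zero two_ne_zero hpi)
      exact sub_eq_zero.1 h6
    have F2 : a * A = (a + b) * Γ := by
      have h5 : (2 * Real.pi : ℂ) * (a * A - (a + b) * Γ) = 0 := by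
        rw [← E2, hcC]
        ring
      have h6 := (mul_eq_zero.1 h5).resolve_left (mul_ne_zero two_ne_zero hpi)
      exact sub_eq_zero.1 h6
    have F3 : Γ * (A + B) = A * B - 1 := by
      rw [hΓ, hA, hB]
      have e1 : (Real.pi : ℂ) * (u + w) = Real.pi * u + Real.pi * w := by ring
      rw [e1] at s3 ⊢
      rw [Complex.sin_add] at s3 ⊢
      rw [Complex.cos_add, div_mul_eq_mul_div, div_eq_iff s3]
      field_simp
      ring
    have F4 : a * b * (Γ * (A + B)) = a * b * (A * B) := by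
      calc a * b * (Γ * (A + B)) = Γ * (b * (a * A) + a * (b * B)) := by ring
        _ = Γ * ((a + b) * ((a + b) * Γ)) := by rw [F1, F2]; ring
        _ = (a * A) * (b * B) := by rw [F1, F2]; ring
        _ = a * b * (A * B) := by ring
    have F5 := mul_left_cancel₀ (mul_ne_zero haC hbC) F4
    rw [F3] at F5
    have : (1 : ℂ) = 0 := by linear_combination -F5
    exact one_ne_zero this

end Pool.Agent.Flat3
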