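import Pool.Agent.Flat3.SmallFunL

set_option autoImplicit false

/-! Bombieri-Pila: one small disc. -/

namespace Pool.Agent.Flat3

open Real Metric

/-- The Taylor coefficients of `f` at `t1`. -/
noncomputable def tco (f : ℂ → ℂ) (t1 : ℂ) (n : ℕ) : ℂ :=
  ((Nat.factorial n : ℕ) : ℂ)⁻¹ * iteratedDeriv n f t1

theorem tco_hasSum {f : ℂ → ℂ} {t1 : ℂ} {R : ℝ} (hf : DifferentiableOn ℂ f (ball t1 R)) {w : ℂ}
    (hw : ‖w‖ < R) : HasSum (fun n => tco f t1 n * w ^ n) (f (t1 + w)) := by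
  have h1 := Complex.hasSum_taylorSeries_on_ball hf (z := t1 + w)
    (by rw [mem_ball, dist_eq_norm, add_sub_cancel_left]; exact hw)
  have h2 : (fun n => tco f t1 n * w ^ n) =
      fun n : ℕ => ((Nat.factorial n : ℕ) : ℂ)⁻¹ • (t1 + w - t1) ^ n • iteratedDeriv n f t1 := by
    funext n
    rw [tco, add_sub_cancel_left, smul_eq_mul, smul_eq_mul]
    ring
  rw [h2]
  exact h1

theorem tco_bound {f : ℂ → ℂ} {t1 : ℂ} {R r A : ℝ} (hf : DifferentiableOn ℂ f (ball t1 R))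
    (hr : 0 < r) (hrR : r < R) (hA : ∀ t ∈ ball t1 R, ‖f t‖ ≤ A) (n : ℕ) :
    ‖tco f t1 n‖ * r ^ n ≤ A := by
  have h1 := Complex.norm_iteratedDeriv_le_of_forall_mem_sphere_norm_le (C := A) n hr
    (f := f) (c := t1) ((hf.mono (by
      intro z hz
      rw [closure_ball _ hr.ne'] at hz
      exact mem_ball.2 (lt_of_le_of_lt (mem_closedBall.1 hz) hrR))).diffContOnCl)
    (fun z hz => hA z (mem_ball.2 (by rw [mem_sphere.1 hz]; exact hrR)))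
  rw [tco, norm_mul, norm_inv, Complex.norm_natCast]
  have h2 : (0 : ℝ) < (Nat.factorial n : ℕ) := by exact_mod_cast Nat.factorial_pos n
  have h3 : 0 < r ^ n := pow_pos hr n
  rw [le_div_iff₀ h3] at h1
  calc ((Nat.factorial n : ℕ) : ℝ)⁻¹ * ‖iteratedDeriv n f t1‖ * r ^ n
      = ((Nat.factorial n : ℕ) : ℝ)⁻¹ * (‖iteratedDeriv n f t1‖ * r ^ n) := by ring
    _ ≤ ((Nat.factorial n : ℕ) : ℝ)⁻¹ * ((Nat.factorial n : ℕ) * A) := by gcongr
    _ = A := by rw [← mul_assoc, inv_mul_cancel₀ h2.ne', one_mul]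

private theorem pow_lip (u u' : ℂ) (B δ : ℝ) (hB : 1 ≤ B) (hu : ‖u‖ ≤ B) (hu' : ‖u'‖ ≤ B)
    (h : ‖u - u'‖ ≤ δ) (i : ℕ) : ‖u ^ i - u' ^ i‖ ≤ i * B ^ i * δ := by
  have hδ : 0 ≤ δ := (norm_nonneg _).trans h
  have hB0 : 0 ≤ B := by linarith
  induction i with
  | zero => simp
  | succ i ih =>
    have h1 : u ^ (i + 1) - u' ^ (i + 1) = u * (u ^ i - u' ^ i) + (u - u') * u' ^ i := by ring
    rw [h1]
    refine (norm_add_le _ _).trans ?_
    rw [norm_mul, norm_mul, norm_pow]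
    have h2 : ‖u‖ * ‖u ^ i - u' ^ i‖ ≤ B * (i * B ^ i * δ) :=
      mul_le_mul hu ih (norm_nonneg _) hB0
    have h3 : ‖u - u'‖ * ‖u'‖ ^ i ≤ δ * B ^ i :=
      mul_le_mul h (pow_le_pow_left₀ (norm_nonneg _) hu' i) (by positivity) hδ
    have h4 : δ * B ^ i ≤ B * (B ^ i * δ) := by
      have : 0 ≤ B ^ i * δ := by positivity
      nlinarith
    push_cast
    calc ‖u‖ * ‖u ^ i - u' ^ i‖ + ‖u - u'‖ * ‖u'‖ ^ i ≤ B * (i * B ^ i * δ) + B * (B ^ i * δ) :=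
          add_le_add h2 (h3.trans h4)
      _ = (i + 1) * B ^ (i + 1) * δ := by ring

private theorem mon_lip (u u' v v' : ℂ) (B δ : ℝ) (hB : 1 ≤ B) (hu : ‖u‖ ≤ B) (hu' : ‖u'‖ ≤ B)
    (hv : ‖v‖ ≤ B) (hv' : ‖v'‖ ≤ B) (h1 : ‖u - u'‖ ≤ δ) (h2 : ‖v - v'‖ ≤ δ) (i j d : ℕ)
    (hi : i ≤ d) (hj : j ≤ d) : ‖u ^ i * v ^ j - u' ^ i * v' ^ j‖ ≤ 2 * d * B ^ (2 * d) * δ := by
  have hδ : 0 ≤ δ := (norm_nonneg _).trans h1
  have hB0 : 0 ≤ B := by linarith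
  have e : u ^ i * v ^ j - u' ^ i * v' ^ j = (u ^ i - u' ^ i) * v ^ j + u' ^ i * (v ^ j - v' ^ j) := by
    ring
  rw [e]
  refine (norm_add_le _ _).trans ?_
  rw [norm_mul, norm_mul, norm_pow, norm_pow]
  have hBi : B ^ i ≤ B ^ d := pow_le_pow_right₀ hB hi
  have hBj : B ^ j ≤ B ^ d := pow_le_pow_right₀ hB hj
  have hi' : (i : ℝ) ≤ d := by exact_mod_cast hi
  have hj' : (j : ℝ) ≤ d := by exact_mod_cast hj
  have g1 : ‖u ^ i - u' ^ i‖ * ‖v‖ ^ j ≤ d * B ^ d * δ * B ^ d := by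
    refine mul_le_mul ((pow_lip u u' B δ hB hu hu' h1 i).trans (by gcongr))
      ((pow_le_pow_left₀ (norm_nonneg _) hv j).trans hBj) (by positivity) (by positivity)
  have g2 : ‖u'‖ ^ i * ‖v ^ j - v' ^ j‖ ≤ B ^ d * (d * B ^ d * δ) := by
    refine mul_le_mul ((pow_le_pow_left₀ (norm_nonneg _) hu' i).trans hBi)
      ((pow_lip v v' B δ hB hv hv' h2 j).trans (by gcongr)) (norm_nonneg _) (by positivity)
  calc _ ≤ d * B ^ d * δ * B ^ d + B ^ d * (d * B ^ d * δ) := add_le_add g1 g2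
    _ = 2 * d * B ^ (2 * d) * δ := by ring

private theorem int_zero (d : ℕ) (p : Fin d × Fin d → ℤ) (N : ℕ) (hN : 1 ≤ N) (a b : ℤ)
    (h : ‖∑ i, (p i : ℂ) * (((a : ℂ) / N) ^ (i.1 : ℕ) * ((b : ℂ) / N) ^ (i.2 : ℕ))‖ *
      (N : ℝ) ^ (2 * d) < 1) :
    ∑ i, (p i : ℂ) * (((a : ℂ) / N) ^ (i.1 : ℕ) * ((b : ℂ) / N) ^ (i.2 : ℕ)) = 0 := by
  have hN0 : (N : ℂ) ≠ 0 := by
    have : N ≠ 0 := by omega
    exact_mod_cast this
  set z : ℤ := ∑ i, p i * (a ^ (i.1 : ℕ) * (N : ℤ) ^ (d - (i.1 : ℕ)) *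
    (b ^ (i.2 : ℕ) * (N : ℤ) ^ (d - (i.2 : ℕ)))) with hz
  have h1 : (z : ℂ) = (∑ i, (p i : ℂ) * (((a : ℂ) / N) ^ (i.1 : ℕ) *
      ((b : ℂ) / N) ^ (i.2 : ℕ))) * (N : ℂ) ^ (2 * d) := by
    rw [hz, Finset.sum_mul]
    push_cast
    refine Finset.sum_congr rfl fun i _ => ?_
    have e1 : (N : ℂ) ^ (2 * d) = ((N : ℂ) ^ (i.1 : ℕ) * (N : ℂ) ^ (d - (i.1 : ℕ))) *
        ((N : ℂ) ^ (i.2 : ℕ) * (N : ℂ) ^ (d - (i.2 : ℕ))) := by
      rw [← pow_add, ← pow_add, ← pow_add]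
      congr 1
      have := i.1.2
      have := i.2.2
      omega
    rw [e1, div_pow, div_pow]
    field_simp
  have h2 : |(z : ℝ)| < 1 := by
    rw [← Complex.norm_intCast, h1, norm_mul, norm_pow, Complex.norm_natCast]
    exact h
  have h3 : z = 0 := by
    have : |z| < 1 := by exact_mod_cast h2
    exact Int.abs_lt_one_iff.1 this
  rw [h3, Int.cast_zero] at h1
  rcases mul_eq_zero.1 h1.symm with h4 | h4
  · exact h4
  · exact absurd h4 (pow_ne_zero _ hN0)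

/-- **One small disc.** -/
theorem bp_disc (m : ℕ) (hm : 1 ≤ m) (B : ℝ) (hB : 1 ≤ B) : ∃ C : ℝ, 1 ≤ C ∧
    ∀ (f1 f2 : ℂ → ℂ) (t1 : ℂ) (r : ℝ), 0 < r → DifferentiableOn ℂ f1 (ball t1 (2 * r)) →
      DifferentiableOn ℂ f2 (ball t1 (2 * r)) → (∀ t ∈ ball t1 (2 * r), ‖f1 t‖ ≤ B) →
      (∀ t ∈ ball t1 (2 * r), ‖f2 t‖ ≤ B) →
      ∀ (N : ℕ) (δ l : ℝ), 1 ≤ N → 0 ≤ δ → C * (N : ℝ) ^ (8 * m) * δ ≤ 1 →
        C * (N : ℝ) ^ ((8 : ℝ) / m) * l ≤ r →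
        ∃ p : Fin (2 * m) × Fin (2 * m) → ℤ, p ≠ 0 ∧ ∀ t : ℂ, ‖t - t1‖ ≤ l →
          (∃ a b : ℤ, ‖f1 t - a / N‖ ≤ δ ∧ ‖f2 t - b / N‖ ≤ δ) →
          ‖∑ i, (p i : ℂ) * (f1 t ^ (i.1 : ℕ) * f2 t ^ (i.2 : ℕ))‖ ≤
            C * (N : ℝ) ^ (4 * m) * δ := by
  set T : ℕ := m ^ 2 with hT
  have hT1 : 1 ≤ T := Nat.one_le_pow _ _ hm
  have rT : (1 : ℝ) ≤ T := by exact_mod_cast hT1
  have rm : (1 : ℝ) ≤ m := by exact_mod_cast hm
  set A : ℝ := B ^ (4 * m) with hA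
  have hA1 : 1 ≤ A := one_le_pow₀ hB
  set G : ℝ := 288 * T ^ 2 * A with hG
  have hG1 : 1 ≤ G := by
    rw [hG]
    exact one_le_mul_of_one_le_of_one_le (one_le_mul_of_one_le_of_one_le (by norm_num)
      (one_le_pow₀ rT)) hA1
  set C2 : ℝ := 4 * T * (exp (T / 2) * G) * (4 * m * (B + 1) ^ (4 * m)) with hC2
  have hB1 : (1 : ℝ) ≤ B + 1 := by linarith
  have he : (1 : ℝ) ≤ exp (T / 2) := Real.one_le_exp (by positivity)
  have hC21 : 1 ≤ C2 := by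
    rw [hC2]
    refine one_le_mul_of_one_le_of_one_le (one_le_mul_of_one_le_of_one_le (by linarith)
      (one_le_mul_of_one_le_of_one_le he hG1))
      (one_le_mul_of_one_le_of_one_le (by linarith) (one_le_pow₀ hB1))
  refine ⟨max (4 * C2) (exp 1 * G ^ 2), le_max_of_le_left (by linarith), ?_⟩
  intro f1 f2 t1 r hr hf1 hf2 hb1 hb2 N δ l hN hδ hNδ hl
  have rN : (1 : ℝ) ≤ N := by exact_mod_cast hN
  have hNpow : (1 : ℝ) ≤ (N : ℝ) ^ (4 * m) := one_le_pow₀ rN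
  have hGN : 1 ≤ G * (N : ℝ) ^ (4 * m) := one_le_mul_of_one_le_of_one_le hG1 hNpow
  set lam : ℝ := 2 / T * log (G * (N : ℝ) ^ (4 * m)) + 1 with hlam
  have hlam1 : 1 ≤ lam := by
    have h1 : 0 ≤ 2 / T * log (G * (N : ℝ) ^ (4 * m)) :=
      mul_nonneg (by positivity) (Real.log_nonneg hGN)
    linarith
  have hlamT : lam * T / (((1 : ℕ) : ℝ) + 1) = log (G * (N : ℝ) ^ (4 * m)) + T / 2 := by
    rw [hlam]
    push_cast
    field_simp
    ring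
  have hexp1 : exp (lam * T / (((1 : ℕ) : ℝ) + 1)) = exp (T / 2) * G * (N : ℝ) ^ (4 * m) := by
    rw [hlamT, Real.exp_add, Real.exp_log (by linarith)]
    ring
  -- the bound on the sum at nearby rational points
  have hδ8 : max (4 * C2) (exp 1 * G ^ 2) * (N : ℝ) ^ (8 * m) * δ ≤ 1 := hNδ
  have hδ8' : 4 * C2 * (N : ℝ) ^ (8 * m) * δ ≤ 1 := by
    refine le_trans ?_ hδ8
    have : 4 * C2 ≤ max (4 * C2) (exp 1 * G ^ 2) := le_max_left _ _
    gcongr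
  have hδ1 : δ ≤ 1 := by
    have h1 : 1 * δ ≤ 4 * C2 * (N : ℝ) ^ (8 * m) * δ := by
      apply mul_le_mul_of_nonneg_right _ hδ
      exact one_le_mul_of_one_le_of_one_le (by linarith) (one_le_pow₀ rN)
    linarith
  obtain ⟨p, hp0, hpb, hps⟩ := small_funL (ι := Fin (2 * m) × Fin (2 * m))
    (fun i z => f1 (t1 + z) ^ (i.1 : ℕ) * f2 (t1 + z) ^ (i.2 : ℕ))
    (fun i n => tco (fun t => f1 t ^ (i.1 : ℕ) * f2 t ^ (i.2 : ℕ)) t1 n)
    (r * exp (-lam)) A lam (by positivity) (by linarith) hlam1 (by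
      intro i z hz
      have hd : DifferentiableOn ℂ (fun t => f1 t ^ (i.1 : ℕ) * f2 t ^ (i.2 : ℕ))
          (ball t1 (2 * r)) := (hf1.pow _).mul (hf2.pow _)
      refine tco_hasSum (f := fun t => f1 t ^ (i.1 : ℕ) * f2 t ^ (i.2 : ℕ)) hd ?_
      refine lt_of_le_of_lt hz ?_
      have h1 : exp (-lam) ≤ 1 := by
        rw [Real.exp_le_one_iff]
        linarith
      nlinarith) (by
      intro i n
      have hd : DifferentiableOn ℂ (fun t => f1 t ^ (i.1 : ℕ) * f2 t ^ (i.2 : ℕ))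
          (ball t1 (2 * r)) := (hf1.pow _).mul (hf2.pow _)
      have h1 := tco_bound (f := fun t => f1 t ^ (i.1 : ℕ) * f2 t ^ (i.2 : ℕ)) (A := A) hd hr
        (by linarith) (by
          intro t ht
          rw [norm_mul, norm_pow, norm_pow]
          calc ‖f1 t‖ ^ (i.1 : ℕ) * ‖f2 t‖ ^ (i.2 : ℕ) ≤ B ^ (i.1 : ℕ) * B ^ (i.2 : ℕ) := by
                have := hb1 t ht
                have := hb2 t ht
                gcongr
            _ = B ^ ((i.1 : ℕ) + i.2) := by rw [pow_add]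
            _ ≤ A := pow_le_pow_right₀ hB (by
                have := i.1.2
                have := i.2.2
                omega)) n
      rw [mul_pow, ← Real.exp_nat_mul]
      have h2 : (n : ℝ) * -lam = -(lam * n) := by ring
      rw [h2, ← mul_assoc]
      exact mul_le_mul_of_nonneg_right h1 (exp_pos _).le) 1 T le_rfl hT1 (by
      rw [Fintype.card_prod, Fintype.card_fin, hT]
      apply le_of_eq
      ring)
  rw [hexp1] at hpb
  have hcard : ((Fintype.card (Fin (2 * m) × Fin (2 * m)) : ℕ) : ℝ) = 4 * T := by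
    rw [Fintype.card_prod, Fintype.card_fin, hT]
    push_cast
    ring
  refine ⟨p, hp0, fun t ht hab => ?_⟩
  obtain ⟨a, b, ha, hb⟩ := hab
  have hlr : l ≤ r * exp (-lam) := by
    have h1 : exp lam = exp 1 * (G * (N : ℝ) ^ (4 * m)) ^ ((2 : ℝ) / T) := by
      rw [hlam, Real.exp_add, Real.rpow_def_of_pos (by linarith)]
      rw [mul_comm]
      congr 2
      ring
    have h2 : (G * (N : ℝ) ^ (4 * m)) ^ ((2 : ℝ) / T) =
        G ^ ((2 : ℝ) / T) * (N : ℝ) ^ ((8 : ℝ) / m) := by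
      rw [Real.mul_rpow (by linarith) (by positivity), ← Real.rpow_natCast (N : ℝ) (4 * m),
        ← Real.rpow_mul (by linarith)]
      congr 2
      rw [hT]
      push_cast
      field_simp
      norm_num
    have h3 : G ^ ((2 : ℝ) / T) ≤ G ^ 2 := by
      rw [← Real.rpow_natCast G 2]
      apply Real.rpow_le_rpow_of_exponent_le hG1
      rw [div_le_iff₀ (by linarith)]
      push_cast
      linarith
    have h4 : exp lam ≤ max (4 * C2) (exp 1 * G ^ 2) * (N : ℝ) ^ ((8 : ℝ) / m) := by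
      rw [h1, h2, ← mul_assoc]
      apply mul_le_mul_of_nonneg_right _ (by positivity)
      refine le_trans ?_ (le_max_right _ _)
      gcongr
    have h5 : exp lam * l ≤ r := by
      have hl0 : 0 ≤ l := (norm_nonneg _).trans ht
      refine le_trans (mul_le_mul_of_nonneg_right h4 hl0) hl
    calc l = exp lam * l * exp (-lam) := by
          rw [Real.exp_neg]
          field_simp
      _ ≤ r * exp (-lam) := mul_le_mul_of_nonneg_right h5 (exp_pos _).le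
  have hr2 : ‖t - t1‖ < 2 * r := by
    refine lt_of_le_of_lt (ht.trans hlr) ?_
    have h1 : exp (-lam) ≤ 1 := by
      rw [Real.exp_le_one_iff]
      linarith
    nlinarith
  have htball : t ∈ ball t1 (2 * r) := by
    rw [mem_ball, dist_eq_norm]
    exact hr2
  have hF := hps (t - t1) (ht.trans hlr)
  simp only [add_sub_cancel] at hF
  rw [hcard] at hF
  have hexpneg : exp (-(((1 : ℕ) : ℝ) * (lam * T / (((1 : ℕ) : ℝ) + 1)))) ≤
      (G * (N : ℝ) ^ (4 * m))⁻¹ := by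
    rw [Nat.cast_one, one_mul, Real.exp_neg]
    rw [Nat.cast_one] at hexp1
    rw [hexp1]
    apply inv_anti₀ (by positivity)
    calc G * (N : ℝ) ^ (4 * m) = 1 * G * (N : ℝ) ^ (4 * m) := by ring
      _ ≤ exp (T / 2) * G * (N : ℝ) ^ (4 * m) := by gcongr
  have hF2 : ‖∑ i, (p i : ℂ) * (f1 t ^ (i.1 : ℕ) * f2 t ^ (i.2 : ℕ))‖ * (N : ℝ) ^ (4 * m) ≤
      1 / 4 := by
    calc _ ≤ (18 * T * (4 * T) * A * (G * (N : ℝ) ^ (4 * m))⁻¹) * (N : ℝ) ^ (4 * m) := by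
          apply mul_le_mul_of_nonneg_right _ (by positivity)
          refine hF.trans ?_
          gcongr
      _ = 1 / 4 := by
          rw [hG]
          field_simp
          norm_num
  -- compare with the rational point
  have hdiff : ‖∑ i, (p i : ℂ) * (f1 t ^ (i.1 : ℕ) * f2 t ^ (i.2 : ℕ)) -
      ∑ i, (p i : ℂ) * (((a : ℂ) / N) ^ (i.1 : ℕ) * ((b : ℂ) / N) ^ (i.2 : ℕ))‖ ≤
      C2 * (N : ℝ) ^ (4 * m) * δ := by
    have hu := hb1 t htball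
    have hv := hb2 t htball
    have hu' : ‖(a : ℂ) / N‖ ≤ B + 1 := by
      have h1 : (a : ℂ) / N = f1 t - (f1 t - a / N) := by ring
      rw [h1]
      refine (norm_sub_le _ _).trans ?_
      linarith
    have hv' : ‖(b : ℂ) / N‖ ≤ B + 1 := by
      have h1 : (b : ℂ) / N = f2 t - (f2 t - b / N) := by ring
      rw [h1]
      refine (norm_sub_le _ _).trans ?_
      linarith
    rw [← Finset.sum_sub_distrib]
    calc ‖∑ i, ((p i : ℂ) * (f1 t ^ (i.1 : ℕ) * f2 t ^ (i.2 : ℕ)) -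
          (p i : ℂ) * (((a : ℂ) / N) ^ (i.1 : ℕ) * ((b : ℂ) / N) ^ (i.2 : ℕ)))‖
        ≤ ∑ i : Fin (2 * m) × Fin (2 * m), (exp (T / 2) * G * (N : ℝ) ^ (4 * m)) *
          (2 * ((2 * m : ℕ) : ℝ) * (B + 1) ^ (2 * (2 * m)) * δ) := by
          refine (norm_sum_le _ _).trans (Finset.sum_le_sum fun i _ => ?_)
          rw [← mul_sub, norm_mul, Complex.norm_intCast]
          exact mul_le_mul (hpb i) (mon_lip _ _ _ _ (B + 1) δ hB1 (by linarith) hu' (by linarith)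
            hv' ha hb _ _ (2 * m) i.1.2.le i.2.2.le) (norm_nonneg _) (by positivity)
      _ = 4 * T * ((exp (T / 2) * G * (N : ℝ) ^ (4 * m)) *
          (2 * ((2 * m : ℕ) : ℝ) * (B + 1) ^ (2 * (2 * m)) * δ)) := by
          rw [Finset.sum_const, Finset.card_univ, nsmul_eq_mul, hcard]
      _ = C2 * (N : ℝ) ^ (4 * m) * δ := by
          rw [hC2, show 2 * (2 * m) = 4 * m by ring]
          push_cast
          ring
  have hdN : C2 * (N : ℝ) ^ (4 * m) * δ * (N : ℝ) ^ (4 * m) ≤ 1 / 4 := by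
    have e : (N : ℝ) ^ (8 * m) = (N : ℝ) ^ (4 * m) * (N : ℝ) ^ (4 * m) := by
      rw [← pow_add]
      congr 1
      ring
    rw [e] at hδ8'
    calc C2 * (N : ℝ) ^ (4 * m) * δ * (N : ℝ) ^ (4 * m) =
        1 / 4 * (4 * C2 * ((N : ℝ) ^ (4 * m) * (N : ℝ) ^ (4 * m)) * δ) := by ring
      _ ≤ 1 / 4 * 1 := by gcongr
      _ = 1 / 4 := by ring
  have hQ0 : ∑ i, (p i : ℂ) * (((a : ℂ) / N) ^ (i.1 : ℕ) * ((b : ℂ) / N) ^ (i.2 : ℕ)) = 0 := by
    refine int_zero (2 * m) p N hN a b ?_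
    rw [show 2 * (2 * m) = 4 * m by ring]
    have h1 := norm_sub_norm_le (∑ i, (p i : ℂ) * (((a : ℂ) / N) ^ (i.1 : ℕ) *
      ((b : ℂ) / N) ^ (i.2 : ℕ))) (∑ i, (p i : ℂ) * (f1 t ^ (i.1 : ℕ) * f2 t ^ (i.2 : ℕ)))
    rw [norm_sub_rev] at h1
    have h2 : ‖∑ i, (p i : ℂ) * (((a : ℂ) / N) ^ (i.1 : ℕ) * ((b : ℂ) / N) ^ (i.2 : ℕ))‖ ≤
        ‖∑ i, (p i : ℂ) * (f1 t ^ (i.1 : ℕ) * f2 t ^ (i.2 : ℕ))‖ +
          C2 * (N : ℝ) ^ (4 * m) * δ := by linarith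
    calc _ ≤ (‖∑ i, (p i : ℂ) * (f1 t ^ (i.1 : ℕ) * f2 t ^ (i.2 : ℕ))‖ +
          C2 * (N : ℝ) ^ (4 * m) * δ) * (N : ℝ) ^ (4 * m) :=
          mul_le_mul_of_nonneg_right h2 (by positivity)
      _ < 1 := by
          rw [add_mul]
          linarith
  rw [hQ0, sub_zero] at hdiff
  refine hdiff.trans ?_
  have h1 : C2 ≤ max (4 * C2) (exp 1 * G ^ 2) := le_max_of_le_left (by linarith)
  gcongr

end Pool.Agent.Flat3
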