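import Pool.Agent.Flat3.Delta
import Pool.Agent.LThreeC.Deriv
import Pool.Agent.LThreeC.LogD

set_option autoImplicit false

/-!
# Classification of the degenerate directions: field part

`M` is a field with a derivation `D` and `D t = t`; `x x' = t^a0`, `(1-x)(1-x') = t^a1`,
`y y' = t^a2`, `(1-y)(1-y') = t^a3`, and `x^r0 (1-x)^r1 y^r2 (1-y)^r3 = 1`.
-/

namespace Pool.Agent.Flat3

open Polynomial Pool.Agent.LThree Pool.Agent.LThreeC

variable {F : Type} [Field F] [CharZero F]

/-- The polynomial `R(m, n; p, q)`. -/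
noncomputable def Rp (m n : ℤ) (p q : ℕ) : ℚ[X] :=
  C ((n * q - m * p : ℤ) : ℚ) + C ((m * p + 2 * n * p - n * q : ℤ) : ℚ) * X ^ p +
    C ((m * p - 2 * m * q - n * q : ℤ) : ℚ) * X ^ q

theorem Rp_coeff (m n : ℤ) (p q k : ℕ) : (Rp m n p q).coeff k =
    (if k = 0 then ((n * q - m * p : ℤ) : ℚ) else 0) +
      ((m * p + 2 * n * p - n * q : ℤ) : ℚ) * (if k = p then 1 else 0) +
      ((m * p - 2 * m * q - n * q : ℤ) : ℚ) * (if k = q then 1 else 0) := by
  rw [Rp, coeff_add, coeff_add, coeff_C_mul, coeff_C_mul, coeff_X_pow, coeff_X_pow, coeff_C]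

/-- When `R` vanishes identically. -/
theorem Rp_eq_zero {m n : ℤ} {p q : ℕ} (hpq : p ≤ q) (hq : 0 < q) (hmn : m ≠ 0 ∨ n ≠ 0)
    (h : Rp m n p q = 0) : (p = 0 ∧ n = -2 * m ∧ m ≠ 0) ∨ (p = q ∧ m = n ∧ m ≠ 0) := by
  have hc := fun k => congrArg (fun P => coeff P k) h
  simp only [coeff_zero, Rp_coeff] at hc
  have hq0 : (q : ℤ) ≠ 0 := by exact_mod_cast hq.ne'
  rcases Nat.eq_zero_or_pos p with rfl | hp
  · left
    have h1 := hc q
    rw [if_neg hq.ne', if_neg hq.ne', if_pos rfl] at h1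
    have h2 : (m * (0 : ℕ) - 2 * m * q - n * q : ℤ) = 0 := by
      have h3 : ((m * (0 : ℕ) - 2 * m * q - n * q : ℤ) : ℚ) = 0 := by linear_combination h1
      exact_mod_cast h3
    have h4 : (q : ℤ) * (n + 2 * m) = 0 := by
      rw [Nat.cast_zero, mul_zero] at h2
      linear_combination -h2
    have h5 : n + 2 * m = 0 := (mul_eq_zero.1 h4).resolve_left hq0
    refine ⟨rfl, by omega, ?_⟩
    rintro rfl
    omega
  · have hp0 : (p : ℤ) ≠ 0 := by exact_mod_cast hp.ne'
    have h0 := hc 0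
    rw [if_pos rfl, if_neg hp.ne, if_neg hq.ne] at h0
    have h0' : (n * q - m * p : ℤ) = 0 := by
      have h3 : ((n * q - m * p : ℤ) : ℚ) = 0 := by linear_combination h0
      exact_mod_cast h3
    rcases hpq.lt_or_eq with hlt | rfl
    · exfalso
      have h1 := hc p
      rw [if_neg hp.ne', if_pos rfl, if_neg hlt.ne] at h1
      have h2 : (m * p + 2 * n * p - n * q : ℤ) = 0 := by
        have h3 : ((m * p + 2 * n * p - n * q : ℤ) : ℚ) = 0 := by linear_combination h1
        exact_mod_cast h3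
      have h4 : (p : ℤ) * n = 0 := by linarith
      have h5 : n = 0 := (mul_eq_zero.1 h4).resolve_left hp0
      have h6 : (p : ℤ) * m = 0 := by
        rw [h5] at h0'
        linarith
      have h7 : m = 0 := (mul_eq_zero.1 h6).resolve_left hp0
      exact hmn.elim (fun h => h h7) (fun h => h h5)
    · right
      have h4 : (p : ℤ) * (n - m) = 0 := by linarith
      have h5 : n - m = 0 := (mul_eq_zero.1 h4).resolve_left hp0
      refine ⟨rfl, by omega, ?_⟩
      rintro rfl
      omega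

omit [CharZero F] in
/-- `(x - x')² = -Δ(t)` -/
theorem sub_sq {t x x' : F} {p q : ℕ} (h1 : x * x' = t ^ p) (h2 : (1 - x) * (1 - x') = t ^ q) :
    (x - x') ^ 2 = -((Dl F p q).eval t) := by
  rw [Dl_eval, ← h1, ← h2]
  ring

/-- the logarithmic derivatives -/
theorem two_LD (D : Derivation ℚ F F) {t x x' : F} (ht : t ≠ 0) (hDt : D t = t) {p q : ℕ}
    (h1 : x * x' = t ^ p) (h2 : (1 - x) * (1 - x') = t ^ q) (hne : x ≠ x') (m n : ℤ) :
    2 * (m * LD D x + n * LD D (1 - x)) =
      ((m * p + n * q : ℤ) : F) + aeval t (Rp m n p q) / (x - x') := by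
  have hx0 : x ≠ 0 := by
    rintro rfl
    rw [zero_mul] at h1
    exact pow_ne_zero p ht h1.symm
  have hx1 : 1 - x ≠ 0 := by
    intro h
    rw [h, zero_mul] at h2
    exact pow_ne_zero q ht h2.symm
  have hd : x - x' ≠ 0 := sub_ne_zero.2 hne
  have hpow : ∀ k : ℕ, D (t ^ k) = k * t ^ k := by
    intro k
    rcases k with _ | k
    · simp
    · rw [Derivation.leibniz_pow, hDt, Nat.add_sub_cancel, smul_eq_mul, nsmul_eq_mul]
      ring
  have e1 : x' * D x + x * D x' = p * (x * x') := by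
    have h := congrArg D h1
    rw [hpow, ← h1, Derivation.leibniz] at h
    simp only [smul_eq_mul] at h
    linear_combination h
  have e2 : (1 - x') * D x + (1 - x) * D x' = -(q * ((1 - x) * (1 - x'))) := by
    have h := congrArg D h2
    rw [hpow, ← h2, Derivation.leibniz, map_sub, map_sub, Derivation.map_one_eq_zero] at h
    simp only [smul_eq_mul] at h
    linear_combination -h
  have e3 : D x * (x - x') = -(x * (1 - x) * (p * x' + q * (1 - x'))) := by
    linear_combination x * e2 - (1 - x) * e1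
  have e4 : D x = -(x * (1 - x) * (p * x' + q * (1 - x'))) / (x - x') := by
    rw [eq_div_iff hd, e3]
  have hR : aeval t (Rp m n p q) = ((n * q - m * p : ℤ) : F) +
      ((m * p + 2 * n * p - n * q : ℤ) : F) * (x * x') +
      ((m * p - 2 * m * q - n * q : ℤ) : F) * ((1 - x) * (1 - x')) := by
    rw [h1, h2]
    simp [Rp]
  unfold LD
  rw [map_sub, Derivation.map_one_eq_zero, e4, hR]
  field_simp
  push_cast
  ring

/-- two polynomials over `ℚ` with the same value at a transcendental element -/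
theorem poly_eq {t : F} (ht : Transcendental ℚ t) {P Q : ℚ[X]} (h : aeval t P = aeval t Q) :
    P = Q := by
  have := transcendental_iff.1 ht (P - Q) (by rw [map_sub, h, sub_self])
  exact sub_eq_zero.1 this

theorem Dl_aeval (t : F) (p q : ℕ) : aeval t (Dl ℚ p q) = (Dl F p q).eval t := by
  rw [aeval_def, eval₂_eq_eval_map, Dl_map]

/-- **The main dichotomy.** -/
theorem dich {t : F} (ht : Transcendental ℚ t) {δ δ' : F} {p q p' q' : ℕ} (hpq : p ≤ q)
    (hq : 0 < q) (hpq' : p' ≤ q') (hq' : 0 < q') (hδ : δ ^ 2 = -((Dl F p q).eval t))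
    (hδ' : δ' ^ 2 = -((Dl F p' q').eval t)) (c : ℤ) (R R' : ℚ[X])
    (h : (c : F) + aeval t R / δ + aeval t R' / δ' = 0) :
    c = 0 ∧ ((R = 0 ∧ R' = 0) ∨ (p = p' ∧ q = q' ∧ R ≠ 0)) := by
  have hne : ∀ p q : ℕ, (Dl F p q).eval t ≠ 0 := by
    intro p q h0
    rw [← Dl_aeval] at h0
    have := transcendental_iff.1 ht _ h0
    have h1 := Dl_map (Int.castRingHom ℂ) p q
    have h2 := Dl_map (algebraMap ℚ ℂ) p q
    rw [this, Polynomial.map_zero] at h2
    exact Dl_ne h2.symm
  have hδ0 : δ ≠ 0 := by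
    rintro rfl
    exact hne p q (by linear_combination hδ)
  have hδ0' : δ' ≠ 0 := by
    rintro rfl
    exact hne p' q' (by linear_combination hδ')
  rw [← Dl_aeval] at hδ hδ'
  set a := aeval t R with ha
  set b := aeval t R' with hb
  set d := aeval t (Dl ℚ p q) with hd
  set d' := aeval t (Dl ℚ p' q') with hd'
  -- clear denominators
  have h1 : (c : F) * δ * δ' + a * δ' + b * δ = 0 := by
    field_simp at h
    linear_combination h
  have hmapne : ∀ P : ℚ[X], P ≠ 0 → P.map (algebraMap ℚ ℂ) ≠ 0 := fun P hP =>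
    (Polynomial.map_ne_zero_iff (algebraMap ℚ ℂ).injective).2 hP
  have hmap : ∀ {P Q : ℚ[X]}, P = Q → P.map (algebraMap ℚ ℂ) = Q.map (algebraMap ℚ ℂ) :=
    fun h => by rw [h]
  have hI : (C Complex.I : ℂ[X]) ^ 2 = -1 := by
    rw [← C_pow, Complex.I_sq]
    simp
  have hc0 : c = 0 := by
    by_contra hc
    have hcF : (c : F) ≠ 0 := by exact_mod_cast hc
    by_cases hR : R = 0
    · -- `b² = c² δ'²`
      have ha0 : a = 0 := by rw [ha, hR, map_zero]
      have h2 : b ^ 2 = -((c : F) ^ 2 * d') := by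
        have h3 : δ * ((c : F) * δ' + b) = 0 := by
          rw [ha0] at h1
          linear_combination h1
        have h4 := (mul_eq_zero.1 h3).resolve_left hδ0
        linear_combination (b - c * δ') * h4 - (c : F) ^ 2 * (-hδ')
      have h5 : R' ^ 2 = -(C (c : ℚ) ^ 2 * Dl ℚ p' q') := by
        apply poly_eq ht
        simp only [map_pow, map_neg, map_mul, aeval_C]
        rw [← hb, ← hd', h2]
        simp
      have h6 := hmap h5
      simp only [Polynomial.map_pow, Polynomial.map_neg, Polynomial.map_mul, Polynomial.map_C,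
        Dl_map] at h6
      refine not_square hpq' hq' (A := C (algebraMap ℚ ℂ c)) (B := C Complex.I * R'.map (algebraMap ℚ ℂ))
        ?_ ?_
      · rw [Ne, C_eq_zero]
        simpa using hc
      · rw [mul_pow, hI, h6]
        ring
    · -- `(2 c R Δ')² Δ = (i W)²`
      have h2 : 2 * (c : F) * a * d * d' =
          (-(b ^ 2 * d) - (c : F) ^ 2 * d * d' + a ^ 2 * d') * δ := by
        -- `b δ = -(c δ + a) δ'`
        have h3 : b * δ = -(((c : F) * δ + a) * δ') := by linear_combination h1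
        have h4 : b ^ 2 * δ ^ 2 = ((c : F) * δ + a) ^ 2 * δ' ^ 2 := by
          have : (b * δ) ^ 2 = (-(((c : F) * δ + a) * δ')) ^ 2 := by rw [h3]
          linear_combination this
        rw [hδ, hδ'] at h4
        -- `b² d = (c δ + a)² d'`
        have h5 : b ^ 2 * d = ((c : F) * δ + a) ^ 2 * d' := by linear_combination -h4
        rw [h5]
        have h6 : ((c : F) * δ + a) ^ 2 = -(c : F) ^ 2 * d + 2 * c * a * δ + a ^ 2 := by
          linear_combination (c : F) ^ 2 * hδ
        rw [h6]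
        linear_combination (2 * (c : F) * a * d') * hδ
      have h3 : (2 * (c : F) * a * d * d') ^ 2 =
          -((-(b ^ 2 * d) - (c : F) ^ 2 * d * d' + a ^ 2 * d') ^ 2 * d) := by
        rw [h2, mul_pow, hδ]
        ring
      have hdne : d ≠ 0 := by
        rw [hd, Dl_aeval]
        exact hne p q
      have h4 : (2 * (c : F) * a * d') ^ 2 * d =
          -(-(b ^ 2 * d) - (c : F) ^ 2 * d * d' + a ^ 2 * d') ^ 2 := by
        apply mul_left_cancel₀ hdne
        linear_combination h3
      have h5 : (2 * C (c : ℚ) * R * Dl ℚ p' q') ^ 2 * Dl ℚ p q =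
          -(-(R' ^ 2 * Dl ℚ p q) - C (c : ℚ) ^ 2 * Dl ℚ p q * Dl ℚ p' q' +
            R ^ 2 * Dl ℚ p' q') ^ 2 := by
        apply poly_eq ht
        simp only [map_pow, map_neg, map_mul, map_sub, map_add, aeval_C, map_ofNat]
        rw [← ha, ← hb, ← hd, ← hd']
        simpa using h4
      have h6 := hmap h5
      simp only [Polynomial.map_pow, Polynomial.map_neg, Polynomial.map_mul, Polynomial.map_C,
        Polynomial.map_sub, Polynomial.map_add, Polynomial.map_ofNat, Dl_map] at h6
      refine not_square hpq hq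
        (A := 2 * C (algebraMap ℚ ℂ c) * R.map (algebraMap ℚ ℂ) * Dl ℂ p' q')
        (B := C Complex.I * (-((R'.map (algebraMap ℚ ℂ)) ^ 2 * Dl ℂ p q) -
          C (algebraMap ℚ ℂ c) ^ 2 * Dl ℂ p q * Dl ℂ p' q' +
            (R.map (algebraMap ℚ ℂ)) ^ 2 * Dl ℂ p' q')) ?_ ?_
      · refine mul_ne_zero (mul_ne_zero (mul_ne_zero two_ne_zero ?_) (hmapne R hR)) Dl_ne
        rw [Ne, C_eq_zero]
        simpa using hc
      · rw [h6, mul_pow, hI]
        ring
  refine ⟨hc0, ?_⟩
  rw [hc0, Int.cast_zero, zero_mul, zero_mul, zero_add] at h1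
  have h2 : a ^ 2 * d' = b ^ 2 * d := by
    have h3 : a * δ' = -(b * δ) := by linear_combination h1
    have h4 : a ^ 2 * δ' ^ 2 = b ^ 2 * δ ^ 2 := by
      have : (a * δ') ^ 2 = (-(b * δ)) ^ 2 := by rw [h3]
      linear_combination this
    rw [hδ, hδ'] at h4
    linear_combination -h4
  have h3 : R ^ 2 * Dl ℚ p' q' = R' ^ 2 * Dl ℚ p q := by
    apply poly_eq ht
    simp only [map_pow, map_mul]
    exact h2
  have hDQ : ∀ p q : ℕ, Dl ℚ p q ≠ 0 := by
    intro p q h0
    have h2 := Dl_map (algebraMap ℚ ℂ) p q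
    rw [h0, Polynomial.map_zero] at h2
    exact Dl_ne h2.symm
  by_cases hR : R = 0
  · left
    refine ⟨hR, ?_⟩
    rw [hR] at h3
    have h4 : R' ^ 2 * Dl ℚ p q = 0 := by rw [← h3]; ring
    exact pow_eq_zero_iff (two_ne_zero) |>.1 ((mul_eq_zero.1 h4).resolve_right (hDQ _ _))
  · right
    have hR' : R' ≠ 0 := by
      rintro rfl
      have h4 : R ^ 2 * Dl ℚ p' q' = 0 := by rw [h3]; ring
      exact hR (pow_eq_zero_iff (two_ne_zero) |>.1 ((mul_eq_zero.1 h4).resolve_right (hDQ _ _)))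
    have h4 := hmap h3
    simp only [Polynomial.map_pow, Polynomial.map_mul, Dl_map] at h4
    obtain ⟨h5, h6⟩ := match_pq hpq hq hpq' hq' (hmapne R' hR') (hmapne R hR) h4.symm
    exact ⟨h5, h6, hR⟩

end Pool.Agent.Flat3
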