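import Mathlib

set_option autoImplicit false

/-!
# Exponential sums with few terms

If `∑_c b_c exp (c s)` is small at `2^n` separated points, `n + 1` the number of terms, then all
coefficients are small: divide by `exp (c₁ s)`, use the mean value theorem on every second interval,
and use induction.
-/

namespace Pool.Agent.Flat3

open Real

private theorem tu_deriv (T : Finset ℤ) (b : ℤ → ℝ) (c1 : ℤ) (s : ℝ) :
    HasDerivAt (fun s : ℝ => exp (-(c1 * s)) * ∑ c ∈ T, b c * exp (c * s))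
      (exp (-(c1 * s)) * ∑ c ∈ T, b c * (c - c1) * exp (c * s)) s := by
  have h1 : HasDerivAt (fun s : ℝ => exp (-(c1 * s))) (exp (-(c1 * s)) * (-c1)) s := by
    have h0 : HasDerivAt (fun s : ℝ => (-(c1 : ℝ)) * s) (-c1) s := by
      simpa using (hasDerivAt_id s).const_mul (-(c1 : ℝ))
    have : HasDerivAt (fun s : ℝ => -((c1 : ℝ) * s)) (-c1) s := by
      simpa only [neg_mul] using h0
    exact this.exp
  have h2 : HasDerivAt (fun s : ℝ => ∑ c ∈ T, b c * exp (c * s))
      (∑ c ∈ T, b c * (exp (c * s) * c)) s := by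
    apply HasDerivAt.fun_sum
    intro c _
    have : HasDerivAt (fun s : ℝ => (c : ℝ) * s) c s := by
      simpa using (hasDerivAt_id s).const_mul (c : ℝ)
    exact this.exp.const_mul (b c)
  have h3 := h1.mul h2
  convert! h3 using 1
  rw [mul_assoc, ← mul_add]
  congr 1
  rw [Finset.mul_sum, ← Finset.sum_add_distrib]
  exact Finset.sum_congr rfl fun c _ => by ring

/-- a linear function on an interval -/
private theorem tu_lin {a x y z Λ : ℝ} (hxz : x ≤ z) (hzy : z ≤ y) (hx : |a * x| ≤ Λ)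
    (hy : |a * y| ≤ Λ) : |a * z| ≤ Λ := by
  rw [abs_le] at *
  rcases le_total 0 a with h | h
  · have h1 := mul_le_mul_of_nonneg_left hxz h
    have h2 := mul_le_mul_of_nonneg_left hzy h
    exact ⟨by linarith, by linarith⟩
  · have h1 := mul_le_mul_of_nonpos_left hxz h
    have h2 := mul_le_mul_of_nonpos_left hzy h
    exact ⟨by linarith, by linarith⟩

theorem turan (n : ℕ) : ∀ (T : Finset ℤ) (b : ℤ → ℝ) (c0 : ℤ), c0 ∈ T → T.card = n + 1 →
    ∀ (Λ σ ε : ℝ), 0 < σ → 0 ≤ ε → ∀ s : ℕ → ℝ, (∀ i, i + 1 < 2 ^ n → σ ≤ s (i + 1) - s i) →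
    (∀ i < 2 ^ n, ∀ c ∈ T, |(c : ℝ) * s i| ≤ Λ) →
    (∀ i < 2 ^ n, |∑ c ∈ T, b c * exp (c * s i)| ≤ ε) →
    |b c0| ≤ ε * (2 * exp (2 * Λ) / σ) ^ n * exp Λ := by
  induction n with
  | zero =>
    intro T b c0 hc0 hT Λ σ ε hσ hε s hs hΛ hE
    have hT1 : T = {c0} := by
      obtain ⟨c, hc⟩ := Finset.card_eq_one.1 hT
      rw [hc] at hc0 ⊢
      rw [Finset.mem_singleton.1 hc0]
    have h1 := hE 0 (by norm_num)
    have h2 := hΛ 0 (by norm_num) c0 hc0
    rw [hT1, Finset.sum_singleton, abs_mul, abs_of_pos (exp_pos _)] at h1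
    rw [pow_zero, mul_one]
    have h3 : exp (-Λ) ≤ exp (c0 * s 0) := exp_le_exp.2 (abs_le.1 h2).1
    have h4 : |b c0| * exp (-Λ) ≤ ε := (mul_le_mul_of_nonneg_left h3 (abs_nonneg _)).trans h1
    calc |b c0| = |b c0| * exp (-Λ) * exp Λ := by
          rw [mul_assoc, ← exp_add, neg_add_cancel, exp_zero, mul_one]
      _ ≤ ε * exp Λ := mul_le_mul_of_nonneg_right h4 (exp_pos _).le
  | succ n ih =>
    intro T b c0 hc0 hT Λ σ ε hσ hε s hs hΛ hE
    have hΛ0 : 0 ≤ Λ := (abs_nonneg _).trans (hΛ 0 (by positivity) c0 hc0)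
    obtain ⟨c1, hc1, hne⟩ : ∃ c1 ∈ T, c1 ≠ c0 := by
      apply Finset.exists_mem_ne
      omega
    have h2n : 2 ^ (n + 1) = 2 * 2 ^ n := by rw [pow_succ]; ring
    set f : ℝ → ℝ := fun s => exp (-(c1 * s)) * ∑ c ∈ T, b c * exp (c * s) with hf
    set f' : ℝ → ℝ := fun s => exp (-(c1 * s)) * ∑ c ∈ T, b c * (c - c1) * exp (c * s) with hf'
    have hd : ∀ s, HasDerivAt f (f' s) s := fun s => tu_deriv T b c1 s
    have hfs : ∀ i < 2 ^ (n + 1), |f (s i)| ≤ exp Λ * ε := by
      intro i hi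
      rw [hf]
      simp only
      rw [abs_mul, abs_of_pos (exp_pos _)]
      refine mul_le_mul (exp_le_exp.2 ?_) (hE i hi) (abs_nonneg _) (exp_pos _).le
      have := (abs_le.1 (hΛ i hi c1 hc1)).1
      linarith
    have hξ : ∀ k, ∃ ξ : ℝ, k < 2 ^ n → s (2 * k) < ξ ∧ ξ < s (2 * k + 1) ∧
        |f' ξ| ≤ 2 * (exp Λ * ε) / σ := by
      intro k
      by_cases hk : k < 2 ^ n
      · have h1 : 2 * k + 1 < 2 ^ (n + 1) := by omega
        have h2 := hs (2 * k) h1
        obtain ⟨ξ, hξ1, hξ2⟩ := exists_hasDerivAt_eq_slope f f' (a := s (2 * k))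
          (b := s (2 * k + 1)) (by linarith)
          (fun x _ => (hd x).continuousAt.continuousWithinAt) (fun x _ => hd x)
        refine ⟨ξ, fun _ => ⟨hξ1.1, hξ1.2, ?_⟩⟩
        rw [hξ2, abs_div, abs_of_pos (by linarith : 0 < s (2 * k + 1) - s (2 * k))]
        have h3 : |f (s (2 * k + 1)) - f (s (2 * k))| ≤ 2 * (exp Λ * ε) := by
          refine (abs_sub _ _).trans ?_
          have := hfs _ h1
          have := hfs (2 * k) (by omega)
          linarith
        exact div_le_div₀ (by positivity) h3 hσ h2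
      · exact ⟨0, fun h => absurd h hk⟩
    choose ξ hξ using hξ
    have key := ih (T.erase c1) (fun c => b c * (c - c1)) c0 (Finset.mem_erase.2 ⟨hne.symm, hc0⟩)
      (by rw [Finset.card_erase_of_mem hc1, hT]; rfl) Λ σ (exp Λ * (2 * (exp Λ * ε) / σ)) hσ
      (by positivity) ξ ?_ ?_ ?_
    · have h1 : 1 ≤ |(c0 : ℝ) - c1| := by
        have : (1 : ℤ) ≤ |c0 - c1| := Int.one_le_abs (sub_ne_zero.2 hne.symm)
        exact_mod_cast this
      calc |b c0| ≤ |b c0| * |(c0 : ℝ) - c1| := le_mul_of_one_le_right (abs_nonneg _) h1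
        _ = |b c0 * (c0 - c1)| := (abs_mul _ _).symm
        _ ≤ _ := key
        _ = ε * (2 * exp (2 * Λ) / σ) ^ (n + 1) * exp Λ := by
            rw [pow_succ]
            have : exp (2 * Λ) = exp Λ * exp Λ := by rw [← exp_add]; ring_nf
            rw [this]
            ring
    · intro i hi
      obtain ⟨-, h1, -⟩ := hξ i (by omega)
      obtain ⟨h2, -, -⟩ := hξ (i + 1) hi
      have h3 := hs (2 * i + 1) (by omega)
      have e : 2 * (i + 1) = 2 * i + 1 + 1 := by ring
      rw [e] at h2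
      linarith
    · intro i hi c hc
      obtain ⟨h1, h2, -⟩ := hξ i hi
      exact tu_lin h1.le h2.le (hΛ _ (by omega) c (Finset.mem_of_mem_erase hc))
        (hΛ _ (by omega) c (Finset.mem_of_mem_erase hc))
    · intro i hi
      obtain ⟨h1, h2, h3⟩ := hξ i hi
      have h4 : |(c1 : ℝ) * ξ i| ≤ Λ := tu_lin h1.le h2.le (hΛ _ (by omega) c1 hc1)
        (hΛ _ (by omega) c1 hc1)
      have h5 : ∑ c ∈ T.erase c1, b c * (c - c1) * exp (c * ξ i) =
          exp (c1 * ξ i) * f' (ξ i) := by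
        rw [hf']
        simp only
        rw [← mul_assoc, ← exp_add, add_neg_cancel, exp_zero, one_mul,
          ← Finset.add_sum_erase T _ hc1]
        simp
      rw [h5, abs_mul, abs_of_pos (exp_pos _)]
      exact mul_le_mul (exp_le_exp.2 (abs_le.1 h4).2) h3 (abs_nonneg _) (exp_pos _).le

end Pool.Agent.Flat3
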