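import Pool.Agent.Flat3.NormDir
import Pool.Agent.Flat3.Turan

set_option autoImplicit false

/-!
# Points of a curve in a nondegenerate direction

If `(log |x|, log |1-x|, log |y|, log |1-y|)` is very close to a multiple `s a` of an integer vector
`a` which is not of type I or II, and `G (x, y) = 0`, then `x` and `y` are close to a bounded number
of points.
-/

namespace Pool.Agent.Flat3

open Real

private theorem clu_min {ι : Type} (s : Finset ι) (f : ι → ℝ) :
    ∃ b : ℝ, 0 < b ∧ ∀ i ∈ s, f i ≠ 0 → b ≤ |f i| := by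
  classical
  induction s using Finset.induction_on with
  | empty => exact ⟨1, one_pos, fun i hi => absurd hi (Finset.notMem_empty _)⟩
  | insert j s hj ih =>
    obtain ⟨b, hb, h⟩ := ih
    by_cases hf : f j = 0
    · refine ⟨b, hb, fun i hi hi0 => ?_⟩
      rcases Finset.mem_insert.1 hi with rfl | hi
      · exact absurd hf hi0
      · exact h i hi hi0
    · refine ⟨min b |f j|, lt_min hb (abs_pos.2 hf), fun i hi hi0 => ?_⟩
      rcases Finset.mem_insert.1 hi with rfl | hi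
      · exact min_le_right _ _
      · exact (min_le_left _ _).trans (h i hi hi0)

theorem abs_exp_sub {u v L : ℝ} (hu : u ≤ L) (hv : v ≤ L) :
    |exp u - exp v| ≤ exp L * |u - v| := by
  have key : ∀ {u v : ℝ}, v ≤ u → u ≤ L → |exp u - exp v| ≤ exp L * |u - v| := by
    intro u v h hu
    rw [abs_of_nonneg (sub_nonneg.2 (exp_le_exp.2 h)), abs_of_nonneg (sub_nonneg.2 h)]
    have h1 := add_one_le_exp (v - u)
    have h2 : exp v = exp u * exp (v - u) := by rw [← exp_add]; ring_nf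
    have h3 : exp u - exp v ≤ exp u * (u - v) := by
      rw [h2]
      nlinarith [exp_pos u]
    exact h3.trans (mul_le_mul_of_nonneg_right (exp_le_exp.2 hu) (sub_nonneg.2 h))
  rcases le_total v u with h | h
  · exact key h hu
  · rw [abs_sub_comm (exp u), abs_sub_comm u]
    exact key h hv

/-- the coefficients of the norm polynomial -/
noncomputable def nc (G : MvPolynomial (Fin 2) ℚ) (m : Fin 4 →₀ ℕ) : ℝ :=
  (((NG G).coeff m : ℚ) : ℝ)

/-- the four coordinates -/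
def cf (x y : ℂ) : Fin 4 → ℂ := ![x, 1 - x, y, 1 - y]

private theorem clu_zero {G : MvPolynomial (Fin 2) ℚ} {x y : ℂ}
    (h : MvPolynomial.aeval ![x, y] G = 0) :
    ∑ m ∈ (NG G).support, nc G m * ∏ i, (‖cf x y i‖ ^ 2) ^ m i = 0 := by
  have h1 := NG_eq_zero G (x' := (starRingEnd ℂ) x) (y' := (starRingEnd ℂ) y) h
  have e : ![x * (starRingEnd ℂ) x, (1 - x) * (1 - (starRingEnd ℂ) x), y * (starRingEnd ℂ) y,
      (1 - y) * (1 - (starRingEnd ℂ) y)] = fun i => ((‖cf x y i‖ ^ 2 : ℝ) : ℂ) := by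
    have h2 : ∀ z : ℂ, (1 - z) * (1 - (starRingEnd ℂ) z) = ((‖1 - z‖ ^ 2 : ℝ) : ℂ) := by
      intro z
      rw [← map_one (starRingEnd ℂ), ← map_sub, map_one, Complex.mul_conj']
      push_cast
      rfl
    have h3 : ∀ z : ℂ, z * (starRingEnd ℂ) z = ((‖z‖ ^ 2 : ℝ) : ℂ) := by
      intro z
      rw [Complex.mul_conj']
      push_cast
      rfl
    funext i
    fin_cases i
    · exact h3 x
    · exact h2 x
    · exact h3 y
    · exact h2 y
  rw [e, MvPolynomial.aeval_def, MvPolynomial.eval₂_eq'] at h1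
  have h4 : ((∑ m ∈ (NG G).support, nc G m * ∏ i, (‖cf x y i‖ ^ 2) ^ m i : ℝ) : ℂ)
      = 0 := by
    rw [← h1, Complex.ofReal_sum]
    refine Finset.sum_congr rfl fun m _ => ?_
    rw [nc, Complex.ofReal_mul, Complex.ofReal_prod, Complex.ofReal_ratCast,
      eq_ratCast (algebraMap ℚ ℂ)]
    congr 1
    exact Finset.prod_congr rfl fun i _ => by rw [Complex.ofReal_pow]
  exact_mod_cast h4

/-- the degree -/
noncomputable def ndeg (G : MvPolynomial (Fin 2) ℚ) : ℕ :=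
  (NG G).support.sup fun m => ∑ i, m i

private theorem clu_deg {G : MvPolynomial (Fin 2) ℚ} {m : Fin 4 →₀ ℕ} (hm : m ∈ (NG G).support)
    {v : Fin 4 → ℝ} {b : ℝ} (hb : 0 ≤ b) (hv : ∀ i, |v i| ≤ b) :
    |∑ i, (m i : ℝ) * v i| ≤ ndeg G * b := by
  have h1 : ∑ i, m i ≤ ndeg G := Finset.le_sup (f := fun m : Fin 4 →₀ ℕ => ∑ i, m i) hm
  have h2 : ((∑ i, m i : ℕ) : ℝ) ≤ ndeg G := by exact_mod_cast h1
  calc |∑ i, (m i : ℝ) * v i| ≤ ∑ i, |(m i : ℝ) * v i| := Finset.abs_sum_le_sum_abs _ _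
    _ ≤ ∑ i, (m i : ℝ) * b := by
        refine Finset.sum_le_sum fun i _ => ?_
        rw [abs_mul, abs_of_nonneg (Nat.cast_nonneg _)]
        exact mul_le_mul_of_nonneg_left (hv i) (Nat.cast_nonneg _)
    _ = ((∑ i, m i : ℕ) : ℝ) * b := by rw [← Finset.sum_mul]; push_cast; rfl
    _ ≤ ndeg G * b := mul_le_mul_of_nonneg_right h2 hb

/-- the points -/
structure Pt (G : MvPolynomial (Fin 2) ℚ) (a : Fin 4 → ℤ) (B η : ℝ) (x y : ℂ) (s : ℝ) : Prop where
  x0 : x ≠ 0
  x1 : x ≠ 1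
  y0 : y ≠ 0
  y1 : y ≠ 1
  zero : MvPolynomial.aeval ![x, y] G = 0
  bd : ∀ k, |s * a k| ≤ B
  near : ∀ k, |log ‖cf x y k‖ - s * a k| ≤ η

/-- the coefficients of the exponential sum -/
noncomputable def cb (G : MvPolynomial (Fin 2) ℚ) (a : Fin 4 → ℤ) (c : ℤ) : ℝ :=
  ∑ m ∈ (NG G).support with dt m a = c, nc G m

/-- the exponents -/
noncomputable def cT (G : MvPolynomial (Fin 2) ℚ) (a : Fin 4 → ℤ) : Finset ℤ :=
  (NG G).support.image fun m => dt m a

private theorem clu_ne {G : MvPolynomial (Fin 2) ℚ} {a : Fin 4 → ℤ} {B η : ℝ} {x y : ℂ} {s : ℝ}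
    (h : Pt G a B η x y s) (k : Fin 4) : cf x y k ≠ 0 := by
  fin_cases k
  · exact h.x0
  · exact sub_ne_zero.2 h.x1.symm
  · exact h.y0
  · exact sub_ne_zero.2 h.y1.symm

/-- the sum of the absolute values of the coefficients -/
noncomputable def nco (G : MvPolynomial (Fin 2) ℚ) : ℝ :=
  ∑ m ∈ (NG G).support, |nc G m|

private theorem clu_sum {G : MvPolynomial (Fin 2) ℚ} {a : Fin 4 → ℤ} {B η : ℝ} {x y : ℂ} {s : ℝ}
    (hB : 0 ≤ B) (hη : 0 ≤ η) (hη1 : η ≤ 1) (h : Pt G a B η x y s) :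
    |∑ c ∈ cT G a, cb G a c * exp (c * (2 * s))| ≤
      nco G * (exp (ndeg G * (2 * (B + 1))) * (ndeg G * (2 * η))) := by
  have h1 : ∑ c ∈ cT G a, cb G a c * exp (c * (2 * s)) =
      ∑ m ∈ (NG G).support, nc G m * exp (dt m a * (2 * s)) := by
    rw [← Finset.sum_fiberwise_of_maps_to (s := (NG G).support) (t := cT G a)
      (g := fun m => dt m a) (fun m hm => Finset.mem_image_of_mem _ hm)]
    refine Finset.sum_congr rfl fun c _ => ?_
    rw [cb, Finset.sum_mul]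
    refine Finset.sum_congr rfl fun m hm => ?_
    rw [(Finset.mem_filter.1 hm).2]
  have h2 := clu_zero h.zero
  have h3 : ∀ m ∈ (NG G).support, |nc G m * exp (dt m a * (2 * s)) -
      nc G m * ∏ i, (‖cf x y i‖ ^ 2) ^ m i| ≤
      |nc G m| * (exp (ndeg G * (2 * (B + 1))) * (ndeg G * (2 * η))) := by
    intro m hm
    rw [← mul_sub, abs_mul]
    refine mul_le_mul_of_nonneg_left ?_ (abs_nonneg _)
    have h4 : ∏ i, (‖cf x y i‖ ^ 2) ^ m i = exp (∑ i, (m i : ℝ) * (2 * log ‖cf x y i‖)) := by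
      rw [exp_sum]
      refine Finset.prod_congr rfl fun i _ => ?_
      have h5 : 0 < ‖cf x y i‖ := norm_pos_iff.2 (clu_ne h i)
      rw [exp_nat_mul, two_mul, exp_add, exp_log h5, sq]
    have h6 : (dt m a : ℝ) * (2 * s) = ∑ i, (m i : ℝ) * (2 * (s * a i)) := by
      rw [dt]
      push_cast
      rw [Finset.sum_mul]
      exact Finset.sum_congr rfl fun i _ => by ring
    have h7 : ∀ i, |2 * (s * (a i : ℝ))| ≤ 2 * (B + 1) := by
      intro i
      rw [abs_mul, abs_of_pos (by norm_num : (0 : ℝ) < 2)]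
      have := h.bd i
      linarith
    have h8 : ∀ i, |2 * log ‖cf x y i‖| ≤ 2 * (B + 1) := by
      intro i
      rw [abs_mul, abs_of_pos (by norm_num : (0 : ℝ) < 2)]
      have := h.bd i
      have := h.near i
      have := abs_add_le (log ‖cf x y i‖ - s * a i) (s * a i)
      rw [sub_add_cancel] at this
      linarith
    have h9 : ∀ i, |2 * (s * (a i : ℝ)) - 2 * log ‖cf x y i‖| ≤ 2 * η := by
      intro i
      rw [← mul_sub, abs_mul, abs_of_pos (by norm_num : (0 : ℝ) < 2), abs_sub_comm]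
      have := h.near i
      linarith
    rw [h4, h6]
    refine (abs_exp_sub (L := ndeg G * (2 * (B + 1)))
      ((le_abs_self _).trans (clu_deg hm (by linarith) h7))
      ((le_abs_self _).trans (clu_deg hm (by linarith) h8))).trans ?_
    refine mul_le_mul_of_nonneg_left ?_ (exp_pos _).le
    rw [← Finset.sum_sub_distrib]
    simp only [← mul_sub]
    have h10 := clu_deg hm (v := fun i => 2 * (s * (a i : ℝ)) - 2 * log ‖cf x y i‖)
      (b := 2 * η) (by linarith) h9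
    simpa only [mul_sub] using h10
  calc |∑ c ∈ cT G a, cb G a c * exp (c * (2 * s))| =
        |∑ m ∈ (NG G).support, (nc G m * exp (dt m a * (2 * s)) -
          nc G m * ∏ i, (‖cf x y i‖ ^ 2) ^ m i)| := by
        rw [Finset.sum_sub_distrib, h2, sub_zero, h1]
    _ ≤ ∑ m ∈ (NG G).support, |nc G m * exp (dt m a * (2 * s)) -
          nc G m * ∏ i, (‖cf x y i‖ ^ 2) ^ m i| := Finset.abs_sum_le_sum_abs _ _
    _ ≤ ∑ m ∈ (NG G).support,
          |nc G m| * (exp (ndeg G * (2 * (B + 1))) * (ndeg G * (2 * η))) :=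
        Finset.sum_le_sum h3
    _ = _ := by rw [← Finset.sum_mul]; rfl

/-- separated values of `s` -/
private theorem clu_sep {G : MvPolynomial (Fin 2) ℚ} {r : Fin 4 → ℤ} (hr : r ≠ 0) (hG : Good G r)
    {B : ℝ} (hB : 0 ≤ B) : ∃ Q : ℝ, 0 < Q ∧ ∀ a : Fin 4 → ℤ, a ≠ 0 →
    ¬ (TypeI r a ∨ TypeII r a) → ∀ η σ : ℝ, 0 ≤ η → η ≤ 1 → 0 < σ → σ ≤ 1 →
    η * Q < σ ^ (NG G).support.card → ∀ E : Finset ℝ, (∀ s ∈ E, ∃ x y, Pt G a B η x y s) →
    (∀ s ∈ E, ∀ s' ∈ E, s ≠ s' → σ ≤ |s - s'|) → E.card < 2 ^ (NG G).support.card := by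
  obtain ⟨b0, hb0, hb⟩ := clu_min (NG G).support.powerset (fun P => ∑ m ∈ P, nc G m)
  set Λ : ℝ := ndeg G * (2 * B) with hΛ
  set C1 : ℝ := nco G * (exp (ndeg G * (2 * (B + 1))) * (ndeg G * 2)) with hC1
  have hΛ0 : 0 ≤ Λ := by positivity
  have hnco : 0 ≤ nco G := Finset.sum_nonneg fun m _ => abs_nonneg _
  have hC10 : 0 ≤ C1 := by positivity
  set M := (NG G).support.card with hM
  set W : ℝ := C1 * (exp (2 * Λ)) ^ M * exp Λ with hW
  have hW0 : 0 ≤ W := by positivity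
  refine ⟨(W + 1) / b0, by positivity, fun a ha hT η σ hη hη1 hσ hσ1 hησ E hE hsep => ?_⟩
  by_contra hcard
  push Not at hcard
  obtain ⟨c0, hc0⟩ := exists_class hr hG a ha hT
  have hcb : cb G a c0 ≠ 0 := by
    have : cb G a c0 = ((∑ m ∈ (NG G).support with dt m a = c0, (NG G).coeff m : ℚ) : ℝ) := by
      rw [cb]
      push_cast
      rfl
    rw [this]
    exact_mod_cast hc0
  have hcT : c0 ∈ cT G a := by
    by_contra hc
    apply hcb
    rw [cb]
    apply Finset.sum_eq_zero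
    intro m hm
    exact absurd (Finset.mem_image.2 ⟨m, (Finset.mem_filter.1 hm).1, (Finset.mem_filter.1 hm).2⟩) hc
  have hbc : b0 ≤ |cb G a c0| := hb _ (Finset.mem_powerset.2 (Finset.filter_subset _ _)) hcb
  obtain ⟨n, hn⟩ : ∃ n, (cT G a).card = n + 1 :=
    ⟨(cT G a).card - 1, by have := Finset.card_pos.2 ⟨c0, hcT⟩; omega⟩
  have hnM : n + 1 ≤ M := by rw [← hn]; exact Finset.card_image_le
  have h2 : 2 ^ n ≤ E.card := (Nat.pow_le_pow_right (by norm_num) (by omega)).trans hcard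
  set em := E.orderEmbOfFin rfl with hem
  set t : ℕ → ℝ := fun i => if h : i < E.card then em ⟨i, h⟩ else 0 with ht
  have htE : ∀ i, i < 2 ^ n → t i ∈ E := by
    intro i hi
    rw [ht]
    simp only
    rw [dif_pos (by omega : i < E.card)]
    exact Finset.orderEmbOfFin_mem E rfl _
  have hgap : ∀ i, i + 1 < 2 ^ n → σ ≤ t (i + 1) - t i := by
    intro i hi
    have h3 : t i < t (i + 1) := by
      rw [ht]
      simp only
      rw [dif_pos (by omega : i < E.card), dif_pos (by omega : i + 1 < E.card)]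
      exact em.strictMono (Fin.mk_lt_mk.2 (Nat.lt_succ_self i))
    have h4 := hsep _ (htE _ hi) _ (htE i (by omega)) h3.ne'
    rwa [abs_of_pos (sub_pos.2 h3)] at h4
  have key := turan n (cT G a) (cb G a) c0 hcT hn Λ (2 * σ) (C1 * η) (by positivity)
    (by positivity) (fun i => 2 * t i) (fun i hi => by
      have := hgap i hi
      linarith) (fun i hi c hc => by
      obtain ⟨x, y, hp⟩ := hE _ (htE i hi)
      obtain ⟨m, hm, rfl⟩ := Finset.mem_image.1 hc
      have h6 : (dt m a : ℝ) * (2 * t i) = ∑ i', (m i' : ℝ) * (2 * (t i * a i')) := by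
        rw [dt]
        push_cast
        rw [Finset.sum_mul]
        exact Finset.sum_congr rfl fun i _ => by ring
      rw [h6]
      refine clu_deg hm (by linarith) fun k => ?_
      rw [abs_mul, abs_of_pos (by norm_num : (0 : ℝ) < 2)]
      have := hp.bd k
      linarith) (fun i hi => by
      obtain ⟨x, y, hp⟩ := hE _ (htE i hi)
      refine (clu_sum hB hη hη1 hp).trans (le_of_eq ?_)
      rw [hC1]
      ring)
  have h7 : 2 * exp (2 * Λ) / (2 * σ) = exp (2 * Λ) / σ := by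
    field_simp
  have h8 : 1 ≤ exp (2 * Λ) / σ := by
    rw [le_div_iff₀ hσ, one_mul]
    exact hσ1.trans (one_le_exp (by positivity))
  have h9 : (exp (2 * Λ) / σ) ^ n ≤ (exp (2 * Λ) / σ) ^ M := pow_le_pow_right₀ h8 (by omega)
  rw [h7] at key
  have h10 : b0 ≤ η * W / σ ^ M := by
    refine hbc.trans (key.trans ?_)
    calc C1 * η * (exp (2 * Λ) / σ) ^ n * exp Λ ≤ C1 * η * (exp (2 * Λ) / σ) ^ M * exp Λ := by
          gcongr
      _ = η * W / σ ^ M := by
          rw [hW, div_pow]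
          ring
  rw [le_div_iff₀ (by positivity)] at h10
  have h11 : η * (W + 1) < σ ^ M * b0 := by
    rw [← mul_div_assoc, div_lt_iff₀ hb0] at hησ
    exact hησ
  nlinarith [mul_comm b0 (σ ^ M)]

private theorem clu_cover {P : Set ℝ} {σ : ℝ} {K : ℕ}
    (h : ∀ E : Finset ℝ, (∀ s ∈ E, s ∈ P) → (∀ s ∈ E, ∀ s' ∈ E, s ≠ s' → σ ≤ |s - s'|) →
      E.card < K) :
    ∃ E : Finset ℝ, (∀ s ∈ E, s ∈ P) ∧ E.card < K ∧ ∀ s ∈ P, ∃ e ∈ E, s = e ∨ |s - e| < σ := by
  classical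
  by_contra hcon
  push Not at hcon
  have key : ∀ k : ℕ, ∃ E : Finset ℝ, (∀ s ∈ E, s ∈ P) ∧
      (∀ s ∈ E, ∀ s' ∈ E, s ≠ s' → σ ≤ |s - s'|) ∧ E.card = k := by
    intro k
    induction k with
    | zero =>
      exact ⟨∅, fun s hs => absurd hs (Finset.notMem_empty _),
        fun s hs => absurd hs (Finset.notMem_empty _), rfl⟩
    | succ k ih =>
      obtain ⟨E, h1, h2, h3⟩ := ih
      obtain ⟨s, hs, h4⟩ := hcon E h1 (h E h1 h2)
      have hsE : s ∉ E := fun hsE => (h4 s hsE).1 rfl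
      refine ⟨insert s E, ?_, ?_, by rw [Finset.card_insert_of_notMem hsE, h3]⟩
      · intro s' hs'
        rcases Finset.mem_insert.1 hs' with rfl | hs'
        · exact hs
        · exact h1 _ hs'
      · intro u hu v hv huv
        rcases Finset.mem_insert.1 hu with hu1 | hu1 <;>
          rcases Finset.mem_insert.1 hv with hv1 | hv1
        · exact absurd (hu1.trans hv1.symm) huv
        · rw [hu1]
          exact (h4 v hv1).2
        · rw [abs_sub_comm, hv1]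
          exact (h4 u hu1).2
        · exact h2 u hu1 v hv1 huv
  obtain ⟨E, h1, h2, h3⟩ := key K
  exact absurd (h E h1 h2) (by omega)

private theorem clu_im {a b τ : ℝ} (h : |a ^ 2 - b ^ 2| ≤ τ) :
    (a - b) ^ 2 ≤ τ ∨ (a + b) ^ 2 ≤ τ := by
  have e : |a - b| * |a + b| ≤ τ := by
    rw [← abs_mul]
    have : (a - b) * (a + b) = a ^ 2 - b ^ 2 := by ring
    rwa [this]
  rcases le_total 0 (a * b) with h0 | h0
  · left
    have h1 : |a - b| ≤ |a + b| := sq_le_sq.1 (by nlinarith)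
    calc (a - b) ^ 2 = |a - b| * |a - b| := by rw [← sq, sq_abs]
      _ ≤ |a - b| * |a + b| := mul_le_mul_of_nonneg_left h1 (abs_nonneg _)
      _ ≤ τ := e
  · right
    have h1 : |a + b| ≤ |a - b| := sq_le_sq.1 (by nlinarith)
    calc (a + b) ^ 2 = |a + b| * |a + b| := by rw [← sq, sq_abs]
      _ ≤ |a - b| * |a + b| := mul_le_mul_of_nonneg_right h1 (abs_nonneg _)
      _ ≤ τ := e

private theorem clu_close {x x' : ℂ} {τ R ρ : ℝ} (h0 : |‖x‖ ^ 2 - ‖x'‖ ^ 2| ≤ τ)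
    (h1 : |‖1 - x‖ ^ 2 - ‖1 - x'‖ ^ 2| ≤ τ) (hR : ‖x‖ ≤ R) (hR' : ‖x'‖ ≤ R) (hρ : 0 < ρ)
    (hρ1 : ρ ≤ 1) (hτ : τ * (4 * (1 + 2 * R)) ≤ ρ ^ 2) :
    ‖x - x'‖ ≤ ρ ∨ ‖x - (starRingEnd ℂ) x'‖ ≤ ρ := by
  have hn : ∀ z : ℂ, ‖z‖ ^ 2 = z.re ^ 2 + z.im ^ 2 := by
    intro z
    rw [← Complex.normSq_eq_norm_sq, Complex.normSq_apply]
    ring
  have hR0 : 0 ≤ R := (norm_nonneg _).trans hR
  have hτ0 : 0 ≤ τ := (abs_nonneg _).trans h0
  have hre : |x.re - x'.re| ≤ τ := by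
    have e : x.re - x'.re = ((‖x‖ ^ 2 - ‖x'‖ ^ 2) - (‖1 - x‖ ^ 2 - ‖1 - x'‖ ^ 2)) / 2 := by
      rw [hn, hn, hn, hn]
      simp only [Complex.sub_re, Complex.sub_im, Complex.one_re, Complex.one_im]
      ring
    rw [e, abs_div, abs_of_pos (by norm_num : (0 : ℝ) < 2)]
    have := abs_sub (‖x‖ ^ 2 - ‖x'‖ ^ 2) (‖1 - x‖ ^ 2 - ‖1 - x'‖ ^ 2)
    rw [div_le_iff₀ (by norm_num)]
    linarith
  have hxr : |x.re + x'.re| ≤ 2 * R := by
    refine (abs_add_le _ _).trans ?_
    have := (Complex.abs_re_le_norm x).trans hR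
    have := (Complex.abs_re_le_norm x').trans hR'
    linarith
  have him : |x.im ^ 2 - x'.im ^ 2| ≤ τ * (1 + 2 * R) := by
    have e : x.im ^ 2 - x'.im ^ 2 = (‖x‖ ^ 2 - ‖x'‖ ^ 2) - (x.re - x'.re) * (x.re + x'.re) := by
      rw [hn, hn]
      ring
    rw [e]
    refine (abs_sub _ _).trans ?_
    rw [abs_mul]
    have := mul_le_mul hre hxr (abs_nonneg _) hτ0
    linarith
  have hρ2 : ρ ^ 2 ≤ 1 := pow_le_one₀ hρ.le hρ1
  have hτ1 : τ ≤ 1 := by nlinarith
  have fin : ∀ {z : ℂ}, z.re ^ 2 ≤ τ ^ 2 → z.im ^ 2 ≤ τ * (1 + 2 * R) → ‖z‖ ≤ ρ := by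
    intro z hz1 hz2
    apply le_of_sq_le_sq _ hρ.le
    rw [hn]
    nlinarith
  have hre2 : (x.re - x'.re) ^ 2 ≤ τ ^ 2 := by
    rw [← sq_abs]
    exact pow_le_pow_left₀ (abs_nonneg _) hre 2
  rcases clu_im him with h2 | h2
  · left
    exact fin (by simpa using hre2) (by simpa using h2)
  · right
    exact fin (by simpa using hre2) (by simpa using h2)

/-- **Clusters.** The points of the curve `G = 0` whose logarithms are very close to the line
spanned by a nondegenerate integer direction `a` lie in a bounded number of discs. -/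
theorem clusters {G : MvPolynomial (Fin 2) ℚ} {r : Fin 4 → ℤ} (hr : r ≠ 0) (hG : Good G r)
    {B : ℝ} (hB : 0 ≤ B) : ∃ K C : ℕ, ∀ A ρ η : ℝ, 2 ≤ A → 0 < ρ → ρ ≤ 1 → 0 ≤ η →
    η ≤ (ρ / A) ^ C → ∀ a : Fin 4 → ℤ, a ≠ 0 → (∀ k, |(a k : ℝ)| ≤ A) →
    ¬ (TypeI r a ∨ TypeII r a) → ∃ S : Finset ℂ, S.card ≤ K ∧ ∀ (x y : ℂ) (s : ℝ),
    Pt G a B η x y s → (∃ z ∈ S, ‖x - z‖ ≤ ρ) ∧ ∃ z ∈ S, ‖y - z‖ ≤ ρ := by
  classical
  obtain ⟨Q, hQ, hsep⟩ := clu_sep hr hG hB
  set M := (NG G).support.card with hM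
  set R : ℝ := exp (B + 1) with hR
  have hR1 : 1 ≤ R := one_le_exp (by linarith)
  set C6 : ℝ := 2 * exp (2 * (B + 1)) * (4 * (1 + 2 * R)) with hC6
  have he1 : 1 ≤ exp (2 * (B + 1)) := one_le_exp (by linarith)
  have hC61 : 1 ≤ C6 := by rw [hC6]; nlinarith
  obtain ⟨D, hD⟩ := exists_pow_lt_of_lt_one (x := 1 / (Q * (2 * C6) ^ M + 4 * C6 + 1))
    (y := (1 / 2 : ℝ)) (by positivity) (by norm_num)
  refine ⟨4 * 2 ^ M, 2 * M + 2 + D, fun A ρ η hA hρ hρ1 hη hηC a ha haA hT => ?_⟩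
  have hA0 : 0 < A := by linarith
  set q : ℝ := ρ / A with hq
  have hq0 : 0 < q := by positivity
  have hq2 : q ≤ 1 / 2 := by
    rw [hq, div_le_div_iff₀ hA0 (by norm_num)]
    linarith
  have hqρ : q ≤ ρ := by
    rw [hq, div_le_iff₀ hA0]
    nlinarith
  have hηD : η * (Q * (2 * C6) ^ M + 4 * C6 + 1) < q ^ (2 * M + 2) := by
    have h1 : q ^ D < 1 / (Q * (2 * C6) ^ M + 4 * C6 + 1) :=
      (pow_le_pow_left₀ hq0.le hq2 D).trans_lt hD
    rw [lt_div_iff₀ (by positivity)] at h1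
    rw [pow_add] at hηC
    have hqM : 0 < q ^ (2 * M + 2) := by positivity
    calc η * (Q * (2 * C6) ^ M + 4 * C6 + 1) ≤
          q ^ (2 * M + 2) * q ^ D * (Q * (2 * C6) ^ M + 4 * C6 + 1) :=
          mul_le_mul_of_nonneg_right hηC (by positivity)
      _ = q ^ (2 * M + 2) * (q ^ D * (Q * (2 * C6) ^ M + 4 * C6 + 1)) := by ring
      _ < q ^ (2 * M + 2) * 1 := mul_lt_mul_of_pos_left h1 hqM
      _ = _ := mul_one _
  have hqM1 : q ^ (2 * M) ≤ 1 := pow_le_one₀ hq0.le (by linarith)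
  have hη4 : η * (4 * C6) ≤ ρ ^ 2 := by
    have h1 : η * (4 * C6) ≤ η * (Q * (2 * C6) ^ M + 4 * C6 + 1) :=
      mul_le_mul_of_nonneg_left (by nlinarith [show 0 ≤ Q * (2 * C6) ^ M by positivity]) hη
    have h2 : q ^ (2 * M + 2) ≤ ρ ^ 2 := by
      rw [pow_add]
      calc q ^ (2 * M) * q ^ 2 ≤ 1 * q ^ 2 := mul_le_mul_of_nonneg_right hqM1 (by positivity)
        _ ≤ ρ ^ 2 := by rw [one_mul]; exact pow_le_pow_left₀ hq0.le hqρ 2
    linarith
  have hη1 : η ≤ 1 := by nlinarith [pow_le_one₀ hρ.le hρ1 (n := 2)]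
  set σ : ℝ := ρ ^ 2 / (2 * C6 * A) with hσ
  have hσ0 : 0 < σ := by positivity
  have hσ1 : σ ≤ 1 := by
    rw [hσ, div_le_one (by positivity)]
    nlinarith [pow_le_one₀ hρ.le hρ1 (n := 2)]
  have hησ : η * Q < σ ^ M := by
    have h1 : q ^ 2 / (2 * C6) ≤ σ := by
      rw [hσ, hq, div_pow, div_div, div_le_div_iff₀ (by positivity) (by positivity)]
      have : 0 ≤ ρ ^ 2 * C6 * A * (A - 1) := by
        have : 0 ≤ A - 1 := by linarith
        positivity
      nlinarith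
    have h2 : (q ^ 2 / (2 * C6)) ^ M ≤ σ ^ M := pow_le_pow_left₀ (by positivity) h1 M
    refine lt_of_lt_of_le ?_ h2
    rw [div_pow, lt_div_iff₀ (by positivity), ← pow_mul, mul_assoc]
    have h3 : η * (Q * (2 * C6) ^ M) ≤ η * (Q * (2 * C6) ^ M + 4 * C6 + 1) :=
      mul_le_mul_of_nonneg_left (by linarith) hη
    have h4 : q ^ (2 * M + 2) ≤ q ^ (2 * M) :=
      pow_le_pow_of_le_one hq0.le (by linarith) (by omega)
    linarith
  obtain ⟨E, hE, hEc, hcov⟩ := clu_cover (P := {s | ∃ x y, Pt G a B η x y s}) (σ := σ)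
    (K := 2 ^ M) (fun E h1 h2 => hsep a ha hT η σ hη hη1 hσ0 hσ1 hησ E h1 h2)
  choose! X Y hXY using hE
  refine ⟨(E.image X ∪ E.image fun e => (starRingEnd ℂ) (X e)) ∪
    (E.image Y ∪ E.image fun e => (starRingEnd ℂ) (Y e)), ?_, ?_⟩
  · have h1 := Finset.card_union_le (E.image X ∪ E.image fun e => (starRingEnd ℂ) (X e))
      (E.image Y ∪ E.image fun e => (starRingEnd ℂ) (Y e))
    have h2 := Finset.card_union_le (E.image X) (E.image fun e => (starRingEnd ℂ) (X e))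
    have h3 := Finset.card_union_le (E.image Y) (E.image fun e => (starRingEnd ℂ) (Y e))
    have h4 : (E.image X).card ≤ E.card := Finset.card_image_le
    have h5 : (E.image fun e => (starRingEnd ℂ) (X e)).card ≤ E.card := Finset.card_image_le
    have h6 : (E.image Y).card ≤ E.card := Finset.card_image_le
    have h7 : (E.image fun e => (starRingEnd ℂ) (Y e)).card ≤ E.card := Finset.card_image_le
    omega
  · intro x y s hp
    obtain ⟨e, heE, hes⟩ := hcov s ⟨x, y, hp⟩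
    have hpe := hXY e heE
    have hse : |s - e| ≤ σ := by
      rcases hes with rfl | h
      · rw [sub_self, abs_zero]
        exact hσ0.le
      · exact h.le
    have hlog : ∀ k, |log ‖cf x y k‖ - log ‖cf (X e) (Y e) k‖| ≤ 2 * η + A * σ := by
      intro k
      have h1 := hp.near k
      have h2 := hpe.near k
      have h3 : |s * a k - e * a k| ≤ A * σ := by
        rw [← sub_mul, abs_mul, mul_comm]
        exact mul_le_mul (haA k) hse (abs_nonneg _) hA0.le
      rw [abs_le] at *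
      constructor <;> linarith [h1.1, h1.2, h2.1, h2.2, h3.1, h3.2]
    have hbd : ∀ {x y : ℂ} {s : ℝ}, Pt G a B η x y s → ∀ k, log ‖cf x y k‖ ≤ B + 1 := by
      intro x y s hp k
      have h1 := (abs_le.1 (hp.near k)).2
      have h2 := (abs_le.1 (hp.bd k)).2
      linarith
    have hsq : ∀ {x y : ℂ} {s : ℝ}, Pt G a B η x y s → ∀ k, ‖cf x y k‖ ^ 2 =
        exp (2 * log ‖cf x y k‖) := by
      intro x y s hp k
      rw [two_mul, exp_add, exp_log (norm_pos_iff.2 (clu_ne hp k)), sq]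
    have hno : ∀ {x y : ℂ} {s : ℝ}, Pt G a B η x y s → ∀ k, ‖cf x y k‖ ≤ R := by
      intro x y s hp k
      rw [← exp_log (norm_pos_iff.2 (clu_ne hp k))]
      exact exp_le_exp.2 (hbd hp k)
    set τ : ℝ := exp (2 * (B + 1)) * (2 * (2 * η + A * σ)) with hτ
    have hdiff : ∀ k, |‖cf x y k‖ ^ 2 - ‖cf (X e) (Y e) k‖ ^ 2| ≤ τ := by
      intro k
      rw [hsq hp, hsq hpe]
      refine (abs_exp_sub (L := 2 * (B + 1)) (by linarith [hbd hp k])
        (by linarith [hbd hpe k])).trans ?_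
      refine mul_le_mul_of_nonneg_left ?_ (exp_pos _).le
      rw [← mul_sub, abs_mul, abs_of_pos (by norm_num : (0 : ℝ) < 2)]
      linarith [hlog k]
    have hτρ : τ * (4 * (1 + 2 * R)) ≤ ρ ^ 2 := by
      have h1 : τ * (4 * (1 + 2 * R)) = C6 * (2 * η) + C6 * (A * σ) := by
        rw [hτ, hC6]
        ring
      have h2 : C6 * (A * σ) = ρ ^ 2 / 2 := by
        rw [hσ]
        field_simp
      rw [h1, h2]
      linarith
    have hx := clu_close (x := x) (x' := X e) (hdiff 0) (hdiff 1) (hno hp 0) (hno hpe 0) hρ hρ1 hτρ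
    have hy := clu_close (x := y) (x' := Y e) (hdiff 2) (hdiff 3) (hno hp 2) (hno hpe 2) hρ hρ1 hτρ
    constructor
    · rcases hx with hx | hx
      · exact ⟨X e, Finset.mem_union_left _ (Finset.mem_union_left _
          (Finset.mem_image_of_mem _ heE)), hx⟩
      · exact ⟨_, Finset.mem_union_left _ (Finset.mem_union_right _
          (Finset.mem_image_of_mem (fun e => (starRingEnd ℂ) (X e)) heE)), hx⟩
    · rcases hy with hy | hy
      · exact ⟨Y e, Finset.mem_union_right _ (Finset.mem_union_left _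
          (Finset.mem_image_of_mem _ heE)), hy⟩
      · exact ⟨_, Finset.mem_union_right _ (Finset.mem_union_right _
          (Finset.mem_image_of_mem (fun e => (starRingEnd ℂ) (Y e)) heE)), hy⟩

end Pool.Agent.Flat3
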