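import Mathlib

set_option autoImplicit false

/-!
# The polynomial `Δ(p, q)`

`Δ(p, q) = 2 t^p + 2 t^q + 2 t^(p+q) - 1 - t^(2p) - t^(2q)` is sixteen times the square of the area of
the triangle with sides `1, √(t^p), √(t^q)`. Its nonzero roots are simple, and up to a monomial it
determines `p ≤ q`.
-/

namespace Pool.Agent.Flat3

open Polynomial

/-- `Δ(p, q)` -/
noncomputable def Dl (R : Type) [CommRing R] (p q : ℕ) : R[X] :=
  2 * X ^ p + 2 * X ^ q + 2 * X ^ (p + q) - 1 - X ^ (2 * p) - X ^ (2 * q)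

theorem Dl_map {R S : Type} [CommRing R] [CommRing S] (f : R →+* S) (p q : ℕ) :
    (Dl R p q).map f = Dl S p q := by
  simp [Dl]

theorem Dl_eval {R : Type} [CommRing R] (p q : ℕ) (z : R) :
    (Dl R p q).eval z =
      2 * z ^ p + 2 * z ^ q + 2 * (z ^ p * z ^ q) - 1 - (z ^ p) ^ 2 - (z ^ q) ^ 2 := by
  simp [Dl, pow_add, pow_mul]
  ring

private theorem dl_mul_deriv (n : ℕ) (z : ℂ) :
    z * (derivative (X ^ n : ℂ[X])).eval z = n * z ^ n := by
  rcases n with _ | n
  · simp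
  · rw [derivative_X_pow, Nat.add_sub_cancel]
    simp only [eval_mul, eval_C, eval_pow, eval_X]
    ring

theorem Dl_deriv (p q : ℕ) (z : ℂ) : z * (derivative (Dl ℂ p q)).eval z =
    p * z ^ p * (2 + 2 * z ^ q - 2 * z ^ p) + q * z ^ q * (2 + 2 * z ^ p - 2 * z ^ q) := by
  have h2 : (2 : ℂ[X]) = C 2 := rfl
  have e : (derivative (Dl ℂ p q)).eval z = 2 * (derivative (X ^ p : ℂ[X])).eval z +
      2 * (derivative (X ^ q : ℂ[X])).eval z + 2 * (derivative (X ^ (p + q) : ℂ[X])).eval z -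
      (derivative (X ^ (2 * p) : ℂ[X])).eval z - (derivative (X ^ (2 * q) : ℂ[X])).eval z := by
    rw [Dl, h2]
    simp only [derivative_sub, derivative_add, derivative_C_mul, derivative_one, eval_sub,
      eval_add, eval_mul, eval_C, sub_zero]
  have h1 := dl_mul_deriv p z
  have h3 := dl_mul_deriv q z
  have h4 := dl_mul_deriv (p + q) z
  have h5 := dl_mul_deriv (2 * p) z
  have h6 := dl_mul_deriv (2 * q) z
  rw [e]
  have e2 : z * (2 * (derivative (X ^ p : ℂ[X])).eval z +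
      2 * (derivative (X ^ q : ℂ[X])).eval z + 2 * (derivative (X ^ (p + q) : ℂ[X])).eval z -
      (derivative (X ^ (2 * p) : ℂ[X])).eval z - (derivative (X ^ (2 * q) : ℂ[X])).eval z) =
      2 * (z * (derivative (X ^ p : ℂ[X])).eval z) + 2 * (z * (derivative (X ^ q : ℂ[X])).eval z) +
      2 * (z * (derivative (X ^ (p + q) : ℂ[X])).eval z) -
      z * (derivative (X ^ (2 * p) : ℂ[X])).eval z -
      z * (derivative (X ^ (2 * q) : ℂ[X])).eval z := by ring
  rw [e2, h1, h3, h4, h5, h6]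
  push_cast
  rw [pow_add, mul_comm 2 p, mul_comm 2 q, pow_mul, pow_mul]
  ring

/-- the elementary inequality -/
theorem pow_self_lt {p q : ℕ} (hp : 0 < p) (hpq : p < q) :
    p ^ p * (q - p) ^ (q - p) < q ^ q := by
  calc p ^ p * (q - p) ^ (q - p) < q ^ p * q ^ (q - p) :=
        Nat.mul_lt_mul_of_lt_of_le (Nat.pow_lt_pow_left hpq hp.ne')
          (Nat.pow_le_pow_left (Nat.sub_le _ _) _) (Nat.pow_pos (hp.trans hpq))
    _ = q ^ q := by rw [← pow_add]; congr 1; omega

/-- at a nonzero root of `Δ` there are square roots of `z ^ p`, `z ^ q` with sum `-1` -/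
theorem exists_roots {p q : ℕ} {z : ℂ} (h : (Dl ℂ p q).eval z = 0) :
    ∃ P Q : ℂ, P ^ 2 = z ^ p ∧ Q ^ 2 = z ^ q ∧ 1 + P + Q = 0 := by
  obtain ⟨s, hs⟩ := IsAlgClosed.exists_pow_nat_eq (z ^ p) (n := 2) (by norm_num)
  obtain ⟨t, ht⟩ := IsAlgClosed.exists_pow_nat_eq (z ^ q) (n := 2) (by norm_num)
  rw [Dl_eval, ← hs, ← ht] at h
  have h' : (1 + s + t) * (1 + -s + -t) * ((1 + s + -t) * (1 + -s + t)) = 0 := by
    linear_combination -h
  rcases mul_eq_zero.1 h' with h1 | h1
  · rcases mul_eq_zero.1 h1 with h2 | h2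
    · exact ⟨s, t, hs, ht, h2⟩
    · exact ⟨-s, -t, by rw [neg_sq, hs], by rw [neg_sq, ht], h2⟩
  · rcases mul_eq_zero.1 h1 with h2 | h2
    · exact ⟨s, -t, hs, by rw [neg_sq, ht], h2⟩
    · exact ⟨-s, t, by rw [neg_sq, hs], ht, h2⟩

/-- the nonzero roots of `Δ` are simple -/
theorem deriv_ne {p q : ℕ} (hpq : p ≤ q) (hq : 0 < q) {z : ℂ} (hz : z ≠ 0)
    (h : (Dl ℂ p q).eval z = 0) : (derivative (Dl ℂ p q)).eval z ≠ 0 := by
  obtain ⟨P, Q, hP, hQ, hPQ⟩ := exists_roots h
  intro h0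
  have h1 := Dl_deriv p q z
  rw [h0, mul_zero, ← hP, ← hQ] at h1
  have hP0 : P ≠ 0 := by
    rintro rfl
    exact pow_ne_zero p hz (by rw [← hP]; ring)
  have hQ0 : Q ≠ 0 := by
    rintro rfl
    exact pow_ne_zero q hz (by rw [← hQ]; ring)
  have hQe : Q = -1 - P := by linear_combination hPQ
  have h2 : P * Q * (p * P + q * Q) = 0 := by
    have e : (p : ℂ) * P ^ 2 * (2 + 2 * Q ^ 2 - 2 * P ^ 2) +
        q * Q ^ 2 * (2 + 2 * P ^ 2 - 2 * Q ^ 2) = -4 * (P * Q * (p * P + q * Q)) := by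
      rw [hQe]; ring
    rw [e] at h1
    have h3 : (-4 : ℂ) ≠ 0 := by norm_num
    exact (mul_eq_zero.1 h1.symm).resolve_left h3
  have h3 : (p : ℂ) * P + q * Q = 0 := (mul_eq_zero.1 h2).resolve_left (mul_ne_zero hP0 hQ0)
  -- `(q - p) Q = p`, `(q - p) P = - q`
  have h4 : ((q : ℂ) - p) * Q = p := by linear_combination h3 - (p : ℂ) * hPQ
  have h5 : ((q : ℂ) - p) * P = -q := by linear_combination (q : ℂ) * hPQ - h3
  have hp : 0 < p := by
    rcases Nat.eq_zero_or_pos p with rfl | hp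
    · exfalso
      rw [Nat.cast_zero, sub_zero] at h4
      rcases mul_eq_zero.1 h4 with h6 | h6
      · exact hq.ne' (by exact_mod_cast h6)
      · exact hQ0 h6
    · exact hp
  have hpq' : p < q := by
    rcases hpq.lt_or_eq with h6 | h6
    · exact h6
    · exfalso
      rw [h6, sub_self, zero_mul] at h4
      exact hq.ne' (by exact_mod_cast h4.symm)
  have n4 : ((q - p : ℕ) : ℝ) * ‖Q‖ = p := by
    have := congrArg norm h4
    rw [norm_mul] at this
    rw [← Nat.cast_sub hpq, Complex.norm_natCast, Complex.norm_natCast] at this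
    exact this
  have n5 : ((q - p : ℕ) : ℝ) * ‖P‖ = q := by
    have := congrArg norm h5
    rw [norm_mul, norm_neg, ← Nat.cast_sub hpq, Complex.norm_natCast,
      Complex.norm_natCast] at this
    exact this
  have n6 : (‖P‖ ^ q) ^ 2 = (‖Q‖ ^ p) ^ 2 := by
    have e1 : (P ^ q) ^ 2 = (Q ^ p) ^ 2 := by
      rw [← pow_mul, ← pow_mul, mul_comm q 2, mul_comm p 2, pow_mul, pow_mul, hP, hQ, ← pow_mul,
        ← pow_mul, mul_comm]
    have := congrArg norm e1
    simpa [norm_pow] using this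
  have n7 : ‖P‖ ^ q = ‖Q‖ ^ p :=
    (pow_left_inj₀ (by positivity) (by positivity) (by norm_num)).1 n6
  have hd : (0 : ℝ) < ((q - p : ℕ) : ℝ) := by
    have : 0 < q - p := by omega
    exact_mod_cast this
  have n8 : (q : ℝ) ^ q = p ^ p * ((q - p : ℕ) : ℝ) ^ (q - p) := by
    have e1 : (((q - p : ℕ) : ℝ) * ‖P‖) ^ q = (q : ℝ) ^ q := by rw [n5]
    have e2 : (((q - p : ℕ) : ℝ) * ‖Q‖) ^ p = (p : ℝ) ^ p := by rw [n4]
    rw [mul_pow] at e1 e2
    rw [← e1, n7, ← e2]
    have e3 : ((q - p : ℕ) : ℝ) ^ q = ((q - p : ℕ) : ℝ) ^ p * ((q - p : ℕ) : ℝ) ^ (q - p) := by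
      rw [← pow_add]; congr 1; omega
    rw [e3]
    ring
  have n9 : q ^ q = p ^ p * (q - p) ^ (q - p) := by exact_mod_cast n8
  exact (pow_self_lt hp hpq').ne n9.symm

theorem Dl_coeff (p q n : ℕ) : (Dl ℂ p q).coeff n =
    2 * (if n = p then 1 else 0) + 2 * (if n = q then 1 else 0) +
      2 * (if n = p + q then 1 else 0) - (if n = 0 then 1 else 0) -
      (if n = 2 * p then 1 else 0) - (if n = 2 * q then 1 else 0) := by
  have h2 : (2 : ℂ[X]) = C 2 := rfl
  rw [Dl, h2]
  simp only [coeff_sub, coeff_add, coeff_C_mul, coeff_X_pow, coeff_one]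

theorem Dl_ne {p q : ℕ} : Dl ℂ p q ≠ 0 := by
  intro h
  have := congrArg (eval 1) h
  rw [Dl_eval] at this
  norm_num at this

theorem mult_le {p q : ℕ} (hpq : p ≤ q) (hq : 0 < q) {z : ℂ} (hz : z ≠ 0) :
    (Dl ℂ p q).rootMultiplicity z ≤ 1 := by
  by_contra h
  rw [not_le, one_lt_rootMultiplicity_iff_isRoot Dl_ne] at h
  exact deriv_ne hpq hq hz h.1 h.2

/-- parity -/
theorem mult_eq {A B U V : ℂ[X]} (hA : A ≠ 0) (hB : B ≠ 0) (hU : U ≠ 0) (hV : V ≠ 0)
    (h : A ^ 2 * U = B ^ 2 * V) {z : ℂ} (h1 : U.rootMultiplicity z ≤ 1)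
    (h2 : V.rootMultiplicity z ≤ 1) : U.rootMultiplicity z = V.rootMultiplicity z := by
  have e := congrArg (rootMultiplicity z) h
  rw [rootMultiplicity_mul (mul_ne_zero (pow_ne_zero 2 hA) hU),
    rootMultiplicity_mul (mul_ne_zero (pow_ne_zero 2 hB) hV), pow_two, pow_two,
    rootMultiplicity_mul (mul_ne_zero hA hA), rootMultiplicity_mul (mul_ne_zero hB hB)] at e
  omega

theorem eq_of_mult {U V : ℂ[X]}
    (h : ∀ z, U.rootMultiplicity z = V.rootMultiplicity z) :
    C V.leadingCoeff * U = C U.leadingCoeff * V := by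
  have hr : U.roots = V.roots := by
    ext z
    rw [count_roots, count_roots, h z]
  have e1 := (IsAlgClosed.splits U).eq_prod_roots
  have e2 := (IsAlgClosed.splits V).eq_prod_roots
  calc C V.leadingCoeff * U = C V.leadingCoeff *
        (C U.leadingCoeff * (U.roots.map fun x => X - C x).prod) := by rw [← e1]
    _ = C U.leadingCoeff * (C V.leadingCoeff * (V.roots.map fun x => X - C x).prod) := by
        rw [hr]; ring
    _ = C U.leadingCoeff * V := by rw [← e2]

/-- the constant coefficient, the leading coefficient and the degree of the factor without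
monomials -/
theorem Dl_form {p q : ℕ} (hpq : p ≤ q) (hq : 0 < q) : ∃ (e : ℕ) (E : ℂ[X]),
    Dl ℂ p q = X ^ e * E ∧ E.coeff 0 ≠ 0 ∧
      ((0 < p ∧ p < q ∧ e = 0 ∧ E.coeff 0 = -1 ∧ E.leadingCoeff = -1 ∧ E.natDegree = 2 * q) ∨
       (p = q ∧ e = 0 ∧ E.coeff 0 = -1 ∧ E.leadingCoeff = 4 ∧ E.natDegree = q) ∨
       (p = 0 ∧ e = q ∧ E.coeff 0 = 4 ∧ E.leadingCoeff = -1 ∧ E.natDegree = q)) := by
  have key : ∀ (E : ℂ[X]) (d : ℕ), (∀ n, d < n → E.coeff n = 0) → E.coeff d ≠ 0 →
      E.natDegree = d ∧ E.leadingCoeff = E.coeff d := by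
    intro E d h1 h2
    have h3 : E.natDegree = d :=
      le_antisymm (natDegree_le_iff_coeff_eq_zero.2 h1) (le_natDegree_of_ne_zero h2)
    exact ⟨h3, by rw [leadingCoeff, h3]⟩
  rcases Nat.eq_zero_or_pos p with rfl | hp
  · refine ⟨q, C 4 - X ^ q, ?_, ?_, Or.inr (Or.inr ?_)⟩
    · have h4 : (C 4 : ℂ[X]) = 4 := rfl
      rw [Dl]
      simp only [mul_zero, pow_zero, zero_add]
      rw [two_mul q, pow_add, h4]
      ring
    · rw [coeff_sub, coeff_C_zero, coeff_X_pow, if_neg (by omega)]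
      norm_num
    · have h1 : ∀ n, q < n → (C 4 - X ^ q : ℂ[X]).coeff n = 0 := by
        intro n hn
        rw [coeff_sub, coeff_C, coeff_X_pow, if_neg (by omega), if_neg (by omega), sub_zero]
      have h2 : (C 4 - X ^ q : ℂ[X]).coeff q = -1 := by
        rw [coeff_sub, coeff_C, coeff_X_pow, if_neg (by omega), if_pos rfl, zero_sub]
      obtain ⟨h3, h4⟩ := key _ q h1 (by rw [h2]; norm_num)
      refine ⟨rfl, rfl, ?_, by rw [h4, h2], h3⟩
      rw [coeff_sub, coeff_C_zero, coeff_X_pow, if_neg (by omega), sub_zero]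
  · rcases hpq.lt_or_eq with hlt | rfl
    · have h0 : (Dl ℂ p q).coeff 0 = -1 := by
        rw [Dl_coeff, if_neg (by omega), if_neg (by omega), if_neg (by omega), if_pos rfl,
          if_neg (by omega), if_neg (by omega)]
        norm_num
      have h1 : ∀ n, 2 * q < n → (Dl ℂ p q).coeff n = 0 := by
        intro n hn
        rw [Dl_coeff, if_neg (by omega), if_neg (by omega), if_neg (by omega), if_neg (by omega),
          if_neg (by omega), if_neg (by omega)]
        norm_num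
      have h2 : (Dl ℂ p q).coeff (2 * q) = -1 := by
        rw [Dl_coeff, if_neg (by omega), if_neg (by omega), if_neg (by omega), if_neg (by omega),
          if_neg (by omega), if_pos rfl]
        norm_num
      obtain ⟨h3, h4⟩ := key _ _ h1 (by rw [h2]; norm_num)
      exact ⟨0, Dl ℂ p q, by simp, by rw [h0]; norm_num,
        Or.inl ⟨hp, hlt, rfl, h0, by rw [h4, h2], h3⟩⟩
    · have h0 : (Dl ℂ p p).coeff 0 = -1 := by
        rw [Dl_coeff, if_neg (by omega), if_neg (by omega), if_pos rfl, if_neg (by omega)]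
        norm_num
      have h1 : ∀ n, p < n → (Dl ℂ p p).coeff n = 0 := by
        intro n hn
        rw [Dl_coeff, if_neg (by omega), if_neg (by omega : ¬ n = 0), ← two_mul]
        ring_nf
      have h2 : (Dl ℂ p p).coeff p = 4 := by
        rw [Dl_coeff, if_pos rfl, if_neg (by omega), if_neg (by omega), if_neg (by omega)]
        norm_num
      obtain ⟨h3, h4⟩ := key _ _ h1 (by rw [h2]; norm_num)
      exact ⟨0, Dl ℂ p p, by simp, by rw [h0]; norm_num,
        Or.inr (Or.inl ⟨rfl, rfl, h0, by rw [h4, h2], h3⟩)⟩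

/-- `Δ(p, q)` up to squares determines `p ≤ q`. -/
theorem match_pq {p q p' q' : ℕ} (hpq : p ≤ q) (hq : 0 < q) (hpq' : p' ≤ q') (hq' : 0 < q')
    {A B : ℂ[X]} (hA : A ≠ 0) (hB : B ≠ 0) (h : A ^ 2 * Dl ℂ p q = B ^ 2 * Dl ℂ p' q') :
    p = p' ∧ q = q' := by
  obtain ⟨e, E, hE, hE0, hEt⟩ := Dl_form hpq hq
  obtain ⟨e', E', hE', hE0', hEt'⟩ := Dl_form hpq' hq'
  have hEn : E ≠ 0 := fun h0 => hE0 (by rw [h0, coeff_zero])
  have hEn' : E' ≠ 0 := fun h0 => hE0' (by rw [h0, coeff_zero])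
  have hm : ∀ z : ℂ, E.rootMultiplicity z = E'.rootMultiplicity z := by
    intro z
    by_cases hz : z = 0
    · rw [hz, rootMultiplicity_eq_zero, rootMultiplicity_eq_zero]
      · rw [IsRoot.def, ← coeff_zero_eq_eval_zero]
        exact hE0'
      · rw [IsRoot.def, ← coeff_zero_eq_eval_zero]
        exact hE0
    · have h1 := mult_eq hA hB Dl_ne Dl_ne h (mult_le hpq hq hz) (mult_le hpq' hq' hz)
      have h2 : ∀ (e : ℕ) (E : ℂ[X]), E ≠ 0 →
          (X ^ e * E).rootMultiplicity z = E.rootMultiplicity z := by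
        intro e E hE
        rw [rootMultiplicity_mul (mul_ne_zero (pow_ne_zero _ X_ne_zero) hE)]
        have h3 : (X ^ e : ℂ[X]).rootMultiplicity z = 0 := by
          apply rootMultiplicity_eq_zero
          rw [IsRoot.def, eval_pow, eval_X]
          exact pow_ne_zero _ hz
        rw [h3, zero_add]
      rw [hE, hE', h2 _ _ hEn, h2 _ _ hEn'] at h1
      exact h1
  have hc := eq_of_mult hm
  have hl : E.leadingCoeff ≠ 0 := leadingCoeff_ne_zero.2 hEn
  have hl' : E'.leadingCoeff ≠ 0 := leadingCoeff_ne_zero.2 hEn'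
  have hd : E.natDegree = E'.natDegree := by
    have := congrArg natDegree hc
    rwa [natDegree_C_mul hl', natDegree_C_mul hl] at this
  have h0 := congrArg (fun P => coeff P 0) hc
  simp only [coeff_C_mul] at h0
  rcases hEt with ⟨a1, a2, a3, a4, a5, a6⟩ | ⟨a1, a3, a4, a5, a6⟩ | ⟨a1, a3, a4, a5, a6⟩ <;>
  rcases hEt' with ⟨b1, b2, b3, b4, b5, b6⟩ | ⟨b1, b3, b4, b5, b6⟩ | ⟨b1, b3, b4, b5, b6⟩ <;>
  rw [a4, a5, b4, b5] at h0
  · -- both generic
    have hq2 : q = q' := by omega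
    refine ⟨?_, hq2⟩
    have hEE : E = E' := by
      rw [a5, b5] at hc
      exact mul_left_cancel₀ (by
        intro h
        have := C_injective (h.trans C_0.symm)
        norm_num at this) hc
    have hDD : Dl ℂ p q = Dl ℂ p' q' := by rw [hE, hE', hEE, a3, b3]
    rcases lt_trichotomy p p' with h1 | h1 | h1
    · exfalso
      have h2 : (Dl ℂ p q).coeff p = (Dl ℂ p' q').coeff p := by rw [hDD]
      rw [Dl_coeff, Dl_coeff, if_pos rfl, if_neg (by omega), if_neg (by omega), if_neg (by omega),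
        if_neg (by omega), if_neg (by omega), if_neg (by omega), if_neg (by omega),
        if_neg (by omega), if_neg (by omega), if_neg (by omega)] at h2
      norm_num at h2
    · exact h1
    · exfalso
      have h2 : (Dl ℂ p q).coeff p' = (Dl ℂ p' q').coeff p' := by rw [hDD]
      rw [Dl_coeff, Dl_coeff, if_neg (by omega), if_neg (by omega), if_neg (by omega), if_neg (by omega),
        if_neg (by omega), if_neg (by omega), if_pos rfl, if_neg (by omega), if_neg (by omega),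
        if_neg (by omega), if_neg (by omega)] at h2
      norm_num at h2
  all_goals first
    | (exfalso; norm_num at h0; done)
    | (constructor <;> omega)

/-- `-Δ` is not a square up to squares. -/
theorem not_square {p q : ℕ} (hpq : p ≤ q) (hq : 0 < q) {A B : ℂ[X]} (hA : A ≠ 0)
    (h : A ^ 2 * Dl ℂ p q = B ^ 2) : False := by
  obtain ⟨e, E, hE, hE0, hEt⟩ := Dl_form hpq hq
  have hEn : E ≠ 0 := fun h0 => hE0 (by rw [h0, coeff_zero])
  have hB : B ≠ 0 := by
    rintro rfl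
    have : A ^ 2 * Dl ℂ p q = 0 := by rw [h]; ring
    exact mul_ne_zero (pow_ne_zero 2 hA) Dl_ne this
  have hdeg : 0 < E.natDegree := by
    rcases hEt with ⟨-, -, -, -, -, h⟩ | ⟨-, -, -, -, h⟩ | ⟨-, -, -, -, h⟩ <;> omega
  obtain ⟨z, hz⟩ := IsAlgClosed.exists_root E (by
    rw [degree_eq_natDegree hEn]
    exact_mod_cast hdeg.ne')
  have hz0 : z ≠ 0 := by
    rintro rfl
    rw [IsRoot.def, ← coeff_zero_eq_eval_zero] at hz
    exact hE0 hz
  have hr : (Dl ℂ p q).IsRoot z := by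
    rw [hE, IsRoot.def, eval_mul, hz.eq_zero, mul_zero]
  have h1 := mult_le hpq hq hz0
  have h2 : 0 < (Dl ℂ p q).rootMultiplicity z := (rootMultiplicity_pos Dl_ne).2 hr
  have e := congrArg (rootMultiplicity z) h
  rw [rootMultiplicity_mul (mul_ne_zero (pow_ne_zero 2 hA) Dl_ne), pow_two, pow_two,
    rootMultiplicity_mul (mul_ne_zero hA hA), rootMultiplicity_mul (mul_ne_zero hB hB)] at e
  omega

end Pool.Agent.Flat3
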