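import Pool.Agent.Flat3.Cls
import Pool.Agent.LThreeC.SymRel
import Pool.Agent.CITNF.Rel

set_option autoImplicit false

/-!
# Classification of the degenerate directions
-/

namespace Pool.Agent.Flat3

open Polynomial Pool.Agent.LThree Pool.Agent.LThreeC

/-- The exponents `(a, b)` of `|x|, |1 - x|` in the frame `k`: those of `|sy k x|`,
`|1 - sy k x|`. -/
def frz (k : Fin 6) (a b : ℤ) : ℤ × ℤ :=
  ![(a, b), (b, a), (-a, b - a), (b - a, -a), (-b, a - b), (a - b, -b)] k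

/-- The exponents of the relation in the frame `k`:
`x ^ m (1 - x) ^ n = ± X ^ m' (1 - X) ^ n'`, `X = sy k x`. -/
def fdz (k : Fin 6) (m n : ℤ) : ℤ × ℤ :=
  ![(m, n), (n, m), (-m - n, n), (n, -m - n), (-m - n, m), (m, -m - n)] k

/-- Type I: `|X| = |Y| = 1`. -/
def TypeI (r a : Fin 4 → ℤ) : Prop :=
  ∃ (k l : Fin 6) (m m' p p' : ℤ), m ≠ 0 ∧ m' ≠ 0 ∧ p ≠ 0 ∧ p' ≠ 0 ∧ m * p + m' * p' = 0 ∧
    frz k (a 0) (a 1) = (0, p) ∧ frz l (a 2) (a 3) = (0, p') ∧
    fdz k (r 0) (r 1) = (m, -2 * m) ∧ fdz l (r 2) (r 3) = (m', -2 * m')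

/-- Type II: `|Y| = |X|`, `|1 - Y| = |1 - X|`. -/
def TypeII (r a : Fin 4 → ℤ) : Prop :=
  ∃ (k l : Fin 6) (m n p q : ℤ), 0 < p ∧ p < q ∧ m ≠ 0 ∧ n ≠ 0 ∧ m + n ≠ 0 ∧
    m * p + n * q = 0 ∧ frz k (a 0) (a 1) = (p, q) ∧ frz l (a 2) (a 3) = (p, q) ∧
    fdz k (r 0) (r 1) = (m, n) ∧ fdz l (r 2) (r 3) = (m, n)

theorem exists_frame (a b : ℤ) : ∃ (k : Fin 6) (p q : ℕ), p ≤ q ∧ frz k a b = ((p : ℤ), (q : ℤ)) := by
  have key : ∀ (k : Fin 6) (u v : ℤ), frz k a b = (u, v) → 0 ≤ u → u ≤ v →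
      ∃ (k : Fin 6) (p q : ℕ), p ≤ q ∧ frz k a b = ((p : ℤ), (q : ℤ)) := by
    intro k u v h hu huv
    refine ⟨k, u.toNat, v.toNat, by omega, ?_⟩
    rw [h, Int.toNat_of_nonneg hu, Int.toNat_of_nonneg (hu.trans huv)]
  rcases le_total 0 a with h0 | h0 <;> rcases le_total 0 b with h1 | h1 <;>
    rcases le_total a b with h2 | h2
  · exact key 0 a b rfl h0 h2
  · exact key 1 b a rfl h1 h2
  · exact key 0 a b rfl h0 h2
  · exact key 4 (-b) (a - b) rfl (by omega) (by omega)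
  · exact key 2 (-a) (b - a) rfl (by omega) (by omega)
  · exact key 0 a b rfl (by omega) (by omega)
  · exact key 3 (b - a) (-a) rfl (by omega) (by omega)
  · exact key 5 (a - b) (-b) rfl (by omega) (by omega)

theorem frz_zero (k : Fin 6) (a b : ℤ) (h : frz k a b = (0, 0)) : a = 0 ∧ b = 0 := by
  fin_cases k <;> simp [frz] at h <;> omega

theorem fdz_zero (k : Fin 6) (a b : ℤ) (h : fdz k a b = (0, 0)) : a = 0 ∧ b = 0 := by
  fin_cases k <;> simp [fdz] at h <;> omega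

/-- from `(p, p)` to `(0, -p)` -/
theorem frame_comp (k : Fin 6) : ∃ l : Fin 6, (∀ a b : ℤ, frz l a b =
    ((frz k a b).2 - (frz k a b).1, -(frz k a b).1)) ∧
    ∀ a b : ℤ, fdz l a b = ((fdz k a b).2, -(fdz k a b).1 - (fdz k a b).2) := by
  fin_cases k
  · exact ⟨3, fun a b => rfl, fun a b => rfl⟩
  · exact ⟨5, fun a b => rfl, fun a b => by simp [fdz]; ring⟩
  · refine ⟨1, fun a b => ?_, fun a b => ?_⟩ <;> simp [frz, fdz]
  · refine ⟨4, fun a b => ?_, fun a b => ?_⟩ <;> simp [frz, fdz] <;> ring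
  · refine ⟨0, fun a b => ?_, fun a b => ?_⟩ <;> simp [frz, fdz]
  · refine ⟨2, fun a b => ?_, fun a b => ?_⟩ <;> simp [frz, fdz] <;> ring

variable {F : Type} [Field F] [CharZero F]

omit [CharZero F] in
theorem eqv_of_sy {x w : F} (h0 : x ≠ 0) (h1 : x ≠ 1) (k : Fin 6) (h : Eqv (sy k x) w) :
    Eqv x w := by
  have hi1 : 1 - x ≠ 0 := sub_ne_zero.2 h1.symm
  have hi1' : x - 1 ≠ 0 := sub_ne_zero.2 h1
  have hx1 : 1 - x ≠ 1 := fun h => h0 (by linear_combination -h)
  have hxi : x⁻¹ ≠ 0 := inv_ne_zero h0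
  have hxi1 : x⁻¹ ≠ 1 := fun h => h1 (by rwa [inv_eq_one] at h)
  have hy0 : (1 - x)⁻¹ ≠ 0 := inv_ne_zero hi1
  have hy1 : (1 - x)⁻¹ ≠ 1 := fun h => hx1 (by rwa [inv_eq_one] at h)
  fin_cases k
  · exact h
  · exact CITNF.Eqv.of_one_sub h0 h1 h
  · exact CITNF.Eqv.of_inv h0 h1 h
  · have e : sy 3 x = 1 - x⁻¹ := by
      show (x - 1) / x = 1 - x⁻¹
      field_simp
    have h' : Eqv (sy 3 x) w := h
    rw [e] at h'
    exact CITNF.Eqv.of_inv h0 h1 (CITNF.Eqv.of_one_sub hxi hxi1 h')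
  · exact CITNF.Eqv.of_one_sub h0 h1 (CITNF.Eqv.of_inv hi1 hx1 h)
  · have e : sy 5 x = 1 - (1 - x)⁻¹ := by
      show x / (x - 1) = 1 - (1 - x)⁻¹
      field_simp
      ring
    have h' : Eqv (sy 5 x) w := h
    rw [e] at h'
    exact CITNF.Eqv.of_one_sub h0 h1 (CITNF.Eqv.of_inv hi1 hx1
      (CITNF.Eqv.of_one_sub hy0 hy1 h'))

omit [CharZero F] in
/-- equivalence of the images gives equivalence -/
theorem eqv_of_sy_sy {x y : F} (hx0 : x ≠ 0) (hx1 : x ≠ 1) (hy0 : y ≠ 0) (hy1 : y ≠ 1)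
    (k l : Fin 6) (h : Eqv (sy k x) (sy l y)) : Eqv x y := by
  have h1 := eqv_of_sy hx0 hx1 k h
  have h2 := eqv_of_sy hy0 hy1 l (CITNF.Eqv.symm hx0 hx1 h1)
  exact CITNF.Eqv.symm hy0 hy1 h2

omit [CharZero F] in
theorem sy_mul {t x x' : F} (ht : t ≠ 0) (hx0 : x ≠ 0) (hx1 : x ≠ 1) (hx0' : x' ≠ 0)
    (hx1' : x' ≠ 1) {a b : ℤ} (h0 : x * x' = t ^ a) (h1 : (1 - x) * (1 - x') = t ^ b)
    (k : Fin 6) : sy k x * sy k x' = t ^ (frz k a b).1 ∧
      (1 - sy k x) * (1 - sy k x') = t ^ (frz k a b).2 := by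
  have i1 : 1 - x ≠ 0 := sub_ne_zero.2 hx1.symm
  have i2 : x - 1 ≠ 0 := sub_ne_zero.2 hx1
  have i1' : 1 - x' ≠ 0 := sub_ne_zero.2 hx1'.symm
  have i2' : x' - 1 ≠ 0 := sub_ne_zero.2 hx1'
  fin_cases k
  · exact ⟨h0, h1⟩
  · refine ⟨h1, ?_⟩
    show (1 - (1 - x)) * (1 - (1 - x')) = t ^ a
    rw [← h0]
    ring
  · constructor
    · show x⁻¹ * x'⁻¹ = t ^ (-a)
      rw [zpow_neg, ← h0, mul_inv]
    · show (1 - x⁻¹) * (1 - x'⁻¹) = t ^ (b - a)
      rw [zpow_sub₀ ht, ← h0, ← h1]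
      field_simp
      ring
  · constructor
    · show (x - 1) / x * ((x' - 1) / x') = t ^ (b - a)
      rw [zpow_sub₀ ht, ← h0, ← h1]
      field_simp
      ring
    · show (1 - (x - 1) / x) * (1 - (x' - 1) / x') = t ^ (-a)
      rw [zpow_neg, ← h0]
      field_simp
      ring
  · constructor
    · show (1 - x)⁻¹ * (1 - x')⁻¹ = t ^ (-b)
      rw [zpow_neg, ← h1, mul_inv]
    · show (1 - (1 - x)⁻¹) * (1 - (1 - x')⁻¹) = t ^ (a - b)
      rw [zpow_sub₀ ht, ← h0, ← h1]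
      field_simp
      ring
  · constructor
    · show x / (x - 1) * (x' / (x' - 1)) = t ^ (a - b)
      rw [zpow_sub₀ ht, ← h0, ← h1]
      have e : (1 - x) * (1 - x') = (x - 1) * (x' - 1) := by ring
      rw [e]
      field_simp
    · show (1 - x / (x - 1)) * (1 - x' / (x' - 1)) = t ^ (-b)
      rw [zpow_neg, ← h1]
      have e : (1 - x) * (1 - x') = (x - 1) * (x' - 1) := by ring
      rw [e]
      field_simp
      ring

theorem LD_frame (D : Derivation ℚ F F) (x : F) (h0 : x ≠ 0) (h1 : x ≠ 1) (k : Fin 6)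
    (r0 r1 : ℤ) : ((fdz k r0 r1).1 : F) * LD D (sy k x) + (fdz k r0 r1).2 * LD D (1 - sy k x) =
      r0 * LD D x + r1 * LD D (1 - x) := by
  obtain ⟨-, -, h2, h3⟩ := LD_sy D x h0 h1 ![LD D x, LD D (1 - x), 0] ![1, 0, 0] ![0, 1, 0]
    (by simp [ev, Fin.sum_univ_three]) (by simp [ev, Fin.sum_univ_three]) k
  rw [h2, h3]
  fin_cases k <;> simp [ev, Fin.sum_univ_three, fr, fdz] <;> ring

/-- **Classification of the degenerate directions.** -/
theorem classify (D : Derivation ℚ F F) (hD : ∀ f, D f = 0 ↔ IsAlgebraic ℚ f) {t : F}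
    (hDt : D t = t) (ht : Transcendental ℚ t) (a r : Fin 4 → ℤ) (hr : r ≠ 0) {x x' y y' : F}
    (e0 : x * x' = t ^ a 0) (e1 : (1 - x) * (1 - x') = t ^ a 1) (e2 : y * y' = t ^ a 2)
    (e3 : (1 - y) * (1 - y') = t ^ a 3) (hx : Transcendental ℚ x) (hy : Transcendental ℚ y)
    (hE : ¬ Eqv x y)
    (hrel : x ^ r 0 * (1 - x) ^ r 1 * (y ^ r 2 * (1 - y) ^ r 3) = 1) :
    TypeI r a ∨ TypeII r a := by
  have ht0 : t ≠ 0 := by
    rintro rfl
    exact ht isAlgebraic_zero
  have hne : ∀ {x x' : F} {a b : ℤ}, x * x' = t ^ a → (1 - x) * (1 - x') = t ^ b →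
      x ≠ 0 ∧ x ≠ 1 ∧ x' ≠ 0 ∧ x' ≠ 1 := by
    intro x x' a b h0 h1
    refine ⟨?_, ?_, ?_, ?_⟩
    · rintro rfl
      exact zpow_ne_zero a ht0 (by rw [← h0]; ring)
    · rintro rfl
      exact zpow_ne_zero b ht0 (by rw [← h1]; ring)
    · rintro rfl
      exact zpow_ne_zero a ht0 (by rw [← h0]; ring)
    · rintro rfl
      exact zpow_ne_zero b ht0 (by rw [← h1]; ring)
  obtain ⟨hx0, hx1, hx0', hx1'⟩ := hne e0 e1
  obtain ⟨hy0, hy1, hy0', hy1'⟩ := hne e2 e3
  have hDx : D x ≠ 0 := fun h => hx ((hD x).1 h)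
  have hDy : D y ≠ 0 := fun h => hy ((hD y).1 h)
  -- the logarithmic derivative of the relation
  have hLD : (r 0 : F) * LD D x + r 1 * LD D (1 - x) + (r 2 * LD D y + r 3 * LD D (1 - y)) = 0 := by
    have h1 := LD_mono D ![x, 1 - x, y, 1 - y] (by
      intro i
      fin_cases i
      · exact hx0
      · exact sub_ne_zero.2 hx1.symm
      · exact hy0
      · exact sub_ne_zero.2 hy1.symm) r
    have h2 : mono ![x, 1 - x, y, 1 - y] r = 1 := by
      unfold mono
      rw [Fin.prod_univ_four]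
      simp only [Matrix.cons_val_zero, Matrix.cons_val_one, Matrix.cons_val]
      linear_combination hrel
    rw [h2, Fin.sum_univ_four] at h1
    simp only [Matrix.cons_val_zero, Matrix.cons_val_one, Matrix.cons_val] at h1
    unfold LD at h1 ⊢
    rw [Derivation.map_one_eq_zero, zero_div] at h1
    linear_combination -h1
  have hr01 : r 0 ≠ 0 ∨ r 1 ≠ 0 := by
    by_contra h
    push Not at h
    obtain ⟨h0, h1⟩ := h
    rw [h0, h1, Int.cast_zero, zero_mul, zero_mul, zero_add, zero_add] at hLD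
    have h2 := LD_indep D y hy0 hy1 hDy hy (r 2) (r 3) (by push_cast; exact hLD)
    apply hr
    funext i
    fin_cases i
    · exact h0
    · exact h1
    · exact_mod_cast h2.1
    · exact_mod_cast h2.2
  have hr23 : r 2 ≠ 0 ∨ r 3 ≠ 0 := by
    by_contra h
    push Not at h
    obtain ⟨h0, h1⟩ := h
    rw [h0, h1, Int.cast_zero, zero_mul, zero_mul, zero_add, add_zero] at hLD
    have h2 := LD_indep D x hx0 hx1 hDx hx (r 0) (r 1) (by push_cast; exact hLD)
    apply hr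
    funext i
    fin_cases i
    · exact_mod_cast h2.1
    · exact_mod_cast h2.2
    · exact h0
    · exact h1
  -- frames
  obtain ⟨k, p, q, hpq, hk⟩ := exists_frame (a 0) (a 1)
  obtain ⟨l, p', q', hpq', hl⟩ := exists_frame (a 2) (a 3)
  have hq : ∀ {x x' : F} {a b : ℤ} {k : Fin 6} {p q : ℕ}, p ≤ q → frz k a b = ((p : ℤ), (q : ℤ)) →
      x * x' = t ^ a → (1 - x) * (1 - x') = t ^ b → Transcendental ℚ x → 0 < q := by
    intro x x' a b k p q hpq hk h0 h1 hx
    by_contra hq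
    have hq0 : q = 0 := by omega
    have hp0 : p = 0 := by omega
    rw [hq0, hp0] at hk
    obtain ⟨ha, hb⟩ := frz_zero k a b hk
    rw [ha, zpow_zero] at h0
    rw [hb, zpow_zero] at h1
    apply hx
    refine ⟨X ^ 2 - X + 1, ?_, ?_⟩
    · intro h
      have := congrArg (fun P => eval 0 P) h
      simp at this
    · simp only [map_add, map_sub, map_pow, aeval_X, map_one]
      linear_combination (x - 1) * h0 - x * h1
  have hq1 := hq hpq hk e0 e1 hx
  have hq2 := hq hpq' hl e2 e3 hy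
  set X' := sy k x with hX
  set Y' := sy l y with hY
  obtain ⟨f0, f1⟩ := sy_mul ht0 hx0 hx1 hx0' hx1' e0 e1 k
  obtain ⟨f2, f3⟩ := sy_mul ht0 hy0 hy1 hy0' hy1' e2 e3 l
  rw [hk, ← hX] at f0 f1
  rw [hl, ← hY] at f2 f3
  simp only [zpow_natCast] at f0 f1 f2 f3
  set X'' := sy k x' with hX'
  set Y'' := sy l y' with hY'
  have g0 := sub_sq f0 f1
  have g1 := sub_sq f2 f3
  have hdl : ∀ p q : ℕ, (Dl F p q).eval t ≠ 0 := by
    intro p q h0
    rw [← Dl_aeval] at h0
    have h1 := transcendental_iff.1 ht _ h0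
    have h2 := Dl_map (algebraMap ℚ ℂ) p q
    rw [h1, Polynomial.map_zero] at h2
    exact Dl_ne h2.symm
  have n0 : X' ≠ X'' := by
    intro h
    rw [h, sub_self] at g0
    exact hdl p q (by linear_combination g0)
  have n1 : Y' ≠ Y'' := by
    intro h
    rw [h, sub_self] at g1
    exact hdl p' q' (by linear_combination g1)
  rcases hmn : fdz k (r 0) (r 1) with ⟨m, n⟩
  rcases hmn' : fdz l (r 2) (r 3) with ⟨m', n'⟩
  have j0 := LD_frame D x hx0 hx1 k (r 0) (r 1)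
  have j1 := LD_frame D y hy0 hy1 l (r 2) (r 3)
  rw [hmn, ← hX] at j0
  rw [hmn', ← hY] at j1
  simp only at j0 j1
  have t0 := two_LD D ht0 hDt f0 f1 n0 m n
  have t1 := two_LD D ht0 hDt f2 f3 n1 m' n'
  have hmn0 : m ≠ 0 ∨ n ≠ 0 := by
    by_contra h
    push Not at h
    rw [h.1, h.2] at hmn
    obtain ⟨h1, h2⟩ := fdz_zero k _ _ hmn
    exact hr01.elim (fun h => h h1) (fun h => h h2)
  have hmn0' : m' ≠ 0 ∨ n' ≠ 0 := by
    by_contra h
    push Not at h
    rw [h.1, h.2] at hmn'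
    obtain ⟨h1, h2⟩ := fdz_zero l _ _ hmn'
    exact hr23.elim (fun h => h h1) (fun h => h h2)
  have hsum : (((m * p + n * q) + (m' * p' + n' * q') : ℤ) : F) +
      aeval t (Rp m n p q) / (X' - X'') + aeval t (Rp m' n' p' q') / (Y' - Y'') = 0 := by
    rw [Int.cast_add]
    linear_combination -t0 - t1 + 2 * j0 + 2 * j1 + 2 * hLD
  obtain ⟨hc, hd⟩ := dich ht hpq hq1 hpq' hq2 g0 g1 _ _ _ hsum
  rcases hd with ⟨hR, hR'⟩ | ⟨hpp, hqq, hR⟩
  · left
    -- normal form
    have nf : ∀ {k : Fin 6} {a b c d m n : ℤ} {p q : ℕ}, p ≤ q → 0 < q → (m ≠ 0 ∨ n ≠ 0) →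
        Rp m n p q = 0 → frz k a b = ((p : ℤ), (q : ℤ)) → fdz k c d = (m, n) →
        ∃ (k : Fin 6) (m' p' : ℤ), m' ≠ 0 ∧ p' ≠ 0 ∧ frz k a b = (0, p') ∧
          fdz k c d = (m', -2 * m') ∧ m * p + n * q = -2 * (m' * p') := by
      intro k a b c d m n p q hpq hq hmn hR hk hmn'
      rcases Rp_eq_zero hpq hq hmn hR with ⟨h1, h2, h3⟩ | ⟨h1, h2, h3⟩
      · refine ⟨k, m, q, h3, by exact_mod_cast hq.ne', ?_, ?_, ?_⟩
        · rw [hk, h1]
          rfl
        · rw [hmn', h2]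
        · rw [h1, h2]
          push_cast
          ring
      · obtain ⟨l, hl1, hl2⟩ := frame_comp k
        refine ⟨l, m, -q, h3, ?_, ?_, ?_, ?_⟩
        · have : (q : ℤ) ≠ 0 := by exact_mod_cast hq.ne'
          omega
        · rw [hl1, hk, h1]
          simp
        · rw [hl2, hmn', ← h2]
          ext
          · rfl
          · show -m - m = -2 * m
            ring
        · rw [h1, ← h2]
          ring
    obtain ⟨k1, m1, p1, c1, c2, c3, c4, c5⟩ := nf hpq hq1 hmn0 hR hk hmn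
    obtain ⟨k2, m2, p2, d1, d2, d3, d4, d5⟩ := nf hpq' hq2 hmn0' hR' hl hmn'
    refine ⟨k1, k2, m1, m2, p1, p2, c1, d1, c2, d2, ?_, c3, d3, c4, d4⟩
    rw [c5, d5] at hc
    linarith
  · right
    subst hpp
    subst hqq
    -- the values coincide
    have s1 : X' + X'' = Y' + Y'' := by linear_combination f0 - f1 - f2 + f3
    have s2 : (Y' - X') * (Y' - X'') = 0 := by
      linear_combination (-Y') * s1 + f0 - f2
    have s3 : Y' = X'' := by
      rcases mul_eq_zero.1 s2 with h | h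
      · exfalso
        apply hE
        apply eqv_of_sy_sy hx0 hx1 hy0 hy1 k l
        rw [← hX, ← hY]
        left
        linear_combination h
      · linear_combination h
    have s4 : Y'' = X' := by linear_combination -s1 - s3
    have hX0 : X' ≠ 0 := (sy_ne x hx0 hx1 k).1
    have hp : 0 < p := by
      by_contra hp
      have hp0 : p = 0 := by omega
      apply hE
      apply eqv_of_sy_sy hx0 hx1 hy0 hy1 k l
      rw [← hX, ← hY]
      right; right; left
      rw [s3]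
      rw [hp0, pow_zero] at f0
      exact eq_inv_of_mul_eq_one_right f0
    have hpq1 : p < q := by
      rcases hpq.lt_or_eq with h | h
      · exact h
      · exfalso
        apply hE
        apply eqv_of_sy_sy hx0 hx1 hy0 hy1 k l
        rw [← hX, ← hY]
        right; left
        rw [s3]
        rw [← h, ← f0] at f1
        linear_combination -f1
    have hd : X' - X'' ≠ 0 := sub_ne_zero.2 n0
    have hRR : Rp m n p q = Rp m' n' p q := by
      apply poly_eq ht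
      rw [hc, Int.cast_zero, zero_add, s3, s4] at hsum
      have h2 : (X'' - X' : F) = -(X' - X'') := by ring
      rw [h2, div_neg, ← sub_eq_add_neg, ← sub_div, div_eq_zero_iff] at hsum
      exact sub_eq_zero.1 (hsum.resolve_right hd)
    have hco := fun k => congrArg (fun P => coeff P k) hRR
    simp only [Rp_coeff] at hco
    have hp0 : (p : ℤ) ≠ 0 := by exact_mod_cast hp.ne'
    have h0 := hco 0
    rw [if_pos rfl, if_pos rfl, if_neg hp.ne, if_neg hq1.ne] at h0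
    have h1 := hco p
    rw [if_neg hp.ne', if_neg hp.ne', if_pos rfl, if_neg hpq1.ne] at h1
    have h0' : (n * q - m * p : ℤ) = n' * q - m' * p := by
      have h3 : ((n * q - m * p : ℤ) : ℚ) = ((n' * q - m' * p : ℤ) : ℚ) := by
        linear_combination h0
      exact_mod_cast h3
    have h1' : (m * p + 2 * n * p - n * q : ℤ) = m' * p + 2 * n' * p - n' * q := by
      have h3 : ((m * p + 2 * n * p - n * q : ℤ) : ℚ) =
          ((m' * p + 2 * n' * p - n' * q : ℤ) : ℚ) := by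
        linear_combination h1
      exact_mod_cast h3
    have h4 : (p : ℤ) * (n - n') = 0 := by linarith
    have h5 : n = n' := sub_eq_zero.1 ((mul_eq_zero.1 h4).resolve_left hp0)
    have h6 : (p : ℤ) * (m - m') = 0 := by
      rw [h5] at h0'
      linarith
    have h7 : m = m' := sub_eq_zero.1 ((mul_eq_zero.1 h6).resolve_left hp0)
    have h8 : m * p + n * q = 0 := by
      rw [← h5, ← h7] at hc
      linarith
    have hq0 : (q : ℤ) ≠ 0 := by exact_mod_cast hq1.ne'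
    have hm : m ≠ 0 := by
      intro h
      rw [h, zero_mul, zero_add] at h8
      exact hmn0.elim (fun h' => h' h) (fun h' => h' ((mul_eq_zero.1 h8).resolve_right hq0))
    have hn : n ≠ 0 := by
      intro h
      rw [h, zero_mul, add_zero] at h8
      exact hm ((mul_eq_zero.1 h8).resolve_right hp0)
    refine ⟨k, l, m, n, p, q, by exact_mod_cast hp, by exact_mod_cast hpq1, hm, hn, ?_, h8, hk,
      hl, hmn, ?_⟩
    · intro h
      have h9 : m * ((p : ℤ) - q) = 0 := by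
        have h10 : n = -m := by omega
        rw [h10] at h8
        linarith
      have h11 : (p : ℤ) - q ≠ 0 := by
        have : (p : ℤ) < q := by exact_mod_cast hpq1
        omega
      exact hm ((mul_eq_zero.1 h9).resolve_right h11)
    · rw [hmn', h5, h7]

end Pool.Agent.Flat3
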