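import Pool.Agent.Flat3.Clu
import Pool.Agent.LThree.RelPoly
import Pool.Agent.M05Full.Bezout

set_option autoImplicit false

/-!
# Factors of the polynomial of a relation are good

and the cluster theorem for pairs of a number field.
-/

namespace Pool.Agent.Flat3

open Real Pool.Agent.LThree

/-- the exponents of a relation -/
def rr (u : Fin 2 ⊕ Fin 2 → ℤ) : Fin 4 → ℤ :=
  ![u (Sum.inl 0), u (Sum.inr 0), u (Sum.inl 1), u (Sum.inr 1)]

theorem rr_ne {u : Fin 2 ⊕ Fin 2 → ℤ} (hu : u ≠ 0) : rr u ≠ 0 := by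
  intro h
  apply hu
  have h0 := congrFun h 0
  have h1 := congrFun h 1
  have h2 := congrFun h 2
  have h3 := congrFun h 3
  funext i
  rcases i with i | i
  · fin_cases i
    · exact h0
    · exact h2
  · fin_cases i
    · exact h1
    · exact h3

theorem dvd_of_zero {G P : MvPolynomial (Fin 2) ℚ} (hG : Irreducible G) {F : Type} [Field F]
    [CharZero F] {x y : F} (h1 : MvPolynomial.aeval ![x, y] G = 0)
    (h2 : MvPolynomial.aeval ![x, y] P = 0) (h : Transcendental ℚ x ∨ Transcendental ℚ y) :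
    G ∣ P := by
  by_cases hP : P = 0
  · rw [hP]
    exact dvd_zero G
  by_contra hn
  have hrp : IsRelPrime G P := (hG.isRelPrime_iff_not_dvd).2 hn
  obtain ⟨hfin, -⟩ := M05Full.bezout hG.ne_zero hP hrp ![x, y] h1 h2
  have key : ∀ z ∈ Set.range ![x, y], IsAlgebraic ℚ z := by
    intro z hz
    have h3 : IsAlgebraic ℚ (⟨z, IntermediateField.subset_adjoin ℚ _ hz⟩ :
        IntermediateField.adjoin ℚ (Set.range ![x, y])) := Algebra.IsAlgebraic.isAlgebraic _
    exact h3.algebraMap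
  rcases h with h | h
  · exact h (key x ⟨0, rfl⟩)
  · exact h (key y ⟨1, rfl⟩)

theorem good_of {G : MvPolynomial (Fin 2) ℚ} (hG : Irreducible G) {u : Fin 2 ⊕ Fin 2 → ℤ}
    (hdvd : G ∣ relPoly u) {K : Type} [Field K] [CharZero K] {x0 y0 : K}
    (hx0 : x0 ≠ 0) (hx1 : x0 ≠ 1) (h : MvPolynomial.aeval ![x0, y0] G = 0)
    (hne : ¬ Eqv x0 y0) (h6 : x0 ^ 2 - x0 + 1 ≠ 0) (h6' : y0 ^ 2 - y0 + 1 ≠ 0) :
    Good G (rr u) where
  rel := by
    intro F _ _ x y hx hx1 hy hy1 hz
    obtain ⟨w, hw⟩ := hdvd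
    have h1 : MvPolynomial.aeval ![x, y] (relPoly u) = 0 := by rw [hw, map_mul, hz, zero_mul]
    rw [aeval_relPoly ![x, y] (by
      intro i
      fin_cases i
      · exact ⟨hx, hx1⟩
      · exact ⟨hy, hy1⟩) u, mono, Fintype.prod_sum_type, Fin.prod_univ_two, Fin.prod_univ_two] at h1
    simp only [co, Sum.elim_inl, Sum.elim_inr, Matrix.cons_val_zero, Matrix.cons_val_one] at h1
    refine Eq.trans ?_ h1
    simp only [rr, Matrix.cons_val_zero, Matrix.cons_val_one, Matrix.cons_val]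
    ring
  eqv := by
    intro F _ _ x y hz hx hy he
    have hx0' : x ≠ 0 := fun h => hx (h ▸ isAlgebraic_zero)
    have hx1' : x ≠ 1 := fun h => hx (h ▸ isAlgebraic_one)
    have hx2 : 1 - x ≠ 0 := sub_ne_zero.2 hx1'.symm
    have hx3 : x - 1 ≠ 0 := sub_ne_zero.2 hx1'
    have hx20 : 1 - x0 ≠ 0 := sub_ne_zero.2 hx1.symm
    have hx30 : x0 - 1 ≠ 0 := sub_ne_zero.2 hx1
    have key : ∀ P : MvPolynomial (Fin 2) ℚ, MvPolynomial.aeval ![x, y] P = 0 →
        MvPolynomial.aeval ![x0, y0] P = 0 := by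
      intro P hP
      obtain ⟨w, hw⟩ := dvd_of_zero hG hz hP (Or.inl hx)
      rw [hw, map_mul, h, zero_mul]
    apply hne
    rcases he with he | he | he | he | he | he
    · left
      have := key (MvPolynomial.X 1 - MvPolynomial.X 0) (by simp [he])
      simp at this
      linear_combination this
    · right; left
      have := key (MvPolynomial.X 1 - 1 + MvPolynomial.X 0) (by simp [he])
      simp at this
      linear_combination this
    · right; right; left
      have := key (MvPolynomial.X 1 * MvPolynomial.X 0 - 1) (by simp [he, hx0'])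
      simp at this
      exact eq_inv_of_mul_eq_one_left (by linear_combination this)
    · right; right; right; left
      have := key (MvPolynomial.X 1 * (1 - MvPolynomial.X 0) - 1) (by simp [he, hx2])
      simp at this
      exact eq_inv_of_mul_eq_one_left (by linear_combination this)
    · right; right; right; right; left
      have := key (MvPolynomial.X 1 * (MvPolynomial.X 0 - 1) - MvPolynomial.X 0)
        (by simp [he, hx3])
      simp at this
      rw [eq_div_iff hx30]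
      linear_combination this
    · right; right; right; right; right
      have := key (MvPolynomial.X 1 * MvPolynomial.X 0 - (MvPolynomial.X 0 - 1))
        (by simp [he, hx0'])
      simp at this
      rw [eq_div_iff hx0]
      linear_combination this
  six := by
    intro F _ _ x y hz hx
    by_contra hy
    obtain ⟨w, hw⟩ := dvd_of_zero (P := MvPolynomial.X 0 ^ 2 - MvPolynomial.X 0 + 1) hG hz
      (by simpa using hx) (Or.inr hy)
    apply h6
    have : MvPolynomial.aeval ![x0, y0]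
        (MvPolynomial.X 0 ^ 2 - MvPolynomial.X 0 + 1 : MvPolynomial (Fin 2) ℚ) = 0 := by
      rw [hw, map_mul, h, zero_mul]
    simpa using this
  six' := by
    intro F _ _ x y hz hy
    by_contra hx
    obtain ⟨w, hw⟩ := dvd_of_zero (P := MvPolynomial.X 1 ^ 2 - MvPolynomial.X 1 + 1) hG hz
      (by simpa using hy) (Or.inl hx)
    apply h6'
    have : MvPolynomial.aeval ![x0, y0]
        (MvPolynomial.X 1 ^ 2 - MvPolynomial.X 1 + 1 : MvPolynomial (Fin 2) ℚ) = 0 := by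
      rw [hw, map_mul, h, zero_mul]
    simpa using this

private theorem go_factor {K : Type} [Field K] [CharZero K] (x : Fin 2 → K)
    {p : MvPolynomial (Fin 2) ℚ} (hp : p ≠ 0) (h : MvPolynomial.aeval x p = 0) :
    ∃ f ∈ UniqueFactorizationMonoid.factors p, MvPolynomial.aeval x f = 0 := by
  obtain ⟨v, hv⟩ := UniqueFactorizationMonoid.factors_prod hp
  have h1 : MvPolynomial.aeval x (UniqueFactorizationMonoid.factors p).prod = 0 := by
    rw [← hv, map_mul] at h
    rcases mul_eq_zero.1 h with h2 | h2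
    · exact h2
    · exact absurd h2 ((v.isUnit.map (MvPolynomial.aeval x)).ne_zero)
  rw [map_multiset_prod, Multiset.prod_eq_zero_iff, Multiset.mem_map] at h1
  obtain ⟨f, hf, hf0⟩ := h1
  exact ⟨f, hf, hf0⟩

private theorem go_map {K F : Type} [Field K] [CharZero K] [Field F] [CharZero F]
    (φ : K →+* F) (x y : K) (p : MvPolynomial (Fin 2) ℚ) :
    MvPolynomial.aeval ![φ x, φ y] p = φ (MvPolynomial.aeval ![x, y] p) := by
  induction p using MvPolynomial.induction_on with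
  | C a => rw [MvPolynomial.aeval_C, MvPolynomial.aeval_C, eq_ratCast, eq_ratCast, map_ratCast]
  | add p q hp hq => rw [map_add, map_add, map_add, hp, hq]
  | mul_X p i hp =>
    rw [map_mul, map_mul, map_mul, hp, MvPolynomial.aeval_X, MvPolynomial.aeval_X]
    fin_cases i <;> rfl

/-- **Clusters for pairs.** Let `x0, y0` be elements of a field `L` with the relation `u`, not
equivalent. If `a` is not of type I or II then the embeddings `φ` for which the logarithms of
`φ x0, 1 - φ x0, φ y0, 1 - φ y0` are very close to the line spanned by `a` have `φ x0`, `φ y0` in a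
bounded number of discs. -/
theorem pair_clusters {u : Fin 2 ⊕ Fin 2 → ℤ} (hu : u ≠ 0) {B : ℝ} (hB : 0 ≤ B) :
    ∃ K C : ℕ, ∀ A ρ η : ℝ, 2 ≤ A → 0 < ρ → ρ ≤ 1 → 0 ≤ η → η ≤ (ρ / A) ^ C →
    ∀ a : Fin 4 → ℤ, a ≠ 0 → (∀ k, |(a k : ℝ)| ≤ A) → ¬ (TypeI (rr u) a ∨ TypeII (rr u) a) →
    ∀ (L : Type) [Field L] [CharZero L] (x0 y0 : L), x0 ≠ 0 → x0 ≠ 1 → y0 ≠ 0 → y0 ≠ 1 →
    mono (co ![x0, y0]) u = 1 → ¬ Eqv x0 y0 → x0 ^ 2 - x0 + 1 ≠ 0 → y0 ^ 2 - y0 + 1 ≠ 0 →
    ∃ S : Finset ℂ, S.card ≤ K ∧ ∀ (φ : L →+* ℂ) (s : ℝ), (∀ k, |s * a k| ≤ B) →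
    (∀ k, |log ‖cf (φ x0) (φ y0) k‖ - s * a k| ≤ η) →
    (∃ z ∈ S, ‖φ x0 - z‖ ≤ ρ) ∧ ∃ z ∈ S, ‖φ y0 - z‖ ≤ ρ := by
  classical
  have hcl : ∀ G : MvPolynomial (Fin 2) ℚ, ∃ KC : ℕ × ℕ, Good G (rr u) →
      ∀ A ρ η : ℝ, 2 ≤ A → 0 < ρ → ρ ≤ 1 → 0 ≤ η →
      η ≤ (ρ / A) ^ KC.2 → ∀ a : Fin 4 → ℤ, a ≠ 0 → (∀ k, |(a k : ℝ)| ≤ A) →
      ¬ (TypeI (rr u) a ∨ TypeII (rr u) a) → ∃ S : Finset ℂ, S.card ≤ KC.1 ∧
      ∀ (x y : ℂ) (s : ℝ), Pt G a B η x y s → (∃ z ∈ S, ‖x - z‖ ≤ ρ) ∧ ∃ z ∈ S, ‖y - z‖ ≤ ρ := by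
    intro G
    by_cases hG : Good G (rr u)
    · obtain ⟨K, C, h⟩ := clusters (rr_ne hu) hG hB
      exact ⟨(K, C), fun _ => h⟩
    · exact ⟨(0, 0), fun h => absurd h hG⟩
  choose KC hKC using hcl
  set 𝓖 := (UniqueFactorizationMonoid.factors (relPoly u)).toFinset with h𝓖
  refine ⟨𝓖.sup fun G => (KC G).1, 𝓖.sup fun G => (KC G).2, ?_⟩
  intro A ρ η hA hρ hρ1 hη hηC a ha haA hT L _ _ x0 y0 hx0 hx1 hy0 hy1 hrel hne h6 h6'
  have h0 : MvPolynomial.aeval ![x0, y0] (relPoly u) = 0 := by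
    rw [aeval_relPoly ![x0, y0] (by
      intro i
      fin_cases i
      · exact ⟨hx0, hx1⟩
      · exact ⟨hy0, hy1⟩) u]
    exact hrel
  obtain ⟨G, hGf, hG0⟩ := go_factor ![x0, y0] (relPoly_ne_zero u hu) h0
  have hirr := UniqueFactorizationMonoid.irreducible_of_factor G hGf
  have hdvd := UniqueFactorizationMonoid.dvd_of_mem_factors hGf
  have hG𝓖 : G ∈ 𝓖 := Multiset.mem_toFinset.2 hGf
  have hgood := good_of hirr hdvd hx0 hx1 hG0 hne h6 h6'
  have hA0 : 0 < A := by linarith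
  have hq2 : ρ / A ≤ 1 := by
    rw [div_le_one hA0]
    linarith
  have hηG : η ≤ (ρ / A) ^ (KC G).2 := hηC.trans (pow_le_pow_of_le_one (by positivity) hq2
    (Finset.le_sup (f := fun G => (KC G).2) hG𝓖))
  obtain ⟨S, hS, hSp⟩ := hKC G hgood A ρ η hA hρ hρ1 hη hηG a ha haA hT
  refine ⟨S, hS.trans (Finset.le_sup (f := fun G => (KC G).1) hG𝓖), fun φ s hs hn => ?_⟩
  refine hSp (φ x0) (φ y0) s ⟨fun h => hx0 ?_, fun h => hx1 ?_, fun h => hy0 ?_, fun h => hy1 ?_,
    ?_, hs, hn⟩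
  · exact (map_eq_zero φ).1 h
  · exact φ.injective (by rw [h, map_one])
  · exact (map_eq_zero φ).1 h
  · exact φ.injective (by rw [h, map_one])
  · rw [go_map, hG0, map_zero]

end Pool.Agent.Flat3
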