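import Pool.Agent.Flat3.AlgPart

set_option autoImplicit false

/-! The ring of holomorphic functions on a connected open set; derivatives of algebraic functions. -/

namespace Pool.Agent.Flat3

open Polynomial

/-- Holomorphic functions on `U`. -/
def Hol (U : Set ℂ) : Subalgebra ℂ (U → ℂ) where
  carrier := {f | ∃ g : ℂ → ℂ, AnalyticOnNhd ℂ g U ∧ ∀ u : U, f u = g u}
  mul_mem' := by
    rintro f1 f2 ⟨g1, h1, e1⟩ ⟨g2, h2, e2⟩
    exact ⟨fun z => g1 z * g2 z, h1.mul h2, fun u => by rw [Pi.mul_apply, e1, e2]⟩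
  add_mem' := by
    rintro f1 f2 ⟨g1, h1, e1⟩ ⟨g2, h2, e2⟩
    exact ⟨fun z => g1 z + g2 z, h1.add h2, fun u => by rw [Pi.add_apply, e1, e2]⟩
  algebraMap_mem' := fun c => ⟨fun _ => c, analyticOnNhd_const, fun _ => rfl⟩

/-- The element of `Hol U` given by `g`. -/
def hmk {U : Set ℂ} (g : ℂ → ℂ) (hg : AnalyticOnNhd ℂ g U) : Hol U :=
  ⟨fun u => g u, g, hg, fun _ => rfl⟩

theorem hmk_apply {U : Set ℂ} (g : ℂ → ℂ) (hg : AnalyticOnNhd ℂ g U) (u : U) :
    (hmk g hg).1 u = g u := rfl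

theorem hol_ext {U : Set ℂ} {a b : Hol U} (h : ∀ u : U, a.1 u = b.1 u) : a = b :=
  Subtype.ext (funext h)

/-- Evaluation. -/
def hev {U : Set ℂ} (u : U) : Hol U →ₐ[ℂ] ℂ :=
  (Pi.evalAlgHom ℂ (fun _ : U => ℂ) u).comp (Hol U).val

theorem hev_apply {U : Set ℂ} (u : U) (a : Hol U) : hev u a = a.1 u := rfl

theorem hol_isDomain {U : Set ℂ} (hU : IsPreconnected U) (hne : U.Nonempty) : IsDomain (Hol U) := by
  haveI : Nonempty U := hne.to_subtype
  haveI : Nontrivial (Hol U) := ⟨⟨0, 1, fun h => by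
    have h1 := congrArg (fun a : Hol U => a.1 (Classical.arbitrary U)) h
    exact zero_ne_one (α := ℂ) h1⟩⟩
  haveI : NoZeroDivisors (Hol U) := ⟨by
    intro a b hab
    obtain ⟨g1, h1, e1⟩ := a.2
    obtain ⟨g2, h2, e2⟩ := b.2
    have h3 := AnalyticOnNhd.eq_zero_or_eq_zero_of_mul_eq_zero h1 h2 (fun z hz => by
      have h4 := congrArg (fun a : Hol U => a.1 ⟨z, hz⟩) hab
      have h5 : a.1 ⟨z, hz⟩ * b.1 ⟨z, hz⟩ = 0 := h4
      rw [e1, e2] at h5
      exact h5) hU
    rcases h3 with h3 | h3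
    · exact Or.inl (hol_ext fun u => by rw [e1]; exact h3 u u.2)
    · exact Or.inr (hol_ext fun u => by rw [e2]; exact h3 u u.2)⟩
  exact NoZeroDivisors.to_isDomain _

theorem hol_aeval {U : Set ℂ} (x : Hol U) (p : ℂ[X]) (u : U) :
    (aeval x p).1 u = p.eval (x.1 u) := by
  rw [← hev_apply, ← aeval_algHom_apply, hev_apply, coe_aeval_eq_eval]

/-- **Derivatives.** If `gy` is algebraic over `ℂ(gx)` and `gx'` is algebraic over `ℂ(gx)`, then so
is `gy'`. -/
theorem alg_deriv {U : Set ℂ} (hUo : IsOpen U) (hU : IsPreconnected U) (hne : U.Nonempty)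
    (gx gy : ℂ → ℂ) (hx : AnalyticOnNhd ℂ gx U) (hy : AnalyticOnNhd ℂ gy U)
    (htr : ∀ p : ℂ[X], p ≠ 0 → aeval (hmk gx hx) p ≠ 0)
    (P0 : ℂ[X][X]) (hP0 : P0 ≠ 0) (h0 : aevalAeval (hmk gx hx) (hmk gy hy) P0 = 0)
    (hx' : haveI := hol_isDomain hU hne
      AlgOver (hmk gx hx) (hmk (deriv gx) hx.deriv)) :
    haveI := hol_isDomain hU hne
    AlgOver (hmk gx hx) (hmk (deriv gy) hy.deriv) := by
  classical
  haveI := hol_isDomain hU hne
  -- a polynomial of minimal degree
  have hex : ∃ n : ℕ, ∃ P : ℂ[X][X], P ≠ 0 ∧ aevalAeval (hmk gx hx) (hmk gy hy) P = 0 ∧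
      P.natDegree = n := ⟨_, P0, hP0, h0, rfl⟩
  obtain ⟨P, hP, hPv, hPn⟩ := Nat.find_spec hex
  have hmin : ∀ Q : ℂ[X][X], Q ≠ 0 → Q.natDegree < P.natDegree →
      aevalAeval (hmk gx hx) (hmk gy hy) Q ≠ 0 := by
    intro Q hQ hlt h
    rw [hPn] at hlt
    exact Nat.find_min hex hlt ⟨Q, hQ, h, rfl⟩
  have hdeg : P.natDegree ≠ 0 := by
    intro h
    rw [natDegree_eq_zero] at h
    obtain ⟨p, rfl⟩ := h
    rw [aevalAeval_C] at hPv
    exact htr p (fun hp => hP (by rw [hp, map_zero])) hPv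
  have hder : derivative P ≠ 0 := by
    intro h
    exact hdeg (natDegree_eq_zero_of_derivative_eq_zero h)
  set B : Hol U := aevalAeval (hmk gx hx) (hmk gy hy) (derivative P) with hB
  have hB0 : B ≠ 0 := hmin _ hder (natDegree_derivative_lt hdeg)
  have hxy : AlgOver (hmk gx hx) (hmk gy hy) := AlgOver.of_rel htr P0 hP0 h0
  set A : Hol U := ∑ j ∈ Finset.range (P.natDegree + 1),
    aeval (hmk gx hx) (derivative (P.coeff j)) * (hmk gy hy) ^ j with hA
  have hAalg : AlgOver (hmk gx hx) A := by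
    refine AlgOver.sum _ _ fun j _ => ?_
    exact (AlgOver.of_aeval _ _).mul (hxy.pow j)
  have hBalg : AlgOver (hmk gx hx) B := by
    rw [hB, ap_aeval_derivative]
    refine AlgOver.sum _ _ fun j _ => ?_
    refine (AlgOver.of_aeval _ _).mul (AlgOver.mul ?_ (hxy.pow _))
    have := AlgOver.const (hmk gx hx) (j : ℂ)
    rwa [map_natCast] at this
  -- the differential relation
  have hrel : B * hmk (deriv gy) hy.deriv = -(A * hmk (deriv gx) hx.deriv) := by
    rw [eq_neg_iff_add_eq_zero]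
    refine hol_ext fun u => ?_
    have hux := (hx u u.2).differentiableAt.hasDerivAt
    have huy := (hy u u.2).differentiableAt.hasDerivAt
    set F : ℂ → ℂ := fun z => ∑ j ∈ Finset.range (P.natDegree + 1),
      (P.coeff j).eval (gx z) * (gy z) ^ j with hF
    have hF0 : ∀ z ∈ U, F z = 0 := by
      intro z hz
      have h1 := congrArg (fun a : Hol U => a.1 ⟨z, hz⟩) hPv
      simp only [ap_aeval] at h1
      have h2 : (∑ j ∈ Finset.range (P.natDegree + 1), (aeval (hmk gx hx)) (P.coeff j) *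
          (hmk gy hy) ^ j : Hol U).1 ⟨z, hz⟩ = F z := by
        rw [← hev_apply, map_sum, hF]
        refine Finset.sum_congr rfl fun j _ => ?_
        rw [map_mul, map_pow, hev_apply, hev_apply, hol_aeval]
        rfl
      rw [← h2]
      exact h1
    have hd : HasDerivAt F (∑ j ∈ Finset.range (P.natDegree + 1),
        ((derivative (P.coeff j)).eval (gx u) * deriv gx u * (gy u) ^ j +
          (P.coeff j).eval (gx u) * ((j : ℕ) * (gy u) ^ (j - 1) * deriv gy u))) u := by
      rw [hF]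
      refine HasDerivAt.fun_sum fun j _ => ?_
      have h1 : HasDerivAt (fun z => (P.coeff j).eval (gx z))
          ((derivative (P.coeff j)).eval (gx u) * deriv gx u) u :=
        HasDerivAt.comp (u : ℂ) ((P.coeff j).hasDerivAt (gx u)) hux
      exact h1.mul (huy.pow j)
    have hd0 : HasDerivAt F 0 u := by
      have h1 : F =ᶠ[nhds (u : ℂ)] fun _ => 0 := by
        filter_upwards [hUo.mem_nhds u.2] with z hz
        exact hF0 z hz
      exact (hasDerivAt_const (u : ℂ) (0 : ℂ)).congr_of_eventuallyEq h1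
    have h3 := hd.unique hd0
    have h4 : (B * hmk (deriv gy) hy.deriv + A * hmk (deriv gx) hx.deriv).1 u =
        ∑ j ∈ Finset.range (P.natDegree + 1),
        ((derivative (P.coeff j)).eval (gx u) * deriv gx u * (gy u) ^ j +
          (P.coeff j).eval (gx u) * ((j : ℕ) * (gy u) ^ (j - 1) * deriv gy u)) := by
      rw [hB, hA, ap_aeval_derivative, ← hev_apply, map_add, map_mul, map_mul, map_sum, map_sum,
        hev_apply, hev_apply, hmk_apply, hmk_apply, Finset.sum_mul, Finset.sum_mul,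
        ← Finset.sum_add_distrib]
      refine Finset.sum_congr rfl fun j _ => ?_
      rw [map_mul, map_mul, map_mul, map_pow, map_pow, map_natCast, hev_apply, hev_apply, hev_apply,
        hol_aeval, hol_aeval, hmk_apply, hmk_apply]
      ring
    rw [h4, h3]
    rfl
  refine AlgOver.of_mul hB0 hBalg ?_
  rw [hrel]
  exact (hAalg.mul hx').neg

end Pool.Agent.Flat3
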