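import Pool.Agent.Flat3.Dir

set_option autoImplicit false

/-!
# The norm polynomial

`NG G` is a polynomial in four variables which vanishes at
`(x x', (1-x)(1-x'), y y', (1-y)(1-y'))` if `G (x, y) = 0`; in particular at
`(|x|², |1-x|², |y|², |1-y|²)` for complex numbers. If it vanishes at `(t^a0, .., t^a3)` then the
direction `a` is degenerate (type I or II).
-/

namespace Pool.Agent.Flat3

open Polynomial Pool.Agent.LThree Pool.Agent.LThreeC

open scoped Kronecker

/-- The companion matrix of `X² - (1 + u - v) X + u`. -/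
def cm {S : Type} [CommRing S] (u v : S) : Matrix (Fin 2) (Fin 2) S := !![0, -u; 1, 1 + u - v]

/-- The matrix of the multiplication by `G (x, y)`. -/
noncomputable def MG (G : MvPolynomial (Fin 2) ℚ) {S : Type} [CommRing S] [Algebra ℚ S]
    (q : Fin 4 → S) : Matrix (Fin 2 × Fin 2) (Fin 2 × Fin 2) S :=
  ∑ m ∈ G.support, algebraMap ℚ S (G.coeff m) •
    ((cm (q 0) (q 1) ^ m 0) ⊗ₖ (cm (q 2) (q 3) ^ m 1))

/-- The norm polynomial. -/
noncomputable def NG (G : MvPolynomial (Fin 2) ℚ) : MvPolynomial (Fin 4) ℚ :=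
  (MG G (MvPolynomial.X : Fin 4 → MvPolynomial (Fin 4) ℚ)).det

theorem MG_map (G : MvPolynomial (Fin 2) ℚ) {S T : Type} [CommRing S] [Algebra ℚ S] [CommRing T]
    [Algebra ℚ T] (f : S →ₐ[ℚ] T) (q : Fin 4 → S) :
    (MG G q).map f = MG G (fun i => f (q i)) := by
  have hcm : ∀ u v : S, (cm u v).map f = cm (f u) (f v) := by
    intro u v
    ext i j
    fin_cases i <;> fin_cases j <;> simp [cm]
  have hpow : ∀ (A : Matrix (Fin 2) (Fin 2) S) (n : ℕ), (A ^ n).map f = (A.map f) ^ n := by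
    intro A n
    exact Matrix.map_pow A f.toRingHom n
  ext i j
  simp only [MG, Matrix.map_apply, Matrix.sum_apply, Matrix.smul_apply, Matrix.kroneckerMap_apply,
    map_sum, smul_eq_mul, map_mul, AlgHom.commutes]
  refine Finset.sum_congr rfl fun m _ => ?_
  have h1 : ∀ (A : Matrix (Fin 2) (Fin 2) S) (n : ℕ) (i j : Fin 2), f ((A ^ n) i j) =
      ((A.map f) ^ n) i j := fun A n i j => by rw [← hpow]; rfl
  rw [h1, h1, hcm, hcm]

theorem NG_eval (G : MvPolynomial (Fin 2) ℚ) {S : Type} [CommRing S] [Algebra ℚ S]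
    (q : Fin 4 → S) : MvPolynomial.aeval q (NG G) = (MG G q).det := by
  rw [NG]
  have h := AlgHom.map_det (MvPolynomial.aeval q : MvPolynomial (Fin 4) ℚ →ₐ[ℚ] S)
    (MG G (MvPolynomial.X : Fin 4 → MvPolynomial (Fin 4) ℚ))
  rw [h]
  congr 1
  have h2 := MG_map G (MvPolynomial.aeval q : MvPolynomial (Fin 4) ℚ →ₐ[ℚ] S)
    (MvPolynomial.X : Fin 4 → MvPolynomial (Fin 4) ℚ)
  simp only [MvPolynomial.aeval_X] at h2
  exact h2

/-- the row `(1, x)` -/
def rv {S : Type} [CommRing S] (x : S) : Fin 2 → S := ![1, x]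

theorem rv_cm {S : Type} [CommRing S] {x x' : S} (n : ℕ) :
    Matrix.vecMul (rv x) (cm (x * x') ((1 - x) * (1 - x')) ^ n) = x ^ n • rv x := by
  induction n with
  | zero => simp
  | succ n ih =>
    rw [pow_succ, ← Matrix.vecMul_vecMul, ih, Matrix.smul_vecMul]
    have h : Matrix.vecMul (rv x) (cm (x * x') ((1 - x) * (1 - x'))) = x • rv x := by
      funext i
      fin_cases i
      · simp [rv, cm, Matrix.vecMul, dotProduct, Fin.sum_univ_two]
      · simp [rv, cm, Matrix.vecMul, dotProduct, Fin.sum_univ_two]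
        ring
    rw [h, smul_smul, pow_succ]

/-- the row `(x^i y^j)` -/
def rw2 {S : Type} [CommRing S] (x y : S) : Fin 2 × Fin 2 → S := fun p => rv x p.1 * rv y p.2

theorem rw2_MG (G : MvPolynomial (Fin 2) ℚ) {S : Type} [CommRing S] [Algebra ℚ S]
    (x x' y y' : S) : Matrix.vecMul (rw2 x y)
      (MG G ![x * x', (1 - x) * (1 - x'), y * y', (1 - y) * (1 - y')]) =
      MvPolynomial.aeval ![x, y] G • rw2 x y := by
  have h1 : ∀ n, ∀ j, ∑ i, rv x i * (cm (x * x') ((1 - x) * (1 - x')) ^ n) i j = x ^ n * rv x j :=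
    fun n j => congrFun (rv_cm (x := x) (x' := x') n) j
  have h2 : ∀ n, ∀ j, ∑ i, rv y i * (cm (y * y') ((1 - y) * (1 - y')) ^ n) i j = y ^ n * rv y j :=
    fun n j => congrFun (rv_cm (x := y) (x' := y') n) j
  funext p
  obtain ⟨j, l⟩ := p
  rw [Matrix.vecMul, dotProduct]
  simp only [MG, Matrix.sum_apply, Matrix.smul_apply, Matrix.kroneckerMap_apply, smul_eq_mul,
    Matrix.cons_val_zero, Matrix.cons_val_one, Matrix.cons_val, Pi.smul_apply, Finset.mul_sum]
  rw [Finset.sum_comm, MvPolynomial.aeval_def, MvPolynomial.eval₂_eq', Finset.sum_mul]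
  refine Finset.sum_congr rfl fun m _ => ?_
  rw [Fintype.sum_prod_type, Fin.prod_univ_two]
  simp only [Matrix.cons_val_zero, Matrix.cons_val_one, rw2]
  have h3 : ∑ i, ∑ i', rv x i * rv y i' * (algebraMap ℚ S (G.coeff m) *
      ((cm (x * x') ((1 - x) * (1 - x')) ^ m 0) i j *
        (cm (y * y') ((1 - y) * (1 - y')) ^ m 1) i' l)) = algebraMap ℚ S (G.coeff m) *
      ((∑ i, rv x i * (cm (x * x') ((1 - x) * (1 - x')) ^ m 0) i j) *
        ∑ i', rv y i' * (cm (y * y') ((1 - y) * (1 - y')) ^ m 1) i' l) := by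
    rw [Finset.sum_mul_sum, Finset.mul_sum]
    refine Finset.sum_congr rfl fun i _ => ?_
    rw [Finset.mul_sum]
    exact Finset.sum_congr rfl fun i' _ => by ring
  rw [h3, h1, h2]
  ring

/-- The norm polynomial vanishes. -/
theorem NG_eq_zero (G : MvPolynomial (Fin 2) ℚ) {F : Type} [Field F] [Algebra ℚ F]
    {x x' y y' : F} (h : MvPolynomial.aeval ![x, y] G = 0) : MvPolynomial.aeval
      ![x * x', (1 - x) * (1 - x'), y * y', (1 - y) * (1 - y')] (NG G) = 0 := by
  rw [NG_eval]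
  apply Matrix.exists_vecMul_eq_zero_iff.1
  refine ⟨rw2 x y, ?_, ?_⟩
  · intro h0
    have := congrFun h0 (0, 0)
    simp [rw2, rv] at this
  · rw [rw2_MG, h, zero_smul]

/-- Conversely, `G` vanishes for some choice of signs. -/
theorem exists_of_NG (G : MvPolynomial (Fin 2) ℚ) {F : Type} [Field F] [Algebra ℚ F]
    {x x' y y' : F} (hx : x ≠ x') (hy : y ≠ y') (h : MvPolynomial.aeval
      ![x * x', (1 - x) * (1 - x'), y * y', (1 - y) * (1 - y')] (NG G) = 0) :
    MvPolynomial.aeval ![x, y] G = 0 ∨ MvPolynomial.aeval ![x, y'] G = 0 ∨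
      MvPolynomial.aeval ![x', y] G = 0 ∨ MvPolynomial.aeval ![x', y'] G = 0 := by
  by_contra hcon
  push Not at hcon
  obtain ⟨h1, h2, h3, h4⟩ := hcon
  set M := MG G ![x * x', (1 - x) * (1 - x'), y * y', (1 - y) * (1 - y')] with hM
  rw [NG_eval, ← hM] at h
  obtain ⟨v, hv, hMv⟩ := Matrix.exists_mulVec_eq_zero_iff.2 h
  -- the four rows kill `v`
  have key : ∀ (w : Fin 2 × Fin 2 → F) (c : F), c ≠ 0 → Matrix.vecMul w M = c • w → w ⬝ᵥ v = 0 := by
    intro w c hc hw
    have e : Matrix.vecMul w M ⬝ᵥ v = 0 := by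
      rw [← Matrix.dotProduct_mulVec, hMv, dotProduct_zero]
    rw [hw, smul_dotProduct, smul_eq_mul] at e
    exact (mul_eq_zero.1 e).resolve_left hc
  have k1 := key _ _ h1 (rw2_MG G x x' y y')
  have k2 := key (rw2 x y') _ h2 (by
    have := rw2_MG G x x' y' y
    rwa [mul_comm y' y, mul_comm (1 - y') (1 - y)] at this)
  have k3 := key (rw2 x' y) _ h3 (by
    have := rw2_MG G x' x y y'
    rwa [mul_comm x' x, mul_comm (1 - x') (1 - x)] at this)
  have k4 := key (rw2 x' y') _ h4 (by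
    have := rw2_MG G x' x y' y
    rwa [mul_comm x' x, mul_comm (1 - x') (1 - x), mul_comm y' y,
      mul_comm (1 - y') (1 - y)] at this)
  simp only [dotProduct, Fintype.sum_prod_type, Fin.sum_univ_two, rw2, rv, Matrix.cons_val_zero,
    Matrix.cons_val_one, one_mul, mul_one] at k1 k2 k3 k4
  have hx' : x - x' ≠ 0 := sub_ne_zero.2 hx
  have hy' : y - y' ≠ 0 := sub_ne_zero.2 hy
  have a1 : v (0, 1) + x * v (1, 1) = 0 := by
    have : (y - y') * (v (0, 1) + x * v (1, 1)) = 0 := by linear_combination k1 - k2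
    exact (mul_eq_zero.1 this).resolve_left hy'
  have a2 : v (0, 1) + x' * v (1, 1) = 0 := by
    have : (y - y') * (v (0, 1) + x' * v (1, 1)) = 0 := by linear_combination k3 - k4
    exact (mul_eq_zero.1 this).resolve_left hy'
  have a3 : v (1, 1) = 0 := by
    have : (x - x') * v (1, 1) = 0 := by linear_combination a1 - a2
    exact (mul_eq_zero.1 this).resolve_left hx'
  have a4 : v (0, 1) = 0 := by rw [a3, mul_zero, add_zero] at a1; exact a1
  rw [a3, a4] at k1 k3
  have a5 : v (1, 0) = 0 := by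
    have : (x - x') * v (1, 0) = 0 := by linear_combination k1 - k3
    exact (mul_eq_zero.1 this).resolve_left hx'
  have a6 : v (0, 0) = 0 := by
    rw [a5] at k1
    linear_combination k1
  apply hv
  funext p
  obtain ⟨i, j⟩ := p
  fin_cases i <;> fin_cases j
  · exact a6
  · exact a4
  · exact a5
  · exact a3

end Pool.Agent.Flat3
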