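import Pool.Agent.Flat3.Norm

set_option autoImplicit false

/-!
# Degenerate directions of the norm polynomial
-/

namespace Pool.Agent.Flat3

open Polynomial Pool.Agent.LThree Pool.Agent.LThreeC

/-- What is used about the polynomial `G`: an irreducible factor of the polynomial of the
relation `r` which is not one of the exceptional ones. -/
structure Good (G : MvPolynomial (Fin 2) ℚ) (r : Fin 4 → ℤ) : Prop where
  rel : ∀ {F : Type} [Field F] [CharZero F] (x y : F), x ≠ 0 → x ≠ 1 → y ≠ 0 → y ≠ 1 →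
    MvPolynomial.aeval ![x, y] G = 0 → x ^ r 0 * (1 - x) ^ r 1 * (y ^ r 2 * (1 - y) ^ r 3) = 1
  eqv : ∀ {F : Type} [Field F] [CharZero F] (x y : F), MvPolynomial.aeval ![x, y] G = 0 →
    Transcendental ℚ x → Transcendental ℚ y → ¬ Eqv x y
  six : ∀ {F : Type} [Field F] [CharZero F] (x y : F), MvPolynomial.aeval ![x, y] G = 0 →
    x ^ 2 - x + 1 = 0 → IsAlgebraic ℚ y
  six' : ∀ {F : Type} [Field F] [CharZero F] (x y : F), MvPolynomial.aeval ![x, y] G = 0 →
    y ^ 2 - y + 1 = 0 → IsAlgebraic ℚ x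

/-! ### An algebraically closed field with a derivation -/

/-- the field -/
private abbrev nd_F : Type := AlgebraicClosure (RatFunc ℚ)

private noncomputable def nd_t : nd_F := algebraMap (RatFunc ℚ) nd_F RatFunc.X

private theorem nd_tr : Transcendental ℚ nd_t := by
  have h1 : Transcendental ℚ (RatFunc.X : RatFunc ℚ) := by
    convert! (RatFunc.transcendental_X (K := ℚ))
    exact Subsingleton.elim _ _
  intro h
  apply h1
  exact (isAlgebraic_algebraMap_iff (algebraMap (RatFunc ℚ) nd_F).injective).1 h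

private theorem nd_rat (A : Subfield nd_F) (hA : nd_t ∈ A) (r : RatFunc ℚ) :
    algebraMap (RatFunc ℚ) nd_F r ∈ A := by
  have hp : ∀ p : ℚ[X], algebraMap (RatFunc ℚ) nd_F (algebraMap ℚ[X] (RatFunc ℚ) p) ∈ A := by
    intro p
    induction p using Polynomial.induction_on' with
    | add p q hp hq =>
      rw [map_add, map_add]
      exact A.add_mem hp hq
    | monomial n c =>
      rw [← C_mul_X_pow_eq_monomial, map_mul, map_mul, map_pow, map_pow]
      refine A.mul_mem ?_ (pow_mem ?_ n)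
      · have h1 : algebraMap (RatFunc ℚ) nd_F (algebraMap ℚ[X] (RatFunc ℚ) (C c)) =
            ((c : ℚ) : nd_F) :=
          eq_ratCast ((algebraMap (RatFunc ℚ) nd_F).comp
            ((algebraMap ℚ[X] (RatFunc ℚ)).comp (C : ℚ →+* ℚ[X]))) c
        rw [h1]
        exact SubfieldClass.ratCast_mem A c
      · rw [RatFunc.algebraMap_X]
        exact hA
  obtain ⟨p, q, hq, rfl⟩ := IsFractionRing.div_surjective (A := ℚ[X]) r
  rw [map_div₀]
  exact A.div_mem (hp p) (hp q)

private theorem nd_alg : Algebra.IsAlgebraic (IntermediateField.adjoin ℚ {nd_t}) nd_F := by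
  constructor
  intro z
  set K := IntermediateField.adjoin ℚ {nd_t} with hK
  have h1 : IsAlgebraic (RatFunc ℚ) z := Algebra.IsAlgebraic.isAlgebraic z
  have ht : nd_t ∈ K.toSubfield := IntermediateField.mem_adjoin_simple_self ℚ nd_t
  let f : RatFunc ℚ →+* K :=
    (algebraMap (RatFunc ℚ) nd_F).codRestrict K.toSubfield.toSubring (nd_rat K.toSubfield ht)
  exact h1.ringHom_of_comp_eq f (RingHom.id nd_F) f.injective rfl

private theorem nd_D : ∃ D : Derivation ℚ nd_F nd_F, D nd_t = nd_t ∧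
    ∀ f, D f = 0 ↔ IsAlgebraic ℚ f := by
  obtain ⟨D, h1, h2⟩ := exists_deriv (k := ℚ) (F := nd_F) nd_t nd_tr nd_alg
  have ht0 : nd_t ≠ 0 := fun h => nd_tr (h ▸ isAlgebraic_zero)
  refine ⟨nd_t • D, ?_, fun f => ?_⟩
  · rw [Derivation.smul_apply, h1, smul_eq_mul, mul_one]
  · rw [Derivation.smul_apply, smul_eq_mul, mul_eq_zero, ← h2]
    exact or_iff_right ht0

/-! ### Laurent polynomials at a transcendental element -/

section

variable {F : Type} [Field F] [CharZero F]

omit [CharZero F] in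
private theorem nd_pow {t : F} (ht : t ≠ 0) (N : ℕ) (a : ℤ) (h : -(N : ℤ) ≤ a) :
    t ^ N * t ^ a = t ^ (N + a).toNat := by
  rw [← zpow_natCast t N, ← zpow_add₀ ht, ← zpow_natCast, Int.toNat_of_nonneg (by omega)]

theorem sigma_ne {t : F} (ht : Transcendental ℚ t) (a b : ℤ) :
    (1 + t ^ a - t ^ b) ^ 2 ≠ 4 * t ^ a := by
  intro h
  have ht0 : t ≠ 0 := fun h => ht (h ▸ isAlgebraic_zero)
  set N : ℕ := a.natAbs + b.natAbs with hN
  have h1 : (t ^ N + t ^ (N + a).toNat - t ^ (N + b).toNat) ^ 2 =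
      4 * (t ^ N * t ^ (N + a).toNat) := by
    rw [← nd_pow ht0 N a (by omega), ← nd_pow ht0 N b (by omega)]
    linear_combination (t ^ N) ^ 2 * h
  have h2 : ((X ^ N + X ^ (N + a).toNat - X ^ (N + b).toNat) ^ 2 : ℚ[X]) =
      4 * (X ^ N * X ^ (N + a).toNat) := by
    apply poly_eq ht
    simp only [map_pow, map_sub, map_add, map_mul, aeval_X, map_ofNat]
    exact h1
  have h3 := congrArg (eval 1) h2
  simp only [eval_pow, eval_sub, eval_add, eval_mul, eval_X, one_pow, eval_ofNat] at h3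
  norm_num at h3

/-- If `x` is algebraic then the exponents vanish. -/
theorem exp_zero {t x x' : F} (ht : Transcendental ℚ t) {a b : ℤ} (h0 : x * x' = t ^ a)
    (h1 : (1 - x) * (1 - x') = t ^ b) (hx : IsAlgebraic ℚ x) : a = 0 ∧ b = 0 := by
  have ht0 : t ≠ 0 := fun h => ht (h ▸ isAlgebraic_zero)
  have hx0 : x ≠ 0 := by
    rintro rfl
    exact zpow_ne_zero a ht0 (by rw [← h0]; ring)
  have hx1 : 1 - x ≠ 0 := by
    intro h
    rw [h, zero_mul] at h1
    exact zpow_ne_zero b ht0 h1.symm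
  let L := algebraicClosure ℚ F
  have : Algebra.IsAlgebraic ℚ L := algebraicClosure.isAlgebraic ℚ F
  let xx : L := ⟨x, mem_algebraicClosure_iff.2 hx⟩
  have htL : Transcendental L t := fun h => ht (h.restrictScalars ℚ)
  set N : ℕ := a.natAbs + b.natAbs with hN
  have e : (1 - x) * x * t ^ N - (1 - x) * t ^ (N + a).toNat - x * t ^ (N + b).toNat = 0 := by
    rw [← nd_pow ht0 N a (by omega), ← nd_pow ht0 N b (by omega)]
    linear_combination t ^ N * (x * h1 - (1 - x) * (-h0))
  have e2 : (C ((1 - xx) * xx) * X ^ N - C (1 - xx) * X ^ (N + a).toNat -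
      C xx * X ^ (N + b).toNat : L[X]) = 0 := by
    apply transcendental_iff.1 htL
    simp only [map_sub, map_mul, map_pow, aeval_X, aeval_C, map_one]
    exact e
  have hxx : xx ≠ 0 := fun h => hx0 (congrArg Subtype.val h)
  have hxx1 : 1 - xx ≠ 0 := fun h => hx1 (congrArg Subtype.val h)
  have hc := fun k => congrArg (fun P => coeff P k) e2
  simp only [coeff_sub, coeff_C_mul, coeff_X_pow, coeff_zero] at hc
  have cN := hc N
  have ca := hc (N + a).toNat
  have cb := hc (N + b).toNat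
  by_cases ha : a = 0
  · by_cases hb : b = 0
    · exact ⟨ha, hb⟩
    · exfalso
      rw [if_neg (by omega), if_neg (by omega), if_pos rfl] at cb
      apply hxx
      linear_combination -cb
  · exfalso
    by_cases hb : b = 0
    · rw [if_neg (by omega), if_pos rfl, if_neg (by omega)] at ca
      apply hxx1
      linear_combination -ca
    · rw [if_pos rfl, if_neg (by omega), if_neg (by omega)] at cN
      apply mul_ne_zero hxx1 hxx
      linear_combination cN

end

/-- the exponent of `t` in a monomial -/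
def dt (m : Fin 4 →₀ ℕ) (a : Fin 4 → ℤ) : ℤ := ∑ i, (m i : ℤ) * a i

/-- **Nondegenerate directions.** If the direction `a` is not of type I or II, then the exponential
sum `NG G (t^a)` has a nonzero coefficient. -/
theorem exists_class {G : MvPolynomial (Fin 2) ℚ} {r : Fin 4 → ℤ} (hr : r ≠ 0) (hG : Good G r)
    (a : Fin 4 → ℤ) (ha : a ≠ 0) (hT : ¬ (TypeI r a ∨ TypeII r a)) :
    ∃ c : ℤ, ∑ m ∈ (NG G).support with dt m a = c, (NG G).coeff m ≠ 0 := by
  by_contra hcon
  push Not at hcon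
  have ht := nd_tr
  have ht0 : nd_t ≠ 0 := fun h => nd_tr (h ▸ isAlgebraic_zero)
  -- the value vanishes
  have hval : MvPolynomial.aeval (fun i => nd_t ^ a i) (NG G) = 0 := by
    rw [MvPolynomial.aeval_def, MvPolynomial.eval₂_eq']
    have h1 : ∀ m ∈ (NG G).support, algebraMap ℚ nd_F ((NG G).coeff m) * ∏ i, (nd_t ^ a i) ^ m i =
        algebraMap ℚ nd_F ((NG G).coeff m) * nd_t ^ dt m a := by
      intro m _
      congr 1
      rw [dt, Fin.prod_univ_four, Fin.sum_univ_four, zpow_add₀ ht0, zpow_add₀ ht0,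
        zpow_add₀ ht0]
      have h2 : ∀ i, (nd_t ^ a i) ^ m i = nd_t ^ ((m i : ℤ) * a i) := by
        intro i
        rw [← zpow_natCast, ← zpow_mul, mul_comm]
      rw [h2, h2, h2, h2]
    rw [Finset.sum_congr rfl h1]
    rw [← Finset.sum_fiberwise_of_maps_to (s := (NG G).support)
      (t := (NG G).support.image fun m => dt m a) (g := fun m => dt m a)
      (fun m hm => Finset.mem_image_of_mem _ hm)]
    refine Finset.sum_eq_zero fun c _ => ?_
    have h2 : ∑ m ∈ (NG G).support with dt m a = c, algebraMap ℚ nd_F ((NG G).coeff m) *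
        nd_t ^ dt m a = algebraMap ℚ nd_F (∑ m ∈ (NG G).support with dt m a = c, (NG G).coeff m) *
          nd_t ^ c := by
      rw [map_sum, Finset.sum_mul]
      refine Finset.sum_congr rfl fun m hm => ?_
      rw [(Finset.mem_filter.1 hm).2]
    rw [h2, hcon c, map_zero, zero_mul]
  -- roots
  have hroot : ∀ u v : ℤ, ∃ x x' : nd_F, x * x' = nd_t ^ u ∧ (1 - x) * (1 - x') = nd_t ^ v ∧
      x ≠ x' := by
    intro u v
    obtain ⟨x, hx⟩ := IsAlgClosed.exists_root
      (X ^ 2 - C (1 + nd_t ^ u - nd_t ^ v) * X + C (nd_t ^ u) : nd_F[X]) (by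
        have : (X ^ 2 - C (1 + nd_t ^ u - nd_t ^ v) * X + C (nd_t ^ u) : nd_F[X]).degree = 2 := by
          compute_degree!
        rw [this]
        norm_num)
    have hx' : x ^ 2 - (1 + nd_t ^ u - nd_t ^ v) * x + nd_t ^ u = 0 := by
      simpa [IsRoot.def] using hx
    refine ⟨x, 1 + nd_t ^ u - nd_t ^ v - x, by linear_combination -hx',
      by linear_combination -hx', fun h => ?_⟩
    apply sigma_ne ht u v
    have h2 : 1 + nd_t ^ u - nd_t ^ v = 2 * x := by linear_combination -h
    rw [h2] at hx' ⊢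
    linear_combination 4 * (-hx')
  obtain ⟨x, x', e0, e1, hxx⟩ := hroot (a 0) (a 1)
  obtain ⟨y, y', e2, e3, hyy⟩ := hroot (a 2) (a 3)
  have hval2 : MvPolynomial.aeval
      ![x * x', (1 - x) * (1 - x'), y * y', (1 - y) * (1 - y')] (NG G) = 0 := by
    rw [e0, e1, e2, e3]
    have h3 : ![nd_t ^ a 0, nd_t ^ a 1, nd_t ^ a 2, nd_t ^ a 3] = fun i => nd_t ^ a i := by
      funext i
      fin_cases i <;> rfl
    rw [h3, hval]
  obtain ⟨D, hDt, hD⟩ := nd_D
  -- the end
  have fin : ∀ x x' y y' : nd_F, x * x' = nd_t ^ a 0 → (1 - x) * (1 - x') = nd_t ^ a 1 →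
      y * y' = nd_t ^ a 2 → (1 - y) * (1 - y') = nd_t ^ a 3 →
      MvPolynomial.aeval ![x, y] G = 0 → False := by
    intro x x' y y' e0 e1 e2 e3 h
    have hne : ∀ {x x' : nd_F} {a b : ℤ}, x * x' = nd_t ^ a → (1 - x) * (1 - x') = nd_t ^ b →
        x ≠ 0 ∧ x ≠ 1 := by
      intro x x' a b h0 h1
      refine ⟨?_, ?_⟩
      · rintro rfl
        exact zpow_ne_zero a ht0 (by rw [← h0]; ring)
      · rintro rfl
        exact zpow_ne_zero b ht0 (by rw [← h1]; ring)
    obtain ⟨hx0, hx1⟩ := hne e0 e1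
    obtain ⟨hy0, hy1⟩ := hne e2 e3
    have six : ∀ {x x' : nd_F} {a b : ℤ}, x * x' = nd_t ^ a → (1 - x) * (1 - x') = nd_t ^ b →
        IsAlgebraic ℚ x → a = 0 ∧ b = 0 ∧ x ^ 2 - x + 1 = 0 := by
      intro x x' a b h0 h1 hx
      obtain ⟨h2, h3⟩ := exp_zero ht h0 h1 hx
      rw [h2, zpow_zero] at h0
      rw [h3, zpow_zero] at h1
      exact ⟨h2, h3, by linear_combination (x - 1) * h0 - x * h1⟩
    have hx : Transcendental ℚ x := by
      intro hx
      obtain ⟨h2, h3, h4⟩ := six e0 e1 hx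
      have h5 := hG.six x y h h4
      obtain ⟨h6, h7, -⟩ := six e2 e3 h5
      apply ha
      funext i
      fin_cases i
      · exact h2
      · exact h3
      · exact h6
      · exact h7
    have hy : Transcendental ℚ y := by
      intro hy
      obtain ⟨h2, h3, h4⟩ := six e2 e3 hy
      exact hx (hG.six' x y h h4)
    exact hT (classify D hD hDt ht a r hr e0 e1 e2 e3 hx hy (hG.eqv x y h hx hy)
      (hG.rel x y hx0 hx1 hy0 hy1 h))
  rcases exists_of_NG G hxx hyy hval2 with h | h | h | h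
  · exact fin x x' y y' e0 e1 e2 e3 h
  · exact fin x x' y' y e0 e1 (by rw [mul_comm, e2]) (by rw [mul_comm, e3]) h
  · exact fin x' x y y' (by rw [mul_comm, e0]) (by rw [mul_comm, e1]) e2 e3 h
  · exact fin x' x y' y (by rw [mul_comm, e0]) (by rw [mul_comm, e1]) (by rw [mul_comm, e2])
      (by rw [mul_comm, e3]) h

end Pool.Agent.Flat3
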