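import Pool.Agent.Flat3.ArcCount

set_option autoImplicit false

/-! Torsion points near an arc `|1-X|^a |1-Z|^b |1-XZ|^c = 1`. -/

namespace Pool.Agent.Flat3

open Metric

private theorem Ef_root (N k : ℕ) :
    Ef ((k : ℂ) / N) = Complex.exp (2 * Real.pi * Complex.I / N) ^ k := by
  rw [Ef, ← Complex.exp_nat_mul]
  congr 1
  ring

/-- For real `u`, `Sf u = ‖1 - Ef u‖²`. -/
theorem Sf_real (u : ℝ) : Sf u = ((‖1 - Ef u‖ ^ 2 : ℝ) : ℂ) := by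
  have hE1 : ‖Ef u‖ = 1 := by
    rw [Ef]
    have : 2 * (Real.pi : ℂ) * Complex.I * (u : ℂ) = ((2 * Real.pi * u : ℝ) : ℂ) * Complex.I := by
      push_cast
      ring
    rw [this, Complex.norm_exp_ofReal_mul_I]
  have hconj : (starRingEnd ℂ) (Ef u) = (Ef u)⁻¹ := by
    rw [Complex.inv_def, Complex.normSq_eq_norm_sq, hE1]
    simp
  rw [← Complex.normSq_eq_norm_sq, Complex.normSq_eq_conj_mul_self, map_sub, map_one, hconj, Sf_eq]
  have hne := Ef_ne u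
  field_simp
  ring

private theorem zpow_sq_cast (x : ℝ) (n : ℤ) : (((x ^ 2 : ℝ) : ℂ)) ^ n = (((x ^ n) ^ 2 : ℝ) : ℂ) := by
  rw [← Complex.ofReal_zpow]
  congr 1
  rw [← zpow_natCast, ← zpow_natCast, ← zpow_mul, ← zpow_mul, mul_comm]

/-- The value at a real point. -/
theorem Gf_real (a b c : ℤ) (u w : ℝ) : Gf a b c ((u : ℂ), (w : ℂ)) =
    (((‖1 - Ef u‖ ^ a * ‖1 - Ef w‖ ^ b * ‖1 - Ef (u + w)‖ ^ c) ^ 2 - 1 : ℝ) : ℂ) := by
  have h3 : Sf ((u : ℂ) + w) = ((‖1 - Ef ((u : ℂ) + w)‖ ^ 2 : ℝ) : ℂ) := by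
    have := Sf_real (u + w)
    push_cast at this ⊢
    exact this
  unfold Gf
  simp only
  rw [Sf_real u, Sf_real w, h3, zpow_sq_cast, zpow_sq_cast, zpow_sq_cast]
  push_cast
  ring

/-- The compact region. -/
def Reg (δ : ℝ) : Set (ℂ × ℂ) :=
  (((fun x : ℝ => (x : ℂ)) '' Set.Icc 0 1) ×ˢ ((fun x : ℝ => (x : ℂ)) '' Set.Icc 0 1)) ∩
    {p | δ ≤ ‖1 - Ef p.1‖ ∧ δ ≤ ‖1 - Ef p.2‖ ∧ δ ≤ ‖1 - Ef (p.1 + p.2)‖}

theorem Reg_compact (δ : ℝ) : IsCompact (Reg δ) := by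
  have h1 : IsCompact ((fun x : ℝ => (x : ℂ)) '' Set.Icc 0 1) :=
    isCompact_Icc.image Complex.continuous_ofReal
  have hE : Continuous Ef := Ef_differentiable.continuous
  have h2 : IsClosed {p : ℂ × ℂ | δ ≤ ‖1 - Ef p.1‖ ∧ δ ≤ ‖1 - Ef p.2‖ ∧ δ ≤ ‖1 - Ef (p.1 + p.2)‖} := by
    refine IsClosed.and ?_ (IsClosed.and ?_ ?_)
    · exact isClosed_le continuous_const (continuous_const.sub (hE.comp continuous_fst)).norm
    · exact isClosed_le continuous_const (continuous_const.sub (hE.comp continuous_snd)).norm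
    · exact isClosed_le continuous_const
        (continuous_const.sub (hE.comp (continuous_fst.add continuous_snd))).norm
  exact (h1.prod h1).inter_right h2

theorem Sf_ne_of (δ : ℝ) (hδ : 0 < δ) (z : ℂ) (h : δ ≤ ‖1 - Ef z‖) : Sf z ≠ 0 := by
  rw [Sf_eq]
  have h1 : 1 - Ef z ≠ 0 := by
    intro h0
    rw [h0, norm_zero] at h
    linarith
  exact div_ne_zero (neg_ne_zero.2 (pow_ne_zero _ h1)) (Ef_ne z)

theorem Gf_cont (a b c : ℤ) (δ : ℝ) (hδ : 0 < δ) (p : ℂ × ℂ) (hp : p ∈ Reg δ) :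
    ContinuousAt (Gf a b c) p := by
  obtain ⟨_, h1, h2, h3⟩ := hp
  have hS : Continuous Sf := Sf_differentiable.continuous
  have e1 : ContinuousAt (fun q : ℂ × ℂ => Sf q.1) p := (hS.comp continuous_fst).continuousAt
  have e2 : ContinuousAt (fun q : ℂ × ℂ => Sf q.2) p := (hS.comp continuous_snd).continuousAt
  have e3 : ContinuousAt (fun q : ℂ × ℂ => Sf (q.1 + q.2)) p :=
    (hS.comp (continuous_fst.add continuous_snd)).continuousAt
  have g1 := e1.zpow₀ a (Or.inl (Sf_ne_of δ hδ _ h1))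
  have g2 := e2.zpow₀ b (Or.inl (Sf_ne_of δ hδ _ h2))
  have g3 := e3.zpow₀ c (Or.inl (Sf_ne_of δ hδ _ h3))
  exact ((g1.mul g2).mul g3).sub continuousAt_const

/-- Every point of the region has a neighbourhood with few points. -/
theorem few_any (a b c : ℤ) (h : ArcType a b c) (δ : ℝ) (hδ : 0 < δ) (ε : ℝ) (hε : 0 < ε)
    (p : ℂ × ℂ) (hp : p ∈ Reg δ) : Few a b c ε p := by
  by_cases hG : Gf a b c p = 0
  · exact few_of_zero a b c h p hG ε hε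
  · have h1 : 0 < ‖Gf a b c p‖ := norm_pos_iff.2 hG
    have h2 : ∀ᶠ q in nhds p, ‖Gf a b c p‖ / 2 < ‖Gf a b c q‖ :=
      ((Gf_cont a b c δ hδ p hp).norm).eventually (lt_mem_nhds (by linarith))
    obtain ⟨r, hr, hball⟩ := Metric.eventually_nhds_iff_ball.1 h2
    refine ⟨r, 2 / ‖Gf a b c p‖, 0, hr, by positivity, fun N hN S hS => ?_⟩
    have h3 : S = ∅ := by
      rw [Finset.eq_empty_iff_forall_notMem]
      intro q hq
      obtain ⟨g1, g2, g3⟩ := hS q hq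
      have h4 := hball ((q.1 : ℂ) / N, (q.2 : ℂ) / N) (by
        rw [mem_ball, Prod.dist_eq]
        simp only [dist_eq_norm]
        exact max_lt g1 g2)
      rw [pow_zero, mul_one, div_mul_eq_mul_div, div_le_one h1] at g3
      linarith
    rw [h3, Finset.card_empty, Nat.cast_zero]
    positivity

/-- **Torsion points near an arc** (Bombieri-Pila). -/
theorem tors_arc (a b c : ℤ) (h : (c = 0 ∧ a ≠ 0 ∧ b ≠ 0 ∧ a + b ≠ 0) ∨
    (c = -(a + b) ∧ a ≠ 0 ∧ b ≠ 0 ∧ c ≠ 0)) (del eps : ℝ) (hdel : 0 < del) (heps : 0 < eps) :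
    ∃ C : ℝ, 0 < C ∧ ∀ N : ℕ, 1 ≤ N → ∀ S : Finset (ℕ × ℕ),
      (∀ q ∈ S, q.1 < N ∧ q.2 < N ∧
        del ≤ ‖1 - Complex.exp (2 * Real.pi * Complex.I / N) ^ q.1‖ ∧
        del ≤ ‖1 - Complex.exp (2 * Real.pi * Complex.I / N) ^ q.2‖ ∧
        del ≤ ‖1 - Complex.exp (2 * Real.pi * Complex.I / N) ^ (q.1 + q.2)‖ ∧
        |‖1 - Complex.exp (2 * Real.pi * Complex.I / N) ^ q.1‖ ^ a *
          ‖1 - Complex.exp (2 * Real.pi * Complex.I / N) ^ q.2‖ ^ b *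
          ‖1 - Complex.exp (2 * Real.pi * Complex.I / N) ^ (q.1 + q.2)‖ ^ c - 1| * C *
            (N : ℝ) ^ C ≤ 1) →
      (S.card : ℝ) ≤ C * (N : ℝ) ^ eps := by
  classical
  have hex : ∀ p : ℂ × ℂ, ∃ (r C : ℝ) (E : ℕ), 0 < r ∧ 0 < C ∧ (p ∈ Reg del →
      ∀ N : ℕ, 1 ≤ N → ∀ S : Finset (ℕ × ℕ),
      (∀ q ∈ S, ‖((q.1 : ℂ) / N) - p.1‖ < r ∧ ‖((q.2 : ℂ) / N) - p.2‖ < r ∧
        C * (N : ℝ) ^ E * ‖Gf a b c ((q.1 : ℂ) / N, (q.2 : ℂ) / N)‖ ≤ 1) →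
      (S.card : ℝ) ≤ C * (N : ℝ) ^ eps) := by
    intro p
    by_cases hp : p ∈ Reg del
    · obtain ⟨r, C, E, h1, h2, h3⟩ := few_any a b c h del hdel eps heps p hp
      exact ⟨r, C, E, h1, h2, fun _ => h3⟩
    · exact ⟨1, 1, 0, one_pos, one_pos, fun h => absurd h hp⟩
  choose r Cf E hr hCf hfew using hex
  obtain ⟨T, hT, hcov⟩ := (Reg_compact del).elim_nhds_subcover (fun p => ball p (r p))
    (fun p _ => ball_mem_nhds p (hr p))
  set C : ℝ := 1 + ∑ p ∈ T, (3 * Cf p + E p) with hC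
  have hsum0 : ∀ p ∈ T, (0 : ℝ) ≤ 3 * Cf p + E p := fun p _ => by
    have := hCf p
    positivity
  have hC1 : 1 ≤ C := by
    rw [hC]
    have := Finset.sum_nonneg hsum0
    linarith
  have hCp : ∀ p ∈ T, 3 * Cf p + E p ≤ C := by
    intro p hp
    have h1 := Finset.single_le_sum hsum0 hp
    rw [hC]
    linarith
  refine ⟨C, by linarith, fun N hN S hS => ?_⟩
  have rN : (1 : ℝ) ≤ N := by exact_mod_cast hN
  have hN0 : (0 : ℝ) < N := by linarith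
  -- the points of S lie in the region
  have hreg : ∀ q ∈ S, (((q.1 : ℂ) / N, (q.2 : ℂ) / N) : ℂ × ℂ) ∈ Reg del := by
    intro q hq
    obtain ⟨g1, g2, g3, g4, g5, _⟩ := hS q hq
    refine ⟨⟨⟨(q.1 : ℝ) / N, ⟨by positivity, ?_⟩, by push_cast; rfl⟩,
      ⟨(q.2 : ℝ) / N, ⟨by positivity, ?_⟩, by push_cast; rfl⟩⟩, ?_, ?_, ?_⟩
    · rw [div_le_one hN0]
      exact_mod_cast g1.le
    · rw [div_le_one hN0]
      exact_mod_cast g2.le
    · rw [Ef_root]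
      exact g3
    · rw [Ef_root]
      exact g4
    · have e : (q.1 : ℂ) / N + (q.2 : ℂ) / N = ((q.1 + q.2 : ℕ) : ℂ) / N := by
        push_cast
        ring
      simp only
      rw [e, Ef_root]
      exact g5
  -- the value of Gf
  have hval : ∀ q ∈ S, ∀ p ∈ T,
      Cf p * (N : ℝ) ^ (E p) * ‖Gf a b c ((q.1 : ℂ) / N, (q.2 : ℂ) / N)‖ ≤ 1 := by
    intro q hq p hp
    obtain ⟨_, _, _, _, _, g6⟩ := hS q hq
    set Q : ℝ := ‖1 - Complex.exp (2 * Real.pi * Complex.I / N) ^ q.1‖ ^ a *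
          ‖1 - Complex.exp (2 * Real.pi * Complex.I / N) ^ q.2‖ ^ b *
          ‖1 - Complex.exp (2 * Real.pi * Complex.I / N) ^ (q.1 + q.2)‖ ^ c with hQ
    have hGQ : Gf a b c ((q.1 : ℂ) / N, (q.2 : ℂ) / N) = ((Q ^ 2 - 1 : ℝ) : ℂ) := by
      have h1 := Gf_real a b c ((q.1 : ℝ) / N) ((q.2 : ℝ) / N)
      have e1 : (((q.1 : ℝ) / N : ℝ) : ℂ) = (q.1 : ℂ) / N := by push_cast; rfl
      have e2 : (((q.2 : ℝ) / N : ℝ) : ℂ) = (q.2 : ℂ) / N := by push_cast; rfl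
      have e : (q.1 : ℂ) / N + (q.2 : ℂ) / N = ((q.1 + q.2 : ℕ) : ℂ) / N := by
        push_cast
        ring
      rw [e1, e2, e, Ef_root, Ef_root, Ef_root] at h1
      rw [h1]
    have hNC : (1 : ℝ) ≤ (N : ℝ) ^ C := Real.one_le_rpow rN (by linarith)
    have hQ1 : |Q - 1| ≤ 1 := by
      have h2 : 1 ≤ C * (N : ℝ) ^ C := one_le_mul_of_one_le_of_one_le hC1 hNC
      have h3 : |Q - 1| * 1 ≤ |Q - 1| * (C * (N : ℝ) ^ C) :=
        mul_le_mul_of_nonneg_left h2 (abs_nonneg _)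
      calc |Q - 1| = |Q - 1| * 1 := by ring
        _ ≤ |Q - 1| * (C * (N : ℝ) ^ C) := h3
        _ = |Q - 1| * C * (N : ℝ) ^ C := by ring
        _ ≤ 1 := g6
    have hn : ‖Gf a b c ((q.1 : ℂ) / N, (q.2 : ℂ) / N)‖ ≤ 3 * |Q - 1| := by
      rw [hGQ, Complex.norm_real, Real.norm_eq_abs]
      have e3 : Q ^ 2 - 1 = (Q - 1) * ((Q - 1) + 2) := by ring
      rw [e3, abs_mul]
      have h4 : |Q - 1 + 2| ≤ 3 := by
        rw [abs_le] at hQ1 ⊢
        constructor <;> linarith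
      calc |Q - 1| * |Q - 1 + 2| ≤ |Q - 1| * 3 := mul_le_mul_of_nonneg_left h4 (abs_nonneg _)
        _ = 3 * |Q - 1| := by ring
    have hp1 := hCp p hp
    have hE0 : (0 : ℝ) ≤ E p := Nat.cast_nonneg _
    have hNE : (N : ℝ) ^ (E p) ≤ (N : ℝ) ^ C := by
      rw [← Real.rpow_natCast]
      apply Real.rpow_le_rpow_of_exponent_le rN
      have := hCf p
      linarith
    calc Cf p * (N : ℝ) ^ (E p) * ‖Gf a b c ((q.1 : ℂ) / N, (q.2 : ℂ) / N)‖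
        ≤ Cf p * (N : ℝ) ^ C * (3 * |Q - 1|) := by
          have := (hCf p).le
          gcongr
      _ = |Q - 1| * (3 * Cf p) * (N : ℝ) ^ C := by ring
      _ ≤ |Q - 1| * C * (N : ℝ) ^ C := by
          have h5 : 3 * Cf p ≤ C := by linarith
          gcongr
      _ ≤ 1 := g6
  -- cover
  have hsub : S ⊆ T.biUnion fun p => S.filter fun q =>
      (((q.1 : ℂ) / N, (q.2 : ℂ) / N) : ℂ × ℂ) ∈ ball p (r p) := by
    intro q hq
    obtain ⟨p, hp, hqp⟩ := Set.mem_iUnion₂.1 (hcov (hreg q hq))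
    exact Finset.mem_biUnion.2 ⟨p, hp, Finset.mem_filter.2 ⟨hq, hqp⟩⟩
  have hcard : ∀ p ∈ T, ((S.filter fun q =>
      (((q.1 : ℂ) / N, (q.2 : ℂ) / N) : ℂ × ℂ) ∈ ball p (r p)).card : ℝ) ≤
        Cf p * (N : ℝ) ^ eps := by
    intro p hp
    refine hfew p (hT p hp) N hN _ fun q hq => ?_
    obtain ⟨hq1, hq2⟩ := Finset.mem_filter.1 hq
    rw [mem_ball, Prod.dist_eq] at hq2
    simp only [dist_eq_norm] at hq2
    exact ⟨(le_max_left _ _).trans_lt hq2, (le_max_right _ _).trans_lt hq2, hval q hq1 p hp⟩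
  have h1 : (S.card : ℝ) ≤ ∑ p ∈ T, Cf p * (N : ℝ) ^ eps := by
    have h2 := (Finset.card_le_card hsub).trans Finset.card_biUnion_le
    calc (S.card : ℝ) ≤ ((∑ p ∈ T, (S.filter fun q =>
        (((q.1 : ℂ) / N, (q.2 : ℂ) / N) : ℂ × ℂ) ∈ ball p (r p)).card : ℕ) : ℝ) := by
          exact_mod_cast h2
      _ = ∑ p ∈ T, ((S.filter fun q =>
        (((q.1 : ℂ) / N, (q.2 : ℂ) / N) : ℂ × ℂ) ∈ ball p (r p)).card : ℝ) := by
          push_cast
          rfl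
      _ ≤ _ := Finset.sum_le_sum hcard
  rw [← Finset.sum_mul] at h1
  refine h1.trans ?_
  have h2 : ∑ p ∈ T, Cf p ≤ C := by
    have h3 : ∑ p ∈ T, Cf p ≤ ∑ p ∈ T, (3 * Cf p + E p) := by
      refine Finset.sum_le_sum fun p _ => ?_
      have := hCf p
      have h4 : (0 : ℝ) ≤ E p := Nat.cast_nonneg _
      linarith
    rw [hC]
    linarith
  gcongr

end Pool.Agent.Flat3
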