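import Pool.Agent.Flat3.Holo

set_option autoImplicit false

/-! The arcs `S(u)^a S(w)^b S(u+w)^c = 1`, `S(u) = 4 sin² (π u)`, are transcendental. -/

namespace Pool.Agent.Flat3

open Polynomial Metric

/-- The condition on the exponents. -/
def ArcType (a b c : ℤ) : Prop :=
  (c = 0 ∧ a ≠ 0 ∧ b ≠ 0 ∧ a + b ≠ 0) ∨ (c = -(a + b) ∧ a ≠ 0 ∧ b ≠ 0 ∧ c ≠ 0)

/-- `4 sin² (π u)`. -/
noncomputable def Sf (u : ℂ) : ℂ := 4 * Complex.sin (Real.pi * u) ^ 2

/-- `exp (2 π i u)`. -/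
noncomputable def Ef (u : ℂ) : ℂ := Complex.exp (2 * Real.pi * Complex.I * u)

theorem Ef_ne (u : ℂ) : Ef u ≠ 0 := Complex.exp_ne_zero _

theorem Ef_add (u w : ℂ) : Ef (u + w) = Ef u * Ef w := by
  rw [Ef, Ef, Ef, ← Complex.exp_add]
  congr 1
  ring

theorem Sf_eq (u : ℂ) : Sf u = -(1 - Ef u) ^ 2 / Ef u := by
  have h1 : Ef u = Complex.exp (Real.pi * u * Complex.I) ^ 2 := by
    rw [Ef, ← Complex.exp_nat_mul]
    congr 1
    push_cast
    ring
  have h2 : Complex.exp (Real.pi * u * Complex.I) ≠ 0 := Complex.exp_ne_zero _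
  rw [Sf, Complex.sin, h1]
  have h3 : Complex.exp (-(Real.pi * u) * Complex.I) = (Complex.exp (Real.pi * u * Complex.I))⁻¹ := by
    rw [← Complex.exp_neg]
    congr 1
    ring
  rw [h3]
  have hI : Complex.I ^ 2 = -1 := Complex.I_sq
  field_simp
  ring_nf
  rw [hI]
  ring

theorem Sf_eq_zero_iff (u : ℂ) : Sf u = 0 ↔ ∃ k : ℤ, u = k := by
  have hpi : (Real.pi : ℂ) ≠ 0 := by exact_mod_cast Real.pi_ne_zero
  rw [Sf, mul_eq_zero, or_iff_right (by norm_num : (4 : ℂ) ≠ 0), sq_eq_zero_iff,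
    Complex.sin_eq_zero_iff]
  constructor
  · rintro ⟨k, hk⟩
    refine ⟨k, ?_⟩
    rw [mul_comm] at hk
    exact mul_right_cancel₀ hpi hk
  · rintro ⟨k, hk⟩
    exact ⟨k, by rw [hk, mul_comm]⟩

theorem Sf_analytic : AnalyticOnNhd ℂ Sf Set.univ := by
  have : Differentiable ℂ Sf := by
    unfold Sf
    fun_prop
  exact this.differentiableOn.analyticOnNhd isOpen_univ

theorem Sf_half (k : ℤ) : Sf (1 / 2 + k) = 4 := by
  have h1 : Ef (1 / 2 + k) = -1 := by
    rw [Ef_add]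
    have h2 : Ef (1 / 2) = -1 := by
      rw [Ef]
      have : 2 * (Real.pi : ℂ) * Complex.I * (1 / 2) = Real.pi * Complex.I := by ring
      rw [this, Complex.exp_pi_mul_I]
    have h3 : Ef k = 1 := by
      rw [Ef, Complex.exp_eq_one_iff]
      exact ⟨k, by ring⟩
    rw [h2, h3, mul_one]
  rw [Sf_eq, h1]
  norm_num

theorem zpow_split (a : ℤ) (s T x : ℂ) (hx : x ≠ 0) (hs : s = T / x) (h : a = 0 ∨ s ≠ 0) :
    T ^ (-a).toNat * x ^ a.toNat ≠ 0 ∧
      s ^ a = (T ^ a.toNat * x ^ (-a).toNat) / (T ^ (-a).toNat * x ^ a.toNat) := by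
  rcases h with rfl | h
  · simp
  have hT : T ≠ 0 := by
    rintro rfl
    exact h (by rw [hs, zero_div])
  refine ⟨mul_ne_zero (pow_ne_zero _ hT) (pow_ne_zero _ hx), ?_⟩
  rcases le_total 0 a with ha | ha
  · obtain ⟨n, rfl⟩ := Int.eq_ofNat_of_zero_le ha
    have h1 : (-(n : ℤ)).toNat = 0 := by omega
    have h2 : ((n : ℤ)).toNat = n := by omega
    rw [h1, h2, zpow_natCast, hs, div_pow]
    simp
  · obtain ⟨n, hn⟩ := Int.eq_ofNat_of_zero_le (show 0 ≤ -a by omega)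
    have h0 : a = -(n : ℤ) := by omega
    subst h0
    have h1 : (- -(n : ℤ)).toNat = n := by omega
    have h2 : (-(n : ℤ)).toNat = 0 := by omega
    rw [h1, h2, zpow_neg, zpow_natCast, hs, div_pow]
    simp

/-- The linear case. -/
theorem lin_case (a b c : ℤ) (h : ArcType a b c) (κ κ' : ℂ)
    (hid : ∀ t : ℂ, Sf t ^ a.toNat * Sf (κ * t + κ') ^ b.toNat * Sf (t + (κ * t + κ')) ^ c.toNat =
      Sf t ^ (-a).toNat * Sf (κ * t + κ') ^ (-b).toNat * Sf (t + (κ * t + κ')) ^ (-c).toNat) :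
    False := by
  have ha : a ≠ 0 := by rcases h with h | h; exacts [h.2.1, h.2.1]
  have hb : b ≠ 0 := by rcases h with h | h; exacts [h.2.2.1, h.2.2.1]
  -- zeros
  have hz : ∀ (s : ℂ) (n : ℤ), s ^ n.toNat = 0 ↔ (s = 0 ∧ 0 < n) := by
    intro s n
    constructor
    · intro h1
      have h2 : s = 0 := by
        by_contra hs
        exact pow_ne_zero _ hs h1
      refine ⟨h2, ?_⟩
      by_contra hn
      have h3 : n.toNat = 0 := by omega
      rw [h3, pow_zero] at h1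
      exact one_ne_zero h1
    · rintro ⟨rfl, hn⟩
      exact zero_pow (by omega)
  have E : ∀ t : ℂ, ((∃ k : ℤ, t = k) ∧ 0 < a ∨ (∃ k : ℤ, κ * t + κ' = k) ∧ 0 < b) ∨
      (∃ k : ℤ, t + (κ * t + κ') = k) ∧ 0 < c ↔
      ((∃ k : ℤ, t = k) ∧ 0 < -a ∨ (∃ k : ℤ, κ * t + κ' = k) ∧ 0 < -b) ∨
      (∃ k : ℤ, t + (κ * t + κ') = k) ∧ 0 < -c := by
    intro t
    have h1 := hid t
    have h2 : Sf t ^ a.toNat * Sf (κ * t + κ') ^ b.toNat * Sf (t + (κ * t + κ')) ^ c.toNat = 0 ↔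
        Sf t ^ (-a).toNat * Sf (κ * t + κ') ^ (-b).toNat * Sf (t + (κ * t + κ')) ^ (-c).toNat = 0 := by
      rw [h1]
    simp only [mul_eq_zero, hz, Sf_eq_zero_iff] at h2
    exact h2
  have hsum : ∀ t : ℂ, (∃ k : ℤ, t = k) → (∃ k : ℤ, κ * t + κ' = k) →
      (∃ k : ℤ, t + (κ * t + κ') = k) := by
    rintro t ⟨k, hk⟩ ⟨l, hl⟩
    exact ⟨k + l, by rw [hl, hk]; push_cast; ring⟩
  have hd1 : ∀ t : ℂ, (∃ k : ℤ, t = k) → (∃ k : ℤ, t + (κ * t + κ') = k) →
      (∃ k : ℤ, κ * t + κ' = k) := by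
    rintro t ⟨k, hk⟩ ⟨l, hl⟩
    refine ⟨l - k, ?_⟩
    have : κ * t + κ' = (t + (κ * t + κ')) - t := by ring
    rw [this, hl, hk]
    push_cast
    ring
  have hd2 : ∀ t : ℂ, (∃ k : ℤ, κ * t + κ' = k) → (∃ k : ℤ, t + (κ * t + κ') = k) →
      (∃ k : ℤ, t = k) := by
    rintro t ⟨k, hk⟩ ⟨l, hl⟩
    refine ⟨l - k, ?_⟩
    have : t = (t + (κ * t + κ')) - (κ * t + κ') := by ring
    rw [this, hl, hk]
    push_cast
    ring
  -- the zero sets of the first two factors agree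
  have hAB : ∀ t : ℂ, (∃ k : ℤ, t = k) ↔ (∃ k : ℤ, κ * t + κ' = k) := by
    intro t
    have hE := E t
    have g1 := hsum t
    have g2 := hd1 t
    have g3 := hd2 t
    rcases h with ⟨hc, h1, h2, h3⟩ | ⟨hc, h1, h2, h3⟩
    · constructor
      · intro hA
        by_contra hB
        simp only [hA, hB, hc, true_and, false_and, or_false, lt_irrefl, and_false, neg_zero] at hE
        omega
      · intro hB
        by_contra hA
        simp only [hA, hB, hc, true_and, false_and, or_false, false_or, lt_irrefl, and_false,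
          neg_zero] at hE
        omega
    · constructor
      · intro hA
        by_contra hB
        have hC : ¬ (∃ k : ℤ, t + (κ * t + κ') = k) := fun hC => hB (g2 hA hC)
        simp only [hA, hB, hC, true_and, false_and, or_false] at hE
        omega
      · intro hB
        by_contra hA
        have hC : ¬ (∃ k : ℤ, t + (κ * t + κ') = k) := fun hC => hA (g3 hB hC)
        simp only [hA, hB, hC, true_and, false_and, or_false, false_or] at hE
        omega
  have hhalf : ¬ ∃ k : ℤ, (1 / 2 : ℂ) = k := by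
    rintro ⟨k, hk⟩
    have h1 : (1 : ℂ) = ((2 * k : ℤ) : ℂ) := by
      push_cast
      rw [← hk]
      norm_num
    have h2 : (1 : ℤ) = 2 * k := by exact_mod_cast h1
    omega
  obtain ⟨k0, hk0⟩ := (hAB 0).1 ⟨0, by simp⟩
  rw [mul_zero, zero_add] at hk0
  obtain ⟨k1, hk1⟩ := (hAB 1).1 ⟨1, by simp⟩
  have hκ : κ = ((k1 - k0 : ℤ) : ℂ) := by
    push_cast
    rw [← hk1, ← hk0]
    ring
  set m : ℤ := k1 - k0 with hm
  have hm0 : m ≠ 0 := by
    intro h0
    rw [h0, Int.cast_zero] at hκ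
    apply hhalf
    rw [hAB]
    exact ⟨k0, by rw [hκ, hk0]; ring⟩
  have hmC : (m : ℂ) ≠ 0 := by exact_mod_cast hm0
  have hm1 : m = 1 ∨ m = -1 := by
    obtain ⟨j, hj⟩ := (hAB ((m : ℂ)⁻¹)).2 ⟨1 + k0, by
      rw [hκ, mul_inv_cancel₀ hmC, hk0]
      push_cast
      ring⟩
    have h1 : ((m * j : ℤ) : ℂ) = 1 := by
      push_cast
      rw [← hj, mul_inv_cancel₀ hmC]
    have h2 : m * j = 1 := by exact_mod_cast h1
    exact Int.eq_one_or_neg_one_of_mul_eq_one h2
  rcases h with ⟨hc, h1, h2, h3⟩ | ⟨hc, h1, h2, h3⟩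
  · -- type I
    have hE := E 0
    have hA : ∃ k : ℤ, (0 : ℂ) = k := ⟨0, by simp⟩
    have hB : ∃ k : ℤ, κ * 0 + κ' = k := (hAB 0).1 hA
    simp only [hA, hB, hc, true_and, lt_irrefl, and_false, neg_zero, or_false] at hE
    have hv := hid (1 / 2)
    have e1 : Sf (1 / 2) = 4 := by
      have := Sf_half 0
      rwa [Int.cast_zero, add_zero] at this
    have e2 : Sf (κ * (1 / 2) + κ') = 4 := by
      rcases hm1 with hm1 | hm1
      · have := Sf_half k0
        rw [hκ, hm1, hk0, Int.cast_one, one_mul]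
        exact this
      · have := Sf_half (k0 - 1)
        rw [hκ, hm1, hk0]
        rw [← this]
        congr 1
        push_cast
        ring
    rw [e1, e2, hc] at hv
    simp only [neg_zero, Int.toNat_zero, pow_zero, mul_one] at hv
    rw [← pow_add, ← pow_add] at hv
    have hv' : (4 : ℕ) ^ (a.toNat + b.toNat) = 4 ^ ((-a).toNat + (-b).toNat) := by
      exact_mod_cast hv
    have hv2 := Nat.pow_right_injective (le_refl 2 |>.trans (by norm_num : 2 ≤ 4)) hv'
    omega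
  · -- type II
    have hC : ∀ t : ℂ, (∃ k : ℤ, t + (κ * t + κ') = k) → ∃ k : ℤ, t = k := by
      intro t hC
      by_contra hA
      have hB : ¬ ∃ k : ℤ, κ * t + κ' = k := fun hB => hA ((hAB t).2 hB)
      have hE := E t
      simp only [hA, hB, hC, true_and, false_and, or_false, false_or] at hE
      omega
    apply hhalf
    apply hC
    rcases hm1 with hm1 | hm1
    · refine ⟨1 + k0, ?_⟩
      rw [hκ, hm1, hk0]
      push_cast
      ring
    · refine ⟨k0, ?_⟩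
      rw [hκ, hm1, hk0]
      push_cast
      ring

end Pool.Agent.Flat3
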