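import Pool.Agent.Flat3.TransArc

set_option autoImplicit false

/-! `u` and `exp (2 π i u)` are algebraically independent on every disc. -/

namespace Pool.Agent.Flat3

open Polynomial Metric

/-- An entire function which vanishes on a disc vanishes. -/
theorem entire_zero (t0 : ℂ) (R : ℝ) (hR : 0 < R) (F : ℂ → ℂ) (hF : Differentiable ℂ F)
    (h : ∀ t ∈ ball t0 R, F t = 0) (t : ℂ) : F t = 0 := by
  have h1 : AnalyticOnNhd ℂ F Set.univ := hF.differentiableOn.analyticOnNhd isOpen_univ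
  have h2 : F =ᶠ[nhds t0] 0 := by
    filter_upwards [ball_mem_nhds t0 hR] with z hz
    exact h z hz
  exact h1.eqOn_zero_of_preconnected_of_eventuallyEq_zero isPreconnected_univ (Set.mem_univ t0) h2
    (Set.mem_univ t)

theorem Ef_surj (z : ℂ) (hz : z ≠ 0) : ∃ t : ℂ, Ef t = z := by
  refine ⟨Complex.log z / (2 * Real.pi * Complex.I), ?_⟩
  have h1 : (2 * (Real.pi : ℂ) * Complex.I) ≠ 0 := Complex.two_pi_I_ne_zero
  rw [Ef, mul_div_cancel₀ _ h1, Complex.exp_log hz]

theorem Ef_differentiable : Differentiable ℂ Ef := by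
  unfold Ef
  fun_prop

theorem Ef_nat (t : ℂ) (n : ℕ) : Ef (t + n) = Ef t := by
  rw [Ef_add]
  have : Ef n = 1 := by
    rw [Ef, Complex.exp_eq_one_iff]
    exact ⟨n, by push_cast; ring⟩
  rw [this, mul_one]

theorem poly_zero_of_ne (p : ℂ[X]) (h : ∀ z : ℂ, z ≠ 0 → p.eval z = 0) : p = 0 := by
  apply Polynomial.eq_zero_of_infinite_isRoot
  have h1 : {z : ℂ | z ≠ 0} ⊆ {x | p.IsRoot x} := fun z hz => h z hz
  refine Set.Infinite.mono h1 ?_
  have h2 : {z : ℂ | z ≠ 0} = ({0} : Set ℂ)ᶜ := rfl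
  rw [h2]
  exact (Set.finite_singleton (0 : ℂ)).infinite_compl

section

variable (t0 : ℂ) (R : ℝ) (hR : 0 < R)

include hR

theorem tr_id (hx : AnalyticOnNhd ℂ (fun z : ℂ => z) (ball t0 R)) (p : ℂ[X]) (hp : p ≠ 0) :
    aeval (hmk (fun z : ℂ => z) hx) p ≠ 0 := by
  intro h
  apply hp
  apply poly_zero_of_ne
  intro z _
  refine entire_zero t0 R hR (fun z => p.eval z) p.differentiable (fun t ht => ?_) z
  have h1 := congrArg (fun a : Hol (ball t0 R) => a.1 ⟨t, ht⟩) h
  simp only [hol_aeval] at h1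
  exact h1

theorem tr_Ef (hx : AnalyticOnNhd ℂ Ef (ball t0 R)) (p : ℂ[X]) (hp : p ≠ 0) :
    aeval (hmk Ef hx) p ≠ 0 := by
  intro h
  apply hp
  apply poly_zero_of_ne
  intro z hz
  obtain ⟨t, rfl⟩ := Ef_surj z hz
  refine entire_zero t0 R hR (fun z => p.eval (Ef z)) (p.differentiable.comp Ef_differentiable)
    (fun t ht => ?_) t
  have h1 := congrArg (fun a : Hol (ball t0 R) => a.1 ⟨t, ht⟩) h
  simp only [hol_aeval] at h1
  exact h1

theorem not_alg (hx : AnalyticOnNhd ℂ (fun z : ℂ => z) (ball t0 R))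
    (hE : AnalyticOnNhd ℂ Ef (ball t0 R)) (P : ℂ[X][X]) (hP : P ≠ 0) :
    aevalAeval (hmk (fun z : ℂ => z) hx) (hmk Ef hE) P ≠ 0 := by
  intro h
  apply hP
  -- the function vanishes everywhere
  set F : ℂ → ℂ := fun t => ∑ j ∈ Finset.range (P.natDegree + 1), (P.coeff j).eval t * (Ef t) ^ j
    with hF
  have hFd : Differentiable ℂ F := by
    rw [hF]
    have h1 : Differentiable ℂ Ef := Ef_differentiable
    exact Differentiable.fun_sum fun j _ => (P.coeff j).differentiable.mul (h1.pow j)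
  have hF0 : ∀ t, F t = 0 := entire_zero t0 R hR F hFd (fun t ht => by
    have h1 := congrArg (fun a : Hol (ball t0 R) => a.1 ⟨t, ht⟩) h
    simp only [ap_aeval] at h1
    have h2 : (∑ j ∈ Finset.range (P.natDegree + 1),
        (aeval (hmk (fun z : ℂ => z) hx)) (P.coeff j) * (hmk Ef hE) ^ j :
        Hol (ball t0 R)).1 ⟨t, ht⟩ = F t := by
      rw [← hev_apply, map_sum, hF]
      refine Finset.sum_congr rfl fun j _ => ?_
      rw [map_mul, map_pow, hev_apply, hev_apply, hol_aeval]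
      rfl
    rw [← h2]
    exact h1)
  -- the polynomial in the first variable
  have hq : ∀ t : ℂ, ∑ j ∈ Finset.range (P.natDegree + 1), C ((Ef t) ^ j) * P.coeff j = 0 := by
    intro t
    apply Polynomial.eq_zero_of_infinite_isRoot
    refine Set.Infinite.mono (s := Set.range fun n : ℕ => t + n) ?_
      (Set.infinite_range_of_injective fun n m hnm => by
        have : (n : ℂ) = m := by simpa using hnm
        exact_mod_cast this)
    rintro _ ⟨n, rfl⟩
    have h1 := hF0 (t + n)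
    rw [hF] at h1
    simp only [Ef_nat] at h1
    show eval (t + n) _ = 0
    rw [eval_finsetSum, ← h1]
    refine Finset.sum_congr rfl fun j _ => ?_
    rw [eval_mul, eval_C]
    ring
  ext j i
  rw [coeff_zero, coeff_zero]
  by_cases hj : j ≤ P.natDegree
  · have h2 : ∑ j ∈ Finset.range (P.natDegree + 1), C ((P.coeff j).coeff i) * X ^ j = 0 := by
      apply poly_zero_of_ne
      intro z hz
      obtain ⟨t, rfl⟩ := Ef_surj z hz
      have h3 := congrArg (fun q => q.coeff i) (hq t)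
      simp only [finsetSum_coeff, coeff_C_mul, coeff_zero] at h3
      rw [eval_finsetSum, ← h3]
      refine Finset.sum_congr rfl fun j _ => ?_
      rw [eval_mul, eval_C, eval_pow, eval_X]
      ring
    have h4 := congrArg (fun q => q.coeff j) h2
    simp only [finsetSum_coeff, coeff_C_mul, coeff_X_pow, coeff_zero] at h4
    rw [Finset.sum_eq_single j] at h4
    · rw [if_pos rfl, mul_one] at h4
      exact h4
    · intro l _ hl
      rw [if_neg (fun h => hl h.symm), mul_zero]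
    · intro hn
      exact absurd (Finset.mem_range.2 (by omega)) hn
  · have h5 : P.coeff j = 0 := coeff_eq_zero_of_natDegree_lt (by omega)
    rw [h5, coeff_zero]

end

/-- The polynomial relation of an arc. -/
noncomputable def arcPoly {A : Type} [CommRing A] (a b c : ℤ) (x z : A) : A :=
  (-(1 - x) ^ 2) ^ a.toNat * x ^ (-a).toNat * ((-(1 - z) ^ 2) ^ b.toNat * z ^ (-b).toNat) *
      ((-(1 - x * z) ^ 2) ^ c.toNat * (x * z) ^ (-c).toNat) -
    (-(1 - x) ^ 2) ^ (-a).toNat * x ^ a.toNat * ((-(1 - z) ^ 2) ^ (-b).toNat * z ^ b.toNat) *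
      ((-(1 - x * z) ^ 2) ^ (-c).toNat * (x * z) ^ c.toNat)

theorem arcPoly_map {A : Type} [CommRing A] [Algebra ℂ A] (a b c : ℤ) (x z : A) :
    aevalAeval x z (arcPoly a b c (C X : ℂ[X][X]) X) = arcPoly a b c x z := by
  unfold arcPoly
  simp only [map_sub, map_mul, map_pow, map_neg, map_one, aevalAeval_X, aevalAeval_Y]

theorem arcPoly_ne (a b c : ℤ) (ha : a ≠ 0) : arcPoly a b c (C X : ℂ[X][X]) X ≠ 0 := by
  intro h
  have h1 := arcPoly_map (A := ℂ) a b c 1 (-1)
  rw [h, map_zero] at h1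
  unfold arcPoly at h1
  have h0 : (-(1 - (1 : ℂ)) ^ 2) = 0 := by norm_num
  rw [h0] at h1
  rcases lt_or_gt_of_ne ha with hlt | hgt
  · have e1 : a.toNat = 0 := by omega
    have e2 : (-a).toNat ≠ 0 := by omega
    rw [e1, zero_pow e2] at h1
    simp only [pow_zero, zero_mul, sub_zero, one_pow, one_mul, mul_one] at h1
    have : (-(1 - (-1 : ℂ)) ^ 2) ≠ 0 := by norm_num
    exact (mul_ne_zero (mul_ne_zero (pow_ne_zero _ this) (pow_ne_zero _ (by norm_num)))
      (mul_ne_zero (pow_ne_zero _ this) (pow_ne_zero _ (by norm_num)))) h1.symm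
  · have e1 : (-a).toNat = 0 := by omega
    have e2 : a.toNat ≠ 0 := by omega
    rw [e1, zero_pow e2] at h1
    simp only [pow_zero, zero_mul, zero_sub, one_pow, one_mul, mul_one, zero_eq_neg] at h1
    have : (-(1 - (-1 : ℂ)) ^ 2) ≠ 0 := by norm_num
    exact (mul_ne_zero (mul_ne_zero (pow_ne_zero _ this) (pow_ne_zero _ (by norm_num)))
      (mul_ne_zero (pow_ne_zero _ this) (pow_ne_zero _ (by norm_num)))) h1

/-- The relation in terms of exponentials. -/
theorem arcPoly_zero (a b c : ℤ) (ha : a ≠ 0) (hb : b ≠ 0) (u w : ℂ)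
    (h : Sf u ^ a * Sf w ^ b * Sf (u + w) ^ c = 1) : arcPoly a b c (Ef u) (Ef w) = 0 := by
  have hu : Sf u ≠ 0 := by
    intro h0
    rw [h0, zero_zpow a ha, zero_mul, zero_mul] at h
    exact zero_ne_one h
  have hw : Sf w ≠ 0 := by
    intro h0
    rw [h0, zero_zpow b hb, mul_zero, zero_mul] at h
    exact zero_ne_one h
  have huw : c = 0 ∨ Sf (u + w) ≠ 0 := by
    by_cases hc : c = 0
    · exact Or.inl hc
    · right
      intro h0
      rw [h0, zero_zpow c hc, mul_zero] at h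
      exact zero_ne_one h
  obtain ⟨n1, e1⟩ := zpow_split a (Sf u) _ _ (Ef_ne u) (Sf_eq u) (Or.inr hu)
  obtain ⟨n2, e2⟩ := zpow_split b (Sf w) _ _ (Ef_ne w) (Sf_eq w) (Or.inr hw)
  obtain ⟨n3, e3⟩ := zpow_split c (Sf (u + w)) _ _ (Ef_ne (u + w)) (Sf_eq (u + w)) huw
  rw [e1, e2, e3, Ef_add] at h
  rw [Ef_add] at n3
  rw [div_mul_div_comm, div_mul_div_comm, div_eq_one_iff_eq (mul_ne_zero (mul_ne_zero n1 n2) n3)] at h
  unfold arcPoly
  rw [sub_eq_zero]
  exact h

/-- **Transcendence of the arcs.** -/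
theorem trans_arc (a b c : ℤ) (h : ArcType a b c) (t0 : ℂ) (R : ℝ) (hR : 0 < R) (ψ : ℂ → ℂ)
    (hψ : DifferentiableOn ℂ ψ (ball t0 R))
    (hrel : ∀ t ∈ ball t0 R, Sf t ^ a * Sf (ψ t) ^ b * Sf (t + ψ t) ^ c = 1)
    (d : ℕ) (cc : Fin d × Fin d → ℂ) (hcc : cc ≠ 0) :
    ∃ t ∈ ball t0 R, ∑ i, cc i * (t ^ (i.1 : ℕ) * ψ t ^ (i.2 : ℕ)) ≠ 0 := by
  classical
  by_contra hcon
  push Not at hcon
  have ha : a ≠ 0 := by rcases h with h | h; exacts [h.2.1, h.2.1]
  have hb : b ≠ 0 := by rcases h with h | h; exacts [h.2.2.1, h.2.2.1]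
  have hUo : IsOpen (ball t0 R) := isOpen_ball
  have hU : IsPreconnected (ball t0 R) := (convex_ball t0 R).isPreconnected
  have hne : (ball t0 R).Nonempty := ⟨t0, mem_ball_self hR⟩
  haveI := hol_isDomain hU hne
  have hx : AnalyticOnNhd ℂ (fun z : ℂ => z) (ball t0 R) := analyticOnNhd_id
  have hE : AnalyticOnNhd ℂ Ef (ball t0 R) :=
    Ef_differentiable.differentiableOn.analyticOnNhd isOpen_ball
  have hw : AnalyticOnNhd ℂ ψ (ball t0 R) := hψ.analyticOnNhd isOpen_ball
  have hZd : DifferentiableOn ℂ (fun t => Ef (ψ t)) (ball t0 R) :=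
    Ef_differentiable.comp_differentiableOn hψ
  have hZ : AnalyticOnNhd ℂ (fun t => Ef (ψ t)) (ball t0 R) := hZd.analyticOnNhd isOpen_ball
  -- the first relation
  set P : ℂ[X][X] := ∑ i : Fin d × Fin d, C (C (cc i) * X ^ (i.1 : ℕ)) * X ^ (i.2 : ℕ) with hP
  have hPne : P ≠ 0 := by
    intro h0
    obtain ⟨i0, hi0⟩ := Function.ne_iff.1 hcc
    apply hi0
    have h1 := congrArg (fun q : ℂ[X][X] => (q.coeff (i0.2 : ℕ)).coeff (i0.1 : ℕ)) h0
    simp only [hP, finsetSum_coeff, coeff_C_mul, coeff_X_pow, coeff_zero, mul_ite, mul_one,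
      mul_zero] at h1
    rw [Finset.sum_eq_single i0] at h1
    · simpa using h1
    · intro i _ hi
      by_cases h2 : (i0.2 : ℕ) = (i.2 : ℕ)
      · rw [if_pos h2]
        have h3 : ¬ (i0.1 : ℕ) = (i.1 : ℕ) := by
          intro h3
          exact hi (Prod.ext (Fin.ext h3.symm) (Fin.ext h2.symm))
        rw [coeff_C_mul, coeff_X_pow, if_neg h3, mul_zero]
      · rw [if_neg h2, coeff_zero]
    · intro hn
      exact absurd (Finset.mem_univ _) hn
  have hP0 : aevalAeval (hmk (fun z : ℂ => z) hx) (hmk ψ hw) P = 0 := by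
    refine hol_ext fun u => ?_
    rw [hP, ← hev_apply, map_sum, map_sum]
    have h1 := hcon u u.2
    show _ = (0 : ℂ)
    rw [← h1]
    refine Finset.sum_congr rfl fun i _ => ?_
    simp only [map_mul, aevalAeval_C, map_pow, aevalAeval_Y, aeval_C, aeval_X, AlgHom.commutes,
      hev_apply, hmk_apply, Algebra.algebraMap_self, RingHom.id_apply]
    ring
  have A1 : AlgOver (hmk (fun z : ℂ => z) hx) (hmk (deriv ψ) hw.deriv) := by
    refine alg_deriv hUo hU hne _ _ hx hw (tr_id t0 R hR hx) P hPne hP0 ?_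
    have h1 : hmk (deriv fun z : ℂ => z) hx.deriv = (1 : Hol (ball t0 R)) := by
      refine hol_ext fun u => ?_
      rw [hmk_apply, deriv_id'']
      rfl
    rw [h1]
    have := AlgOver.const (hmk (fun z : ℂ => z) hx) 1
    rwa [map_one] at this
  -- the second relation
  have hQ0 : aevalAeval (hmk Ef hE) (hmk (fun t => Ef (ψ t)) hZ)
      (arcPoly a b c (C X : ℂ[X][X]) X) = 0 := by
    rw [arcPoly_map]
    refine hol_ext fun u => ?_
    have h1 := arcPoly_zero a b c ha hb u (ψ u) (hrel u u.2)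
    have h2 : (arcPoly a b c (hmk Ef hE) (hmk (fun t => Ef (ψ t)) hZ)).1 u =
        arcPoly a b c (Ef u) (Ef (ψ u)) := by
      rw [← hev_apply]
      unfold arcPoly
      simp only [map_sub, map_mul, map_pow, map_neg, map_one, hev_apply, hmk_apply]
    rw [h2, h1]
    rfl
  have hEalg : AlgOver (hmk Ef hE) (hmk (deriv Ef) hE.deriv) := by
    have h1 : hmk (deriv Ef) hE.deriv =
        algebraMap ℂ (Hol (ball t0 R)) (2 * Real.pi * Complex.I) * hmk Ef hE := by
      refine hol_ext fun u => ?_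
      rw [hmk_apply]
      have h2 : deriv Ef u = 2 * Real.pi * Complex.I * Ef u := by
        have h3 : HasDerivAt (fun z : ℂ => 2 * Real.pi * Complex.I * z)
            (2 * Real.pi * Complex.I) (u : ℂ) := by
          simpa using (hasDerivAt_id (u : ℂ)).const_mul (2 * (Real.pi : ℂ) * Complex.I)
        have h4 := h3.cexp
        have h5 : HasDerivAt Ef (Ef u * (2 * Real.pi * Complex.I)) u := h4
        rw [h5.deriv, mul_comm]
      rw [h2]
      rfl
    rw [h1]
    exact (AlgOver.const _ _).mul (AlgOver.self _)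
  have A2' := alg_deriv hUo hU hne _ _ hE hZ (tr_Ef t0 R hR hE) _ (arcPoly_ne a b c ha) hQ0 hEalg
  have hZalg : AlgOver (hmk Ef hE) (hmk (fun t => Ef (ψ t)) hZ) :=
    AlgOver.of_rel (tr_Ef t0 R hR hE) _ (arcPoly_ne a b c ha) hQ0
  have A2 : AlgOver (hmk Ef hE) (hmk (deriv ψ) hw.deriv) := by
    have h1 : hmk (deriv fun t => Ef (ψ t)) hZ.deriv =
        (algebraMap ℂ (Hol (ball t0 R)) (2 * Real.pi * Complex.I) *
          hmk (fun t => Ef (ψ t)) hZ) * hmk (deriv ψ) hw.deriv := by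
      refine hol_ext fun u => ?_
      rw [hmk_apply]
      have h2 : deriv (fun t => Ef (ψ t)) u =
          2 * Real.pi * Complex.I * Ef (ψ u) * deriv ψ u := by
        have h3 := ((hw u u.2).differentiableAt.hasDerivAt).const_mul
          (2 * (Real.pi : ℂ) * Complex.I)
        have h4 := h3.cexp
        have h5 : HasDerivAt (fun t => Ef (ψ t))
            (Ef (ψ u) * (2 * Real.pi * Complex.I * deriv ψ u)) u := h4
        rw [h5.deriv]
        ring
      rw [h2]
      rfl
    rw [h1] at A2'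
    refine AlgOver.of_mul ?_ ((AlgOver.const _ _).mul hZalg) A2'
    intro h0
    have h3 := congrArg (fun q : Hol (ball t0 R) => q.1 ⟨t0, mem_ball_self hR⟩) h0
    have h4 : (2 * (Real.pi : ℂ) * Complex.I) * Ef (ψ t0) = 0 := h3
    exact mul_ne_zero Complex.two_pi_I_ne_zero (Ef_ne _) h4
  -- the derivative is constant
  have A3 : IsAlgebraic ℂ (hmk (deriv ψ) hw.deriv) := by
    refine AlgOver.const_of_two A1 A2 ?_
    intro hal
    obtain ⟨Q, hQ, hQ0⟩ := hal.to_rel
    exact not_alg t0 R hR hx hE Q hQ hQ0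
  obtain ⟨κ, hκ⟩ := eq_const_of_isAlgebraic A3
  have hder : ∀ t ∈ ball t0 R, deriv ψ t = κ := by
    intro t ht
    have h1 := congrArg (fun q : Hol (ball t0 R) => q.1 ⟨t, ht⟩) hκ
    exact h1
  set κ' : ℂ := ψ t0 - κ * t0 with hκ'
  have hlin : ∀ t ∈ ball t0 R, ψ t = κ * t + κ' := by
    intro t ht
    have hd : DifferentiableOn ℂ (fun t => ψ t - κ * t) (ball t0 R) :=
      hψ.sub ((differentiableOn_id).const_mul κ)
    have h1 := isOpen_ball.is_const_of_deriv_eq_zero hU hd (fun z hz => by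
      have h2 : HasDerivAt ψ (deriv ψ z) z :=
        ((hψ z hz).differentiableAt (isOpen_ball.mem_nhds hz)).hasDerivAt
      have h3 : HasDerivAt (fun t => ψ t - κ * t) (deriv ψ z - κ * 1) z :=
        h2.sub ((hasDerivAt_id z).const_mul κ)
      rw [h3.deriv, hder z hz]
      simp) ht (mem_ball_self hR)
    have h2 : ψ t - κ * t = ψ t0 - κ * t0 := h1
    rw [hκ', ← h2]
    ring
  -- the linear case
  refine lin_case a b c h κ κ' fun t => ?_
  have hdiff : Differentiable ℂ (fun t : ℂ =>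
      Sf t ^ a.toNat * Sf (κ * t + κ') ^ b.toNat * Sf (t + (κ * t + κ')) ^ c.toNat -
      Sf t ^ (-a).toNat * Sf (κ * t + κ') ^ (-b).toNat * Sf (t + (κ * t + κ')) ^ (-c).toNat) := by
    unfold Sf
    fun_prop
  have h1 := entire_zero t0 R hR _ hdiff (fun z hz => by
    have h2 := hrel z hz
    rw [hlin z hz] at h2
    have hu : Sf z ≠ 0 := by
      intro h0
      rw [h0, zero_zpow a ha, zero_mul, zero_mul] at h2
      exact zero_ne_one h2
    have hw : Sf (κ * z + κ') ≠ 0 := by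
      intro h0
      rw [h0, zero_zpow b hb, mul_zero, zero_mul] at h2
      exact zero_ne_one h2
    have huw : c = 0 ∨ Sf (z + (κ * z + κ')) ≠ 0 := by
      by_cases hc : c = 0
      · exact Or.inl hc
      · right
        intro h0
        rw [h0, zero_zpow c hc, mul_zero] at h2
        exact zero_ne_one h2
    obtain ⟨n1, e1⟩ := zpow_split a (Sf z) (Sf z) 1 one_ne_zero (by rw [div_one]) (Or.inr hu)
    obtain ⟨n2, e2⟩ := zpow_split b (Sf (κ * z + κ')) _ 1 one_ne_zero (by rw [div_one]) (Or.inr hw)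
    obtain ⟨n3, e3⟩ := zpow_split c (Sf (z + (κ * z + κ'))) _ 1 one_ne_zero (by rw [div_one]) huw
    rw [e1, e2, e3, div_mul_div_comm, div_mul_div_comm,
      div_eq_one_iff_eq (mul_ne_zero (mul_ne_zero n1 n2) n3)] at h2
    simp only [one_pow, mul_one] at h2
    rw [h2, sub_self]) t
  exact sub_eq_zero.1 h1

end Pool.Agent.Flat3
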